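import Pool.Agent.U162.PL.Ap

/-!
The norm in the Banach space is bounded in terms of the critical norm
-/

open MeasureTheory Set Filter Topology
open scoped ENNReal NNReal ContDiff

namespace Pool.Agent.U162.PL

open Pool.Agent.H356R3.NS Pool.Agent.U162.TS Pool.Agent.U162.TS.EL

section

variable {c : ℝ} {X : Fam} (h : Gnf c X)

lemma C3_nonneg (hc : 0 < c) : 0 ≤ C3c c := by unfold C3c; positivity

include h

lemma YYg_bound (hc : 0 < c) {t : ℝ} (ht : 0 ≤ t) :
    YY X t * Real.exp (c * t) ≤ YY X 0 * Real.exp (C3c c * ∫ s in (0 : ℝ)..t, gX X s ^ 2) := by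
  have hC3 := C3_nonneg hc
  have hg2 : Continuous fun s => gX X s ^ 2 := (gX_cont h).pow 2
  set I : ℝ → ℝ := fun t => ∫ s in (0 : ℝ)..t, gX X s ^ 2 with hI
  have hIc : Continuous I := intervalIntegral.continuous_primitive (fun a b => hg2.intervalIntegrable a b) 0
  have hId : ∀ s, HasDerivAt I (gX X s ^ 2) s := fun s =>
    intervalIntegral.integral_hasDerivAt_right (hg2.intervalIntegrable _ _)
      (hg2.stronglyMeasurableAtFilter _ _) hg2.continuousAt
  set V : ℝ → ℝ := fun t => YY X t * Real.exp (c * t - C3c c * I t) with hV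
  have hcY := YYg_cont h
  have hVc : Continuous V := by
    rw [hV]
    exact hcY.mul (Real.continuous_exp.comp (by fun_prop))
  have hVd : ∀ s, 0 < s → ∃ V', HasDerivAt V V' s ∧ V' ≤ 0 := by
    intro s hs
    obtain ⟨Y', hY', hle⟩ := YYg_deriv h hc hs
    have h1 : HasDerivAt (fun t => c * t - C3c c * I t) (c * 1 - C3c c * gX X s ^ 2) s :=
      ((hasDerivAt_id' s).const_mul c).fun_sub ((hId s).const_mul _)
    have h2 := hY'.fun_mul h1.exp
    refine ⟨_, h2, ?_⟩
    have hexp := Real.exp_pos (c * s - C3c c * I s)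
    have : Y' * Real.exp (c * s - C3c c * I s)
        + YY X s * (Real.exp (c * s - C3c c * I s) * (c * 1 - C3c c * gX X s ^ 2))
        = Real.exp (c * s - C3c c * I s) * (Y' - (-c * YY X s + C3c c * gX X s ^ 2 * YY X s)) := by ring
    rw [this]
    exact mul_nonpos_of_nonneg_of_nonpos hexp.le (by linarith)
  have hanti : AntitoneOn V (Ici 0) := by
    refine antitoneOn_of_deriv_nonpos (convex_Ici 0) hVc.continuousOn (fun s hs => ?_) fun s hs => ?_
    · rw [interior_Ici] at hs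
      obtain ⟨V', hV', -⟩ := hVd s hs
      exact hV'.differentiableAt.differentiableWithinAt
    · rw [interior_Ici] at hs
      obtain ⟨V', hV', hle⟩ := hVd s hs
      rw [hV'.deriv]; exact hle
  have h1 := hanti (mem_Ici.2 le_rfl) (mem_Ici.2 ht) ht
  have hI0 : I 0 = 0 := by simp [hI]
  simp only [hV, mul_zero, hI0, sub_zero, Real.exp_zero, mul_one] at h1
  have h2 := mul_le_mul_of_nonneg_right h1 (Real.exp_pos (C3c c * I t)).le
  rw [mul_assoc, ← Real.exp_add, sub_add_cancel] at h2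
  exact h2

lemma sumXg_le (t : ℝ) : gX X t ≤ Real.sqrt s4 * Real.sqrt (YY X t) := by
  obtain ⟨b, hb, hb0, hb'⟩ := h.xbd 2
  have hys : Summable fun k => nk k ^ 2 * ‖X k t‖ :=
    hb.of_nonneg_of_le (fun k => by positivity) fun k => hb' k t
  have hy2 := summ_sq hys fun k => by positivity
  refine (l1_le_l2 (fun k => norm_nonneg _) (by rw [h.z t, norm_zero]) hy2).trans ?_
  refine mul_le_mul_of_nonneg_left (Real.sqrt_le_sqrt ?_) (Real.sqrt_nonneg _)
  have hYs : ∀ i, Summable fun k => ‖((H356R3.NS.sq k : ℝ) : ℂ) * X k t i‖ ^ 2 := fun i =>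
    hy2.of_nonneg_of_le (fun k => sq_nonneg _) fun k => by
      refine pow_le_pow_left₀ (norm_nonneg _) ?_ 2
      rw [norm_mul, Complex.norm_real, Real.norm_of_nonneg (sq_nonneg' k), ← H356R3.NS.nk_sq]
      exact mul_le_mul_of_nonneg_left (norm_le_pi_norm _ i) (by positivity)
  have e : YY X t = ∑' k, ∑ i, ‖((H356R3.NS.sq k : ℝ) : ℂ) * X k t i‖ ^ 2 :=
    (Summable.tsum_finsetSum fun i _ => hYs i).symm
  rw [e]
  refine hy2.tsum_le_tsum (fun k => ?_) (summable_sum fun i _ => hYs i)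
  have := sup_le_sum (X k t)
  have e2 : ∑ i, ‖((H356R3.NS.sq k : ℝ) : ℂ) * X k t i‖ ^ 2 = (nk k ^ 2) ^ 2 * ∑ i, ‖X k t i‖ ^ 2 := by
    rw [Finset.mul_sum]
    refine Finset.sum_congr rfl fun i _ => ?_
    rw [norm_mul, Complex.norm_real, Real.norm_of_nonneg (sq_nonneg' k), ← H356R3.NS.nk_sq, mul_pow]
  rw [e2, mul_pow]
  exact mul_le_mul_of_nonneg_left this (by positivity)

lemma NW_gX (t : ℝ) : NW (Wa 0) (at' X t) = ENNReal.ofReal (gX X t) := by
  rw [NW_Wa0]
  unfold gX at'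
  have hs : Summable fun k => ‖X k t‖ := h.dom.sn t
  rw [ENNReal.ofReal_tsum_of_nonneg (fun _ => norm_nonneg _) hs]
  simp

lemma int_gX {M : ℝ} (hM : 0 ≤ M) (hL : LN (fun t => NW (Wa 0) (at' X t)) ≤ ENNReal.ofReal M) {t : ℝ} (ht : 0 ≤ t) :
    ∫ s in (0 : ℝ)..t, gX X s ^ 2 ≤ M ^ 2 := by
  have hg2 : Continuous fun s => gX X s ^ 2 := (gX_cont h).pow 2
  have h1 : ∫⁻ s in Ioi (0 : ℝ), ENNReal.ofReal (gX X s ^ 2) ≤ ENNReal.ofReal (M ^ 2) := by
    have h2 := ENNReal.rpow_le_rpow hL (by norm_num : (0 : ℝ) ≤ 2)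
    unfold LN at h2
    rw [← ENNReal.rpow_mul, ENNReal.ofReal_rpow_of_nonneg hM (by norm_num)] at h2
    norm_num at h2
    refine le_trans (le_of_eq ?_) h2
    refine lintegral_congr fun s => ?_
    rw [NW_gX h s, ← ENNReal.ofReal_pow (gX_nonneg X s)]
  rw [intervalIntegral.integral_of_le ht]
  have h3 : ENNReal.ofReal (∫ s in Ioc 0 t, gX X s ^ 2) = ∫⁻ s in Ioc 0 t, ENNReal.ofReal (gX X s ^ 2) := by
    refine ofReal_integral_eq_lintegral_ofReal ?_ (Filter.Eventually.of_forall fun s => sq_nonneg _)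
    exact (hg2.integrableOn_Icc (a := 0) (b := t)).mono_set Ioc_subset_Icc_self
  have h4 : ENNReal.ofReal (∫ s in Ioc 0 t, gX X s ^ 2) ≤ ENNReal.ofReal (M ^ 2) := by
    rw [h3]
    exact (lintegral_mono_set Ioc_subset_Ioi_self).trans h1
  exact (ENNReal.ofReal_le_ofReal_iff (sq_nonneg M)).1 h4

end

variable {c : ℝ} (hc : 0 < c)

lemma gnf_of_sol {z : EE} {v : K → C3} (hv : Dta v) (hz : Phi hc z = hE hc v hv.sum) : Gnf c (XX c z) where
  ode := XX_ode hc hz hv.mean
  cf := XX_cf z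
  z := XX_zero hc hz hv.mean
  rd := XX_rd hc hv hz

/-- the bound -/
noncomputable def Gg (c M : ℝ) (v : K → C3) : ℝ := Real.sqrt s4 * Real.sqrt (yv v * Real.exp (C3c c * M ^ 2))

/-- the uniform bound in terms of the critical norm -/
theorem z_G_crit {z : EE} {v : K → C3} (hv : Dta v) (hz : Phi hc z = hE hc v hv.sum) {M : ℝ} (hM : 0 ≤ M)
    (hL : LN (fun t => NW (Wa 0) (at' (XX c z) t)) ≤ ENNReal.ofReal M) (t : ℝ) : ∑' k, ‖z k t‖ ≤ Gg c M v := by
  have hpl := gnf_of_sol hc hv hz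
  have e0 : ∑' k, ‖z k t‖ = Real.exp (c / 2 * max t 0) * gX (XX c z) (max t 0) := by
    unfold gX
    rw [← tsum_mul_left]
    refine tsum_congr fun k => ?_
    have hmm : max (max t 0) 0 = max t 0 := max_eq_left (le_max_right _ _)
    unfold XX
    rw [norm_smul, Real.norm_of_nonneg (Real.exp_pos _).le, hmm, ← mul_assoc, ← Real.exp_add, add_neg_cancel,
      Real.exp_zero, one_mul, ← z_max hc hz]
  rw [e0]
  generalize hs : max t 0 = s
  have hs0 : 0 ≤ s := by rw [← hs]; exact le_max_right _ _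
  have h1 := sumXg_le hpl s
  have h2 := YYg_bound hpl hc hs0
  have h3 := int_gX hpl hM hL hs0
  have e1 : YY (XX c z) 0 = yv v := by
    unfold YY yv
    simp only [XX_init hc hz hv.mean]
  rw [e1] at h2
  have y0 : 0 ≤ yv v := Finset.sum_nonneg fun _ _ => tsum_nonneg fun _ => sq_nonneg _
  have h4 : YY (XX c z) s * Real.exp (c * s) ≤ yv v * Real.exp (C3c c * M ^ 2) :=
    h2.trans (mul_le_mul_of_nonneg_left (Real.exp_le_exp.2 (mul_le_mul_of_nonneg_left h3 (C3_nonneg hc))) y0)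
  have hY0 := YY_nonneg (XX c z) s
  calc Real.exp (c / 2 * s) * gX (XX c z) s
      ≤ Real.exp (c / 2 * s) * (Real.sqrt s4 * Real.sqrt (YY (XX c z) s)) :=
        mul_le_mul_of_nonneg_left h1 (Real.exp_pos _).le
    _ = Real.sqrt s4 * Real.sqrt (YY (XX c z) s * Real.exp (c * s)) := by
        rw [Real.sqrt_mul hY0]
        have : Real.sqrt (Real.exp (c * s)) = Real.exp (c / 2 * s) := by
          rw [Real.sqrt_eq_iff_mul_self_eq (Real.exp_pos _).le (Real.exp_pos _).le, ← Real.exp_add]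
          congr 1; ring
        rw [this]; ring
    _ ≤ Gg c M v := by
        unfold Gg
        exact mul_le_mul_of_nonneg_left (Real.sqrt_le_sqrt h4) (Real.sqrt_nonneg _)

end Pool.Agent.U162.PL
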