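import Pool.Agent.U162.PL.Ef

/-!
The two-scale theorem without hypotheses for planar data
-/

open MeasureTheory Set Filter Topology
open scoped ENNReal NNReal ContDiff

namespace Pool.Agent.U162.PL

open Pool.Agent.H356R3.NS Pool.Agent.U162.TS Pool.Agent.U162.TS.EL Pool.Agent.U162.TS.VF Pool.Agent.U162.TS.Ph

/-- a vector in the direction `n` -/
noncomputable def vz (n : K) (θ : ℝ) : R3 := fun i => θ * (n i : ℝ)

lemma ee_vz (n l : K) (θ : ℝ) :
    H459R3.NS.ee l (vz n θ) = Complex.exp ((2 * Real.pi * θ * ((dz n l : ℤ) : ℝ) : ℝ) * Complex.I) := by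
  rw [ee_eq_ch]
  unfold ch vz dz
  congr 1
  rw [Fin.sum_univ_three]
  push_cast
  ring

/-- functions which are invariant in a direction -/
lemma fr_inv {f : R3 → ℝ} (hf : H459R3.NS.SP f) {n : K} (h : ∀ θ x, f (x + vz n θ) = f x) {l : K} (hl : dz n l ≠ 0) :
    H459R3.NS.fr f l = 0 := by
  set θ : ℝ := 1 / (2 * ((dz n l : ℤ) : ℝ)) with hθ
  have hs := (H459R3.NS.rap_fr hf).summable
  have h1 : ∀ x, (f x : ℂ) = H459R3.NS.S (fun k => H459R3.NS.fr f k * H459R3.NS.ee k (vz n θ)) x := by
    intro x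
    rw [← h θ x, ← H459R3.NS.S_fr hf]
    unfold H459R3.NS.S
    refine tsum_congr fun k => ?_
    rw [H459R3.NS.ee_add]; ring
  have hs2 : Summable fun k => H459R3.NS.fr f k * H459R3.NS.ee k (vz n θ) := by
    refine Summable.of_norm ?_
    simp only [norm_mul, H459R3.NS.norm_ee, mul_one]
    exact hs.norm
  have h2 := H459R3.NS.integral_ee_S (-l) hs2
  rw [neg_neg] at h2
  have h3 : H459R3.NS.fr f l = H459R3.NS.fr f l * H459R3.NS.ee l (vz n θ) := by
    rw [← h2]
    unfold H459R3.NS.fr H459R3.NS.fc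
    refine integral_congr_ae (Filter.Eventually.of_forall fun x => ?_)
    simp only
    rw [h1 x]
    rfl
  have h4 : H459R3.NS.ee l (vz n θ) = -1 := by
    rw [ee_vz]
    have hk' : ((dz n l : ℤ) : ℝ) ≠ 0 := by exact_mod_cast hl
    have : 2 * Real.pi * θ * ((dz n l : ℤ) : ℝ) = Real.pi := by
      rw [hθ]; field_simp
    rw [this, Complex.exp_pi_mul_I]
  rw [h4] at h3
  linear_combination (1 / 2 : ℂ) * h3

variable {ν : ℝ} {b : K × K → C3} {S : Finset (K × K)} {W : R3 → ℝ → R3 → R3} {Q : R3 → ℝ → R3 → ℝ}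

lemma UU_inv {c : ℝ} (hc : 0 < c) {n : K} (hp : ∀ P, b P ≠ 0 → dz n P.1 = 0) (θ : ℝ) (x : R3) :
    UU hc b S (x + vz n θ) = UU hc b S x := by
  unfold UU
  refine Finset.sum_congr rfl fun P _ => ?_
  by_cases h : b P = 0
  · have : hT hc P.2 (b P) = 0 := by
      ext1 t
      rw [h, hT_apply, smul_zero]; rfl
    rw [this]
    simp
  · rw [H459R3.NS.ee_add, ee_vz, hp P h]
    simp

lemma push_plane {c : ℝ} (hc : 0 < c) (hb : Prof b S)
    (hW : ∀ x, AdmissiblePeriodic ν (profile b S x) (W x) (Q x)) {z : R3 → EE} (hsp : SPv z)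
    (hz1 : ∀ x k t, z x k t = Real.exp (c / 2 * max t 0) • XF (W x) k (max t 0))
    (hz2 : ∀ x, Phi hc (z x) = UU hc b S x) {n : K} (hp : ∀ P, b P ≠ 0 → dz n P.1 = 0) {l : K} (hl : dz n l ≠ 0) :
    push W l = 0 := by
  have hzi : ∀ θ x, z (x + vz n θ) = z x := by
    intro θ x
    apply Phi_inj hc
    rw [hz2, hz2, UU_inv hc hp]
  have hinv : ∀ j m θ x, stress W j m (x + vz n θ) = stress W j m x := by
    intro j m θ x
    have h1 := stress_QS hc hb hW hz1 j m (x + vz n θ)
    rw [hzi, ← stress_QS hc hb hW hz1 j m x] at h1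
    exact_mod_cast h1
  have h0 : ∀ j m, H459R3.NS.fr (stress W j m) l = 0 := fun j m =>
    fr_inv (stress_sp hc hb hW hsp hz1 j m) (hinv j m) hl
  funext i
  rw [push_fr]
  simp only [h0, mul_zero, Finset.sum_const_zero]
  unfold leray
  simp

/-- the data at a point of the slow variable -/
noncomputable def vx (b : K × K → C3) (S : Finset (K × K)) (x : R3) (k : K) : C3 :=
  ∑ P ∈ S, if P.2 = k then ch P.1 x • b P else 0

lemma vx_apply (x : R3) (k : K) (i : Fin 3) :
    vx b S x k i = ∑ P ∈ S, if P.2 = k then ch P.1 x * b P i else 0 := by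
  unfold vx
  rw [Finset.sum_apply]
  refine Finset.sum_congr rfl fun P _ => ?_
  split_ifs
  · rfl
  · rfl

lemma vx_supp (x : R3) {k : K} (hk : k ∉ S.image Prod.snd) : vx b S x k = 0 := by
  unfold vx
  refine Finset.sum_eq_zero fun P hP => ?_
  rw [if_neg]
  rintro rfl
  exact hk (Finset.mem_image_of_mem _ hP)

lemma profile_cont (x : R3) (i : Fin 3) : Continuous fun y => profile b S x y i := by
  unfold profile ch
  fun_prop

lemma vx_fr (hb : Prof b S) (x : R3) (k : K) (i : Fin 3) :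
    vx b S x k i = H459R3.NS.fr (fun y => profile b S x y i) k := by
  rw [fc_profile hb, vx_apply]

lemma vx_dta (hb : Prof b S) (x : R3) : Dta (vx b S x) := by
  have hm : vx b S x 0 = 0 := by
    unfold vx
    refine Finset.sum_eq_zero fun P _ => ?_
    split_ifs with h
    · rw [hb.mean P h, smul_zero]
    · rfl
  have hd : ∀ j : ℕ, ∃ D : ℝ, ∀ k, nk k ^ j * ‖vx b S x k‖ ≤ D := by
    intro j
    refine ⟨∑ k ∈ S.image Prod.snd, nk k ^ j * ‖vx b S x k‖, fun k => ?_⟩
    by_cases hk : k ∈ S.image Prod.snd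
    · exact Finset.single_le_sum (f := fun k => nk k ^ j * ‖vx b S x k‖)
        (fun k _ => mul_nonneg (pow_nonneg (nk_nonneg k) j) (norm_nonneg _)) hk
    · rw [vx_supp x hk, norm_zero, mul_zero]
      exact Finset.sum_nonneg fun k _ => mul_nonneg (pow_nonneg (nk_nonneg k) j) (norm_nonneg _)
  refine ⟨summ_of_dec hm hd, hm, fun k i => ?_, fun k => ?_, hd⟩
  · rw [vx_fr hb, vx_fr hb, Pool.Agent.Q63.Win.fr_neg (profile_cont x i)]
    rfl
  · unfold vx
    rw [dt_sum]
    refine Finset.sum_eq_zero fun P _ => ?_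
    split_ifs with h
    · have : dt k (ch P.1 x • b P) = ch P.1 x * dt k (b P) := by
        rw [dt_eq, dt_eq]; simp only [Pi.smul_apply, smul_eq_mul]; ring
      rw [this, ← h, show dt P.2 (b P) = 0 from hb.div P, mul_zero]
    · simp [dt]

lemma vx_profile (hb : Prof b S) (x y : R3) (i : Fin 3) :
    (∑' k, vx b S x k i * ch k y).re = profile b S x y i := by
  have h : ∑' k, vx b S x k i * ch k y = ((profile b S x y i : ℝ) : ℂ) := by
    rw [profile_eq hb]
    have e : ∀ k, vx b S x k i * ch k y = ∑ P ∈ S, if P.2 = k then b P i * (ch P.1 x * ch P.2 y) else 0 := by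
      intro k
      rw [vx_apply, Finset.sum_mul]
      refine Finset.sum_congr rfl fun P _ => ?_
      split_ifs with h
      · rw [← h]; ring
      · ring
    simp only [e]
    rw [Summable.tsum_finsetSum]
    · refine Finset.sum_congr rfl fun P _ => ?_
      rw [tsum_eq_single P.2 fun k hk => if_neg (Ne.symm hk), if_pos rfl]
    · intro P _
      exact summable_of_ne_finset_zero (s := {P.2}) fun k hk => by
        rw [if_neg]; rintro rfl; exact hk (Finset.mem_singleton_self _)
  rw [h, Complex.ofReal_re]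

/-- the fast flows exist when the fast frequencies are in a plane -/
theorem fast_planar (hν : 0 < ν) (hb : Prof b S) {n : K} (hn : n ≠ 0) (hp : ∀ P, b P ≠ 0 → dz n P.2 = 0) (x : R3) :
    ∃ w q, AdmissiblePeriodic ν (profile b S x) w q := by
  have hpl : Pld n (vx b S x) := by
    intro k hk
    unfold vx
    refine Finset.sum_eq_zero fun P _ => ?_
    split_ifs with h
    · have : b P = 0 := by
        by_contra hne
        exact hk (h ▸ hp P hne)
      rw [this, smul_zero]
    · rfl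
  obtain ⟨u, p, hu⟩ := adm_planar hν hn (vx_dta hb x) hpl
  have e : (fun (y : R3) i => (∑' k, vx b S x k i * ch k y).re) = profile b S x := by
    funext y i; exact vx_profile hb x y i
  rw [e] at hu
  exact ⟨u, p, hu⟩

/-- real fields with given coefficients -/
lemma fc_series {v : K → C3} (hv : Dta v) (l : K) (i : Fin 3) :
    H356R3.NS.fc (fun x i => (∑' k, v k i * ch k x).re) l i = v l i := by
  have hs : Summable fun k => v k i := Summable.of_norm_bounded hv.sum fun k => norm_le_pi_norm (v k) i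
  have h1 : ∀ x, (((∑' k, v k i * ch k x).re : ℝ) : ℂ) = H459R3.NS.S (fun k => v k i) x := by
    intro x
    have e : H459R3.NS.S (fun k => v k i) x = ∑' k, v k i * ch k x := by
      unfold H459R3.NS.S
      exact tsum_congr fun k => by rw [ee_eq_ch]
    rw [e]
    refine Complex.conj_eq_iff_re.1 ?_
    rw [Complex.conj_tsum, ← (Equiv.neg K).tsum_eq]
    refine tsum_congr fun k => ?_
    rw [map_mul, Equiv.neg_apply, hv.real]
    have := ch_neg_star k x
    rw [← this]
    simp [Complex.star_def]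
  rw [← fr_eq_fc]
  unfold H459R3.NS.fr H459R3.NS.fc
  have h2 := H459R3.NS.integral_ee_S (-l) hs
  rw [neg_neg] at h2
  rw [← h2]
  refine integral_congr_ae (Filter.Eventually.of_forall fun x => ?_)
  simp only
  rw [h1]

/-- The effective datum, and the two-scale theorem with the planar cases -/
theorem final (hν : 0 < ν) {a : Fq → Fin 3 → ℂ} {A : Finset Fq} (ha : Slow a A) (hb : Prof b S)
    (hF : (∀ x, ∃ w q, AdmissiblePeriodic ν (profile b S x) w q) ∨ ∃ n : Fq, n ≠ 0 ∧ ∀ P, b P ≠ 0 → dz n P.2 = 0) :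
    ∃ (W : R3 → ℝ → R3 → R3) (Q : R3 → ℝ → R3 → ℝ) (g : R3 → R3),
      (∀ x, AdmissiblePeriodic ν (profile b S x) (W x) (Q x)) ∧
      (∀ l i, H356R3.NS.fc g l i = a l i + push W l i) ∧
      (((∃ v p, AdmissiblePeriodic ν g v p) ∨ ∃ n : Fq, n ≠ 0 ∧ (∀ k, a k ≠ 0 → dz n k = 0) ∧
          ∀ P, b P ≠ 0 → dz n P.1 = 0) →
        ∃ v p, AdmissiblePeriodic ν g v p ∧ ∀ ε : ℝ, 0 < ε → ∃ N0 : ℕ, ∀ N : ℕ, N0 ≤ N → ∃ u q,
          AdmissiblePeriodic ν (fun x i => trig a A x i + N * osc b S N x i) u q ∧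
          CloseAfter ε u v ∧ CloseTwoScale ε N u v W) := by
  have hF' : ∀ x, ∃ w q, AdmissiblePeriodic ν (profile b S x) w q := by
    rcases hF with h | ⟨n, hn, hp⟩
    · exact h
    · exact fun x => fast_planar hν hb hn hp x
  choose W Q hW using hF'
  have hc : 0 < 4 * Real.pi ^ 2 * ν := by positivity
  obtain ⟨z, hz1, hz2, hz3⟩ := family hc hν rfl hb hW
  have hsp := sol_spv hc hz2
  have hD := push_dta hc hb hW hsp hz1 ha
  refine ⟨W, Q, fun x i => (∑' k, (a k i + push W k i) * ch k x).re, hW, fun l i => ?_, fun hS => ?_⟩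
  · exact fc_series hD l i
  have hv : ∃ v p, AdmissiblePeriodic ν (fun x i => (∑' k, (a k i + push W k i) * ch k x).re) v p := by
    rcases hS with h | ⟨n, hn, hpa, hpb⟩
    · exact h
    · refine adm_planar hν hn hD fun k hk => ?_
      have h1 : a k = 0 := by
        by_contra hne; exact hk (hpa k hne)
      have h2 := push_plane hc hb hW hsp hz1 hz2 hpb hk
      funext i
      simp [h1, h2]
  obtain ⟨v, p, hvp⟩ := hv
  exact ⟨v, p, hvp, fun ε hε => two_scale_data hν ha hb hW hvp (fun l i => fc_series hD l i) hε⟩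

end Pool.Agent.U162.PL
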