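import Pool.Agent.U162.PL.Sol

/-!
Elements of the Banach space which solve the equation give admissible solutions
-/

open MeasureTheory Set Filter Topology
open scoped ENNReal NNReal ContDiff

namespace Pool.Agent.U162.PL

open Pool.Agent.H356R3.NS Pool.Agent.U162.TS Pool.Agent.U162.TS.EL

variable {c : ℝ} (hc : 0 < c)

lemma l1_le (k : K) : l1 k ≤ 3 * nk k := by
  unfold l1
  rw [Fin.sum_univ_three]
  have h0 := abs_le_nk k 0
  have h1 := abs_le_nk k 1
  have h2 := abs_le_nk k 2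
  linarith

lemma pw_le {k : K} (hk : k ≠ 0) : pw k ≤ 4 * nk k := by
  have h1 := l1_le k
  have h2 := one_le_nk hk
  unfold pw; linarith

/-- the constants of the data -/
lemma Dta.DD {v : K → C3} (h : Dta v) : ∃ D : ℕ → ℝ, ∀ j k, nk k ^ j * ‖v k‖ ≤ D j := by
  choose D hD using h.dec
  exact ⟨D, hD⟩

lemma z_G (z : EE) (t : ℝ) : ∑' k, ‖z k t‖ ≤ ‖z‖ := by
  rw [nE]
  exact (z_summ z t).tsum_le_tsum (fun k => (z k).norm_coe_le_norm t) (sE z)

/-- rapid decay of the solution -/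
theorem z_dec {z : EE} {v : K → C3} (hv : Dta v) (hz : Phi hc z = hE hc v hv.sum) (j : ℕ) :
    ∃ A : ℝ, 0 ≤ A ∧ ∀ k t, nk k ^ j * ‖z k t‖ ≤ A := by
  obtain ⟨D, hD⟩ := hv.DD
  have h := dec hc hz (z_G z) hD j
  exact ⟨_, (mul_nonneg (pow_nonneg (nk_nonneg 0) j) (norm_nonneg _)).trans (h 0 0), h⟩

/-- rapid decay with summable bounds -/
theorem z_sdec {z : EE} {v : K → C3} (hv : Dta v) (hz : Phi hc z = hE hc v hv.sum) (j : ℕ) :
    ∃ b : K → ℝ, Summable b ∧ (∀ k, 0 ≤ b k) ∧ ∀ k t, pw k ^ j * ‖z k t‖ ≤ b k := by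
  obtain ⟨A, hA0, hA⟩ := z_dec hc hv hz (j + 4)
  refine ⟨fun k => 4 ^ j * A * (if k = 0 then (0 : ℝ) else 1 / nk k ^ 4), summable_nk4.mul_left _,
    fun k => ?_, fun k t => ?_⟩
  · show 0 ≤ 4 ^ j * A * (if k = 0 then (0 : ℝ) else 1 / nk k ^ 4)
    split_ifs <;> positivity
  show pw k ^ j * ‖z k t‖ ≤ 4 ^ j * A * (if k = 0 then (0 : ℝ) else 1 / nk k ^ 4)
  by_cases hk : k = 0
  · subst hk
    rw [z_zero hc hz hv.mean, norm_zero]; simp
  · rw [if_neg hk, mul_one_div]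
    have hkp := nk_pos hk
    rw [le_div_iff₀ (by positivity)]
    have h1 := hA k t
    have h2 : pw k ^ j ≤ 4 ^ j * nk k ^ j := by
      rw [← mul_pow]; exact pow_le_pow_left₀ (pw_pos k).le (pw_le hk) j
    calc pw k ^ j * ‖z k t‖ * nk k ^ 4 ≤ 4 ^ j * nk k ^ j * ‖z k t‖ * nk k ^ 4 := by gcongr
      _ = 4 ^ j * (nk k ^ (j + 4) * ‖z k t‖) := by ring
      _ ≤ 4 ^ j * A := mul_le_mul_of_nonneg_left h1 (by positivity)

include hc in
lemma XX_le (z : EE) (k : K) (t : ℝ) : ‖XX c z k t‖ ≤ ‖z k (max t 0)‖ := by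
  unfold XX
  rw [norm_smul, Real.norm_of_nonneg (Real.exp_pos _).le]
  have h1 : Real.exp (-(c / 2 * max t 0)) ≤ 1 := by
    rw [Real.exp_le_one_iff]
    have := le_max_right t 0
    have : 0 ≤ c / 2 * max t 0 := by positivity
    linarith
  exact mul_le_of_le_one_left (norm_nonneg _) h1

theorem XX_rd {z : EE} {v : K → C3} (hv : Dta v) (hz : Phi hc z = hE hc v hv.sum) (i : Fin 3) :
    RD (cf' (XX c z) i) := by
  intro m
  obtain ⟨b, hb, hb0, hb'⟩ := z_sdec hc hv hz m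
  refine ⟨b, hb, fun k t => ?_⟩
  have h1 : ‖cf' (XX c z) i k t‖ ≤ ‖z k (max t 0)‖ := (norm_le_pi_norm _ i).trans (XX_le hc z k t)
  exact (mul_le_mul_of_nonneg_left h1 (pow_nonneg (pw_pos k).le m)).trans (hb' k _)

lemma XX_sym {z : EE} {v : K → C3} (hv : Dta v) (hz : Phi hc z = hE hc v hv.sum) : SymF (XX c z) := by
  intro t k i
  show XX c z (-k) t i = star (XX c z k t i)
  unfold XX
  rw [Pi.smul_apply, Pi.smul_apply, z_real hc hz hv.real, star_smul, star_trivial (Real.exp _)]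

/-- physical solutions -/
theorem adm_of_sol {ν : ℝ} (hcν : c = 4 * Real.pi ^ 2 * ν) {z : EE} {v : K → C3} (hv : Dta v)
    (hz : Phi hc z = hE hc v hv.sum) :
    ∃ u p, AdmissiblePeriodic ν (fun x i => (∑' k, v k i * ch k x).re) u p := by
  have h := phys_gen (ν := ν) (u := XX c z) (XX_rd hc hv hz) (XX_cf z) (XX_sym hc hv hz)
    (XX_div hc hz hv.mean hv.div) (fun k t ht => by rw [← hcν]; exact XX_ode hc hz hv.mean k t ht) 0
  have e : (fun (x : E3) i => (0 : E3) i + (∑' k, XX c z k 0 i * ex k x).re)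
      = fun x i => (∑' k, v k i * ch k x).re := by
    funext x i
    rw [Pi.zero_apply, zero_add]
    congr 2
    funext k
    rw [XX_init hc hz hv.mean]; rfl
  rw [e] at h
  exact ⟨_, _, h⟩

end Pool.Agent.U162.PL
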