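import Pool.Agent.U162.TS.Ell10

/-!
Planar flows: algebra of the vorticity on the Fourier side
-/

open MeasureTheory Set Filter Topology
open scoped ENNReal NNReal

namespace Pool.Agent.U162.PL

open Pool.Agent.H356R3.NS Pool.Agent.U162.TS

/-- the dot product of two frequencies -/
def dz (k l : K) : ℤ := k 0 * l 0 + k 1 * l 1 + k 2 * l 2

/-- `n · (k × v)` -/
noncomputable def vo (n k : K) (v : C3) : ℂ :=
  (n 0 : ℂ) * ((k 1 : ℂ) * v 2 - (k 2 : ℂ) * v 1) + (n 1 : ℂ) * ((k 2 : ℂ) * v 0 - (k 0 : ℂ) * v 2)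
    + (n 2 : ℂ) * ((k 0 : ℂ) * v 1 - (k 1 : ℂ) * v 0)

/-- `n · (k × l)` -/
def tz (n k l : K) : ℤ :=
  n 0 * (k 1 * l 2 - k 2 * l 1) + n 1 * (k 2 * l 0 - k 0 * l 2) + n 2 * (k 0 * l 1 - k 1 * l 0)

lemma dt_eq (k : K) (v : C3) : dt k v = (k 0 : ℂ) * v 0 + (k 1 : ℂ) * v 1 + (k 2 : ℂ) * v 2 := by
  unfold dt; rw [Fin.sum_univ_three]

lemma sq_eq (k : K) : ((H356R3.NS.sq k : ℝ) : ℂ) = ((dz k k : ℤ) : ℂ) := by
  unfold H356R3.NS.sq dz
  rw [Fin.sum_univ_three]
  push_cast; ring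

lemma sq_dz (k : K) : H356R3.NS.sq k = ((dz k k : ℤ) : ℝ) := by
  unfold H356R3.NS.sq dz
  rw [Fin.sum_univ_three]
  push_cast; ring

lemma dz_comm (k l : K) : dz k l = dz l k := by unfold dz; ring

lemma dz_add (n k l : K) : dz n (k + l) = dz n k + dz n l := by unfold dz; simp; ring
lemma dz_sub (n k l : K) : dz n (k - l) = dz n k - dz n l := by unfold dz; simp; ring
lemma dz_neg (n k : K) : dz n (-k) = -dz n k := by unfold dz; simp; ring
lemma dz_zero (n : K) : dz n 0 = 0 := by unfold dz; simp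

lemma vo_add (n k : K) (v w : C3) : vo n k (v + w) = vo n k v + vo n k w := by
  unfold vo; simp only [Pi.add_apply]; ring

lemma vo_smul (n k : K) (a : ℂ) (v : C3) : vo n k (a • v) = a * vo n k v := by
  unfold vo; simp only [Pi.smul_apply, smul_eq_mul]; ring

lemma vo_rsmul (n k : K) (a : ℝ) (v : C3) : vo n k (a • v) = a * vo n k v := by
  unfold vo; simp only [Pi.smul_apply, Complex.real_smul]; ring

lemma vo_zero (n k : K) : vo n k 0 = 0 := by unfold vo; simp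

lemma vo_add_k (n k l : K) (v : C3) : vo n (k + l) v = vo n k v + vo n l v := by
  unfold vo; simp only [Pi.add_apply]; push_cast; ring

lemma vo_neg_star {n k : K} {v v' : C3} (h : ∀ i, v' i = star (v i)) : vo n (-k) v' = -star (vo n k v) := by
  unfold vo
  have hz : ∀ z : ℤ, (starRingEnd ℂ) (z : ℂ) = (z : ℂ) := fun z => by simp
  simp only [h, Pi.neg_apply, Complex.star_def, map_add, map_sub, map_mul, Int.cast_neg, hz]
  ring

/-- the velocity in terms of the vorticity -/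
lemma A1 {n l m : K} {u : C3} (h1 : dz n l = 0) (h2 : dz n m = 0) (h3 : dt l u = 0) :
    ((dz n n : ℤ) : ℂ) * ((dz l l : ℤ) : ℂ) * dt m u = vo n l u * ((tz n l m : ℤ) : ℂ) := by
  have h1' : (n 0 : ℂ) * l 0 + n 1 * l 1 + n 2 * l 2 = 0 := by
    have := congrArg (Int.cast : ℤ → ℂ) h1
    unfold dz at this; push_cast at this; exact this
  have h2' : (n 0 : ℂ) * m 0 + n 1 * m 1 + n 2 * m 2 = 0 := by
    have := congrArg (Int.cast : ℤ → ℂ) h2
    unfold dz at this; push_cast at this; exact this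
  rw [dt_eq] at h3 ⊢
  unfold vo tz dz
  push_cast
  linear_combination (((n 0 : ℂ) * n 0 + n 1 * n 1 + n 2 * n 2) * ((l 0 : ℂ) * m 0 + l 1 * m 1 + l 2 * m 2)) * h3
    + ((((l 0 : ℂ) * n 0 + l 1 * n 1 + l 2 * n 2) * ((m 0 : ℂ) * u 0 + m 1 * u 1 + m 2 * u 2)
      - ((l 0 : ℂ) * m 0 + l 1 * m 1 + l 2 * m 2) * (u 0 * n 0 + u 1 * n 1 + u 2 * n 2))) * h1'
    - ((((l 0 : ℂ) * n 0 + l 1 * n 1 + l 2 * n 2) * (u 0 * l 0 + u 1 * l 1 + u 2 * l 2)
      - ((l 0 : ℂ) * l 0 + l 1 * l 1 + l 2 * l 2) * (u 0 * n 0 + u 1 * n 1 + u 2 * n 2))) * h2'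

lemma A5 {n m : K} (l : K) {v : C3} (h2 : dz n m = 0) (h3 : dt m v = 0) :
    ((dz m m : ℤ) : ℂ) * vo n l v = ((dz l m : ℤ) : ℂ) * vo n m v := by
  have h2' : (n 0 : ℂ) * m 0 + n 1 * m 1 + n 2 * m 2 = 0 := by
    have := congrArg (Int.cast : ℤ → ℂ) h2
    unfold dz at this; push_cast at this; exact this
  rw [dt_eq] at h3
  unfold vo dz
  push_cast
  linear_combination (v 0 * ((m 1 : ℂ) * l 2 - m 2 * l 1) + v 1 * ((m 2 : ℂ) * l 0 - m 0 * l 2)
      + v 2 * ((m 0 : ℂ) * l 1 - m 1 * l 0)) * h2'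
    - ((n 0 : ℂ) * ((m 1 : ℂ) * l 2 - m 2 * l 1) + n 1 * ((m 2 : ℂ) * l 0 - m 0 * l 2)
      + n 2 * ((m 0 : ℂ) * l 1 - m 1 * l 0)) * h3

lemma tz_swap (n k l : K) : tz n l k = -tz n k l := by unfold tz; ring

lemma dz_self_pos {k : K} (hk : k ≠ 0) : 0 < dz k k := by
  have h := H356R3.NS.sq_pos hk
  rw [sq_dz] at h
  exact_mod_cast h

/-- the stretching term is antisymmetric -/
lemma A4 {n l m : K} {u v : C3} (hn : n ≠ 0) (h1 : dz n l = 0) (h2 : dz n m = 0) (h3 : dt l u = 0) (h4 : dt m v = 0) :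
    dt m u * vo n l v + dt l v * vo n m u = 0 := by
  by_cases hl : l = 0
  · subst hl
    have e1 : vo n 0 v = 0 := by unfold vo; simp
    have e2 : dt (0 : K) v = 0 := by rw [dt_eq]; simp
    rw [e1, e2]; ring
  by_cases hm : m = 0
  · subst hm
    have e1 : vo n 0 u = 0 := by unfold vo; simp
    have e2 : dt (0 : K) u = 0 := by rw [dt_eq]; simp
    rw [e1, e2]; ring
  have hn' : ((dz n n : ℤ) : ℂ) ≠ 0 := by exact_mod_cast (dz_self_pos hn).ne'
  have hl' : ((dz l l : ℤ) : ℂ) ≠ 0 := by exact_mod_cast (dz_self_pos hl).ne'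
  have hm' : ((dz m m : ℤ) : ℂ) ≠ 0 := by exact_mod_cast (dz_self_pos hm).ne'
  have a1 := A1 h1 h2 h3
  have a2 := A1 h2 h1 h4
  have a3 := A5 l h2 h4
  have a4 := A5 m h1 h3
  rw [tz_swap n l m] at a2
  rw [dz_comm m l] at a4
  push_cast at a2
  have key : ((dz n n : ℤ) : ℂ) * ((dz l l : ℤ) : ℂ) * ((dz m m : ℤ) : ℂ) * (dt m u * vo n l v + dt l v * vo n m u) = 0 := by
    linear_combination ((dz m m : ℤ) : ℂ) * vo n l v * a1 + ((dz l l : ℤ) : ℂ) * vo n m u * a2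
      + (vo n l u * ((tz n l m : ℤ) : ℂ)) * a3 - (vo n m v * ((tz n l m : ℤ) : ℂ)) * a4
  rcases mul_eq_zero.1 key with h | h
  · exact absurd h (mul_ne_zero (mul_ne_zero hn' hl') hm')
  · exact h

/-- the bilinear symbol in closed form -/
lemma bt_eq (k : K) (u v : C3) (i : Fin 3) :
    bt k u v i = -(2 * Real.pi * Complex.I) * dt k u * (v i - (k i : ℂ) * dt k v / ((H356R3.NS.sq k : ℝ) : ℂ)) := by
  unfold bt coef
  rw [dt_eq, dt_eq]
  simp only [Fin.sum_univ_three]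
  fin_cases i <;> simp <;> ring

lemma vo_bt (n k : K) (u v : C3) : vo n k (bt k u v) = -(2 * Real.pi * Complex.I) * (dt k u * vo n k v) := by
  unfold vo
  simp only [bt_eq]
  ring

/-- the vorticity form of the nonlinear term: transport plus an antisymmetric term -/
lemma vo_bt' {n l m : K} {u v : C3} (h3 : dt l u = 0) :
    vo n (l + m) (bt (l + m) u v) = -(2 * Real.pi * Complex.I) * (dt (l + m) u * vo n m v + dt m u * vo n l v) := by
  rw [vo_bt, vo_add_k]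
  have : dt (l + m) u = dt m u := by
    have e : dt (l + m) u = dt l u + dt m u := by
      rw [dt_eq, dt_eq, dt_eq]; simp only [Pi.add_apply]; push_cast; ring
    rw [e, h3, zero_add]
  rw [this]; ring

/-- Cauchy-Schwarz for the triple product -/
lemma tz_le (n k l : K) : |((tz n k l : ℤ) : ℝ)| ≤ nk n * nk k * nk l := by
  have h1 : ((tz n k l : ℤ) : ℝ) ^ 2 ≤ (nk n * nk k * nk l) ^ 2 := by
    rw [mul_pow, mul_pow, H356R3.NS.nk_sq, H356R3.NS.nk_sq, H356R3.NS.nk_sq, sq_dz, sq_dz, sq_dz]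
    unfold tz dz
    push_cast
    have key : ∀ a b c x y z p q r : ℝ,
        (a * (y * r - z * q) + b * (z * p - x * r) + c * (x * q - y * p)) ^ 2
          ≤ (a * a + b * b + c * c) * ((y * r - z * q) ^ 2 + (z * p - x * r) ^ 2 + (x * q - y * p) ^ 2) := by
      intro a b c x y z p q r
      nlinarith [sq_nonneg (a * (z * p - x * r) - b * (y * r - z * q)),
        sq_nonneg (a * (x * q - y * p) - c * (y * r - z * q)),
        sq_nonneg (b * (x * q - y * p) - c * (z * p - x * r))]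
    have key2 : ∀ x y z p q r : ℝ, (y * r - z * q) ^ 2 + (z * p - x * r) ^ 2 + (x * q - y * p) ^ 2
        ≤ (x * x + y * y + z * z) * (p * p + q * q + r * r) := by
      intro x y z p q r
      nlinarith [sq_nonneg (x * p + y * q + z * r)]
    refine (key _ _ _ _ _ _ _ _ _).trans ?_
    rw [mul_assoc]
    exact mul_le_mul_of_nonneg_left (key2 _ _ _ _ _ _)
      (add_nonneg (add_nonneg (mul_self_nonneg _) (mul_self_nonneg _)) (mul_self_nonneg _))
  have h3 : 0 ≤ nk n * nk k * nk l := mul_nonneg (mul_nonneg (nk_nonneg n) (nk_nonneg k)) (nk_nonneg l)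
  exact abs_le_of_sq_le_sq h1 h3

/-- the transport coefficient is controlled by the vorticity -/
lemma dt_le {n l k : K} {u : C3} (hn : n ≠ 0) (h1 : dz n l = 0) (h2 : dz n k = 0) (h3 : dt l u = 0) (hl : l ≠ 0) :
    ‖dt k u‖ ≤ nk k * (‖vo n l u‖ / nk l) := by
  have a1 := A1 h1 h2 h3
  have hN := nk_pos hn
  have hL := nk_pos hl
  have e := congrArg norm a1
  rw [norm_mul, norm_mul, norm_mul, Complex.norm_intCast, Complex.norm_intCast, Complex.norm_intCast] at e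
  have hn1 : |((dz n n : ℤ) : ℝ)| = nk n ^ 2 := by
    rw [H356R3.NS.nk_sq, ← sq_dz]; exact abs_of_nonneg (sq_nonneg' n)
  have hl1 : |((dz l l : ℤ) : ℝ)| = nk l ^ 2 := by
    rw [H356R3.NS.nk_sq, ← sq_dz]; exact abs_of_nonneg (sq_nonneg' l)
  rw [hn1, hl1] at e
  have h4 := mul_le_mul_of_nonneg_left (tz_le n l k) (norm_nonneg (vo n l u))
  rw [← e] at h4
  have h5 : nk n * nk l * (nk n * nk l * ‖dt k u‖) ≤ nk n * nk l * (‖vo n l u‖ * nk k) := by
    calc _ = nk n ^ 2 * nk l ^ 2 * ‖dt k u‖ := by ring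
      _ ≤ _ := h4
      _ = _ := by ring
  have h6 := le_of_mul_le_mul_left h5 (by positivity)
  have hn2 : 1 ≤ nk n := one_le_nk hn
  have h7 : nk l * ‖dt k u‖ ≤ nk n * nk l * ‖dt k u‖ := by
    have := mul_nonneg hL.le (norm_nonneg (dt k u))
    nlinarith
  rw [mul_div_assoc', le_div_iff₀ hL]
  linarith

end Pool.Agent.U162.PL
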