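import Pool.Agent.U162.PL.Ex

/-!
A priori bounds from the critical norm
-/

open MeasureTheory Set Filter Topology
open scoped ENNReal NNReal ContDiff

namespace Pool.Agent.U162.PL

open Pool.Agent.H356R3.NS Pool.Agent.U162.TS Pool.Agent.U162.TS.EL

/-- flows with rapid decay -/
structure Gnf (c : ℝ) (X : Fam) : Prop where
  ode : ∀ k t, 0 < t → HasDerivAt (X k) (-(c * H356R3.NS.sq k) • X k t + Bt X k t) t
  cf : CF X
  z : ∀ t, X 0 t = 0
  rd : ∀ i, RD (cf' X i)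

/-- the constant -/
noncomputable def C3c (c : ℝ) : ℝ := (48 * C0) ^ 2 / (4 * c)

/-- the Wiener norm -/
noncomputable def gX (X : Fam) (t : ℝ) : ℝ := ∑' k, ‖X k t‖

lemma gX_nonneg (X : Fam) (t : ℝ) : 0 ≤ gX X t := tsum_nonneg fun _ => norm_nonneg _

section

variable {c : ℝ} {X : Fam} (h : Gnf c X)

include h

lemma Gnf.xbd (j : ℕ) : ∃ b : K → ℝ, Summable b ∧ (∀ k, 0 ≤ b k) ∧ ∀ k t, nk k ^ j * ‖X k t‖ ≤ b k := by
  obtain ⟨b, hb, hb0, hb'⟩ := vec_bd h.rd j
  exact ⟨b, hb, hb0, fun k t => (mul_le_mul_of_nonneg_right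
    (pow_le_pow_left₀ (nk_nonneg k) (nk_le_pw k) j) (norm_nonneg _)).trans (hb' k t)⟩

lemma Gnf.rbd (j : ℕ) : ∃ b : K → ℝ, Summable b ∧ (∀ k, 0 ≤ b k) ∧ ∀ k t, pw k ^ j * ‖RH c X k t‖ ≤ b k :=
  vec_bd (x := RH c X) (fun i => by
    have : cf' (RH c X) i = dU c X i := by
      funext k t; exact RH_apply c X k t i
    rw [this]; exact RH_rd h.rd h.cf i) j

lemma Gnf.dom : Dom X := by
  obtain ⟨b, hb, -, hb'⟩ := h.xbd 0
  exact ⟨b, hb, fun k t => by simpa using hb' k t⟩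

lemma gX_cont : Continuous (gX X) := by
  obtain ⟨b, hb, hb'⟩ := h.dom
  exact continuous_tsum (fun k => (h.cf k).norm) hb fun k t => by
    rw [norm_norm]; exact hb' k t

lemma BtX_le (k : K) (t : ℝ) : ‖Bt X k t‖ ≤ C0 * nk k * ∑' l, ‖X l t‖ * ‖X (k - l) t‖ := by
  have hsn : SN (at' X t) := h.dom.sn t
  have hsn' : Summable fun l => ‖X l t‖ := hsn
  have hconv := (conv_le hsn' hsn' (fun _ => norm_nonneg _) (fun _ => norm_nonneg _) k).1
  unfold Bt
  rw [Bf_eq_tsum hsn hsn, ← tsum_mul_left]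
  have hb : ∀ l, ‖bt k (at' X t l) (at' X t (k - l))‖ ≤ C0 * nk k * (‖X l t‖ * ‖X (k - l) t‖) := fun l =>
    norm_bt_le _ _ _
  have hs2 : Summable fun l => ‖bt k (at' X t l) (at' X t (k - l))‖ :=
    (hconv.mul_left (C0 * nk k)).of_nonneg_of_le (fun _ => norm_nonneg _) hb
  exact (norm_tsum_le_tsum_norm hs2).trans (hs2.tsum_le_tsum hb (hconv.mul_left _))

lemma YYg_cont : Continuous (YY X) := by
  obtain ⟨b, hb, hb0, hb'⟩ := h.xbd 2
  unfold YY
  refine continuous_finsetSum _ fun i _ => energy_cont hb hb0 (fun k t => ?_) fun k => ?_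
  · rw [norm_mul, Complex.norm_real, Real.norm_of_nonneg (sq_nonneg' k), ← H356R3.NS.nk_sq]
    exact (mul_le_mul_of_nonneg_left (norm_le_pi_norm _ i) (by positivity)).trans (hb' k t)
  · exact continuous_const.mul ((continuous_apply i).comp (h.cf k))

lemma YYg_deriv (hc : 0 < c) {t : ℝ} (ht : 0 < t) :
    ∃ Y' : ℝ, HasDerivAt (YY X) Y' t ∧ Y' ≤ -c * YY X t + C3c c * gX X t ^ 2 * YY X t := by
  have hpi := Real.pi_pos
  have hC := C0_pos
  obtain ⟨b, hb, hb0, hb'⟩ := h.xbd 2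
  obtain ⟨d, hd, hd0, hd'⟩ := h.rbd 2
  have hdR : ∀ k t, nk k ^ 2 * ‖RH c X k t‖ ≤ d k := fun k t => (mul_le_mul_of_nonneg_right
    (pow_le_pow_left₀ (nk_nonneg k) (nk_le_pw k) 2) (norm_nonneg _)).trans (hd' k t)
  have hder : ∀ i : Fin 3, HasDerivAt (fun t => ∑' k, ‖((H356R3.NS.sq k : ℝ) : ℂ) * X k t i‖ ^ 2)
      (∑' k, 2 * (star (((H356R3.NS.sq k : ℝ) : ℂ) * X k t i) * (((H356R3.NS.sq k : ℝ) : ℂ) * RH c X k t i)).re) t := by
    intro i
    refine energy_deriv (q := fun k t => ((H356R3.NS.sq k : ℝ) : ℂ) * X k t i)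
      (q' := fun k t => ((H356R3.NS.sq k : ℝ) : ℂ) * RH c X k t i) hb hd hb0 hd0 (fun k t => ?_)
      (fun k t _ => ?_) (fun k t ht => ?_) ht
    · rw [norm_mul, Complex.norm_real, Real.norm_of_nonneg (sq_nonneg' k), ← H356R3.NS.nk_sq]
      exact (mul_le_mul_of_nonneg_left (norm_le_pi_norm _ i) (by positivity)).trans (hb' k t)
    · rw [norm_mul, Complex.norm_real, Real.norm_of_nonneg (sq_nonneg' k), ← H356R3.NS.nk_sq]
      exact (mul_le_mul_of_nonneg_left (norm_le_pi_norm _ i) (by positivity)).trans (hdR k t)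
    · exact (hasDerivAt_pi.1 (h.ode k t ht) i).const_mul _
  refine ⟨_, HasDerivAt.fun_sum fun i _ => hder i, ?_⟩
  -- notation
  set x : K → ℝ := fun k => ‖X k t‖ with hx
  have hx0 : ∀ k, 0 ≤ x k := fun k => norm_nonneg _
  have hxz : x 0 = 0 := by rw [hx]; simp only; rw [h.z t, norm_zero]
  have hxj : ∀ j : ℕ, Summable fun k => nk k ^ j * x k := fun j => by
    obtain ⟨b, hb, hb0, hb'⟩ := h.xbd j
    exact hb.of_nonneg_of_le (fun k => mul_nonneg (pow_nonneg (nk_nonneg k) j) (hx0 k)) fun k => hb' k t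
  have hxs : Summable x := by simpa using hxj 0
  -- the sums
  set A : K → ℝ := fun k => nk k ^ 3 * x k with hA
  set y : K → ℝ := fun k => nk k ^ 2 * x k with hy
  have hA0 : ∀ k, 0 ≤ A k := fun k => mul_nonneg (pow_nonneg (nk_nonneg k) 3) (hx0 k)
  have hy0 : ∀ k, 0 ≤ y k := fun k => mul_nonneg (pow_nonneg (nk_nonneg k) 2) (hx0 k)
  have hAs : Summable A := hxj 3
  have hys : Summable y := hxj 2
  set D2 := ∑' k, A k ^ 2 with hD2
  set Y2 := ∑' k, y k ^ 2 with hY2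
  have hD20 : 0 ≤ D2 := tsum_nonneg fun _ => sq_nonneg _
  have hY20 : 0 ≤ Y2 := tsum_nonneg fun _ => sq_nonneg _
  -- the nonlinear term
  set R : K → ℝ := fun k => nk k ^ 5 * x k * ∑' l, x l * x (k - l) with hR
  have hR0 : ∀ k, 0 ≤ R k := fun k => mul_nonneg (mul_nonneg (pow_nonneg (nk_nonneg k) 5) (hx0 k))
    (conv_le hxs hxs hx0 hx0 k).2.1
  have hRle : ∀ k, R k ≤ 8 * (A k * ∑' l, y l * x (k - l)) := by
    intro k
    have c1 := conv_le hxs hxs hx0 hx0 k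
    have c2 := conv_le hys hxs hy0 hx0 k
    have c3 := conv_le hxs hys hx0 hy0 k
    have e1 : nk k ^ 2 * ∑' l, x l * x (k - l) ≤ 4 * ∑' l, y l * x (k - l) + 4 * ∑' l, x l * y (k - l) := by
      rw [← tsum_mul_left, ← tsum_mul_left, ← tsum_mul_left, ← (c2.1.mul_left 4).tsum_add (c3.1.mul_left 4)]
      refine (c1.1.mul_left _).tsum_le_tsum (fun l => ?_) ((c2.1.mul_left 4).add (c3.1.mul_left 4))
      have h1 := nk_pow_le k l 2
      have h2 : 0 ≤ x l * x (k - l) := mul_nonneg (hx0 l) (hx0 _)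
      calc nk k ^ 2 * (x l * x (k - l)) ≤ (2 ^ 2 * (nk l ^ 2 + nk (k - l) ^ 2)) * (x l * x (k - l)) :=
            mul_le_mul_of_nonneg_right h1 h2
        _ = 4 * ((nk l ^ 2 * x l) * x (k - l)) + 4 * (x l * (nk (k - l) ^ 2 * x (k - l))) := by ring
    rw [conv_comm x y k] at e1
    calc R k = A k * (nk k ^ 2 * ∑' l, x l * x (k - l)) := by simp only [hR, hA]; ring
      _ ≤ A k * (4 * ∑' l, y l * x (k - l) + 4 * ∑' l, y l * x (k - l)) := mul_le_mul_of_nonneg_left e1 (hA0 k)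
      _ = _ := by ring
  have t1 := tri1 hAs hys hxs hA0 hy0 hx0
  have hs1 := (summ_tri hAs hys hxs hA0 hy0 hx0).mul_left 8
  have hRs : Summable R := hs1.of_nonneg_of_le hR0 hRle
  have hRsum : ∑' k, R k ≤ 8 * (Real.sqrt D2 * Real.sqrt Y2 * gX X t) := by
    refine (hRs.tsum_le_tsum hRle hs1).trans ?_
    rw [tsum_mul_left]
    exact mul_le_mul_of_nonneg_left t1 (by norm_num)
  -- each component
  set Qi : Fin 3 → ℝ := fun i => ∑' k, (nk k ^ 3 * ‖X k t i‖) ^ 2 with hQi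
  have hQs : ∀ i, Summable fun k => (nk k ^ 3 * ‖X k t i‖) ^ 2 := fun i =>
    (summ_sq hAs hA0).of_nonneg_of_le (fun k => sq_nonneg _) fun k =>
      pow_le_pow_left₀ (mul_nonneg (pow_nonneg (nk_nonneg k) 3) (norm_nonneg _))
        (mul_le_mul_of_nonneg_left (norm_le_pi_norm _ i) (pow_nonneg (nk_nonneg k) 3)) 2
  have hYs : ∀ i, Summable fun k => ‖((H356R3.NS.sq k : ℝ) : ℂ) * X k t i‖ ^ 2 := fun i =>
    (summ_sq hys hy0).of_nonneg_of_le (fun k => sq_nonneg _) fun k => by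
      refine pow_le_pow_left₀ (norm_nonneg _) ?_ 2
      rw [norm_mul, Complex.norm_real, Real.norm_of_nonneg (sq_nonneg' k), ← H356R3.NS.nk_sq]
      exact mul_le_mul_of_nonneg_left (norm_le_pi_norm _ i) (by positivity)
  have hcomp : ∀ i, ∑' k, 2 * (star (((H356R3.NS.sq k : ℝ) : ℂ) * X k t i) * (((H356R3.NS.sq k : ℝ) : ℂ) * RH c X k t i)).re
      ≤ -(2 * c) * Qi i + 2 * C0 * ∑' k, R k := by
    intro i
    have hterm : ∀ k, 2 * (star (((H356R3.NS.sq k : ℝ) : ℂ) * X k t i) * (((H356R3.NS.sq k : ℝ) : ℂ) * RH c X k t i)).re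
        ≤ -(2 * c) * (nk k ^ 3 * ‖X k t i‖) ^ 2 + 2 * C0 * R k := by
      intro k
      have e1 : star (((H356R3.NS.sq k : ℝ) : ℂ) * X k t i) * (((H356R3.NS.sq k : ℝ) : ℂ) * RH c X k t i)
          = ((-(c * H356R3.NS.sq k ^ 3) : ℝ) : ℂ) * (star (X k t i) * X k t i)
            + ((H356R3.NS.sq k ^ 2 : ℝ) : ℂ) * (star (X k t i) * Bt X k t i) := by
        unfold RH
        simp only [Pi.add_apply, Pi.smul_apply, Complex.real_smul, star_mul', Complex.star_def, Complex.conj_ofReal]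
        push_cast
        ring
      have e2 : (star (X k t i) * X k t i) = ((‖X k t i‖ ^ 2 : ℝ) : ℂ) := by
        rw [Complex.star_def, Complex.conj_mul']; norm_cast
      rw [e1, e2, Complex.add_re, ← Complex.ofReal_mul, Complex.ofReal_re, Complex.re_ofReal_mul]
      have e3 : (star (X k t i) * Bt X k t i).re ≤ x k * ‖Bt X k t‖ := by
        refine (Complex.re_le_norm _).trans ?_
        rw [norm_mul, norm_star]
        exact mul_le_mul (norm_le_pi_norm _ i) (norm_le_pi_norm _ i) (norm_nonneg _) (hx0 k)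
      have e4 : H356R3.NS.sq k ^ 2 * (x k * ‖Bt X k t‖) ≤ C0 * R k := by
        rw [← H356R3.NS.nk_sq]
        calc (nk k ^ 2) ^ 2 * (x k * ‖Bt X k t‖)
            ≤ (nk k ^ 2) ^ 2 * (x k * (C0 * nk k * ∑' l, x l * x (k - l))) := by
              refine mul_le_mul_of_nonneg_left (mul_le_mul_of_nonneg_left (BtX_le h k t) (hx0 k)) (by positivity)
          _ = _ := by simp only [hR]; ring
      have e5 := mul_le_mul_of_nonneg_left e3 (sq_nonneg (H356R3.NS.sq k))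
      have e6 : (nk k ^ 3 * ‖X k t i‖) ^ 2 = H356R3.NS.sq k ^ 3 * ‖X k t i‖ ^ 2 := by
        rw [← H356R3.NS.nk_sq]; ring
      rw [e6]
      nlinarith
    have hsr : Summable fun k => -(2 * c) * (nk k ^ 3 * ‖X k t i‖) ^ 2 + 2 * C0 * R k :=
      ((hQs i).mul_left _).add (hRs.mul_left _)
    have hsl : Summable fun k => 2 * (star (((H356R3.NS.sq k : ℝ) : ℂ) * X k t i) * (((H356R3.NS.sq k : ℝ) : ℂ) * RH c X k t i)).re := by
      have hbd : Summable fun k => 2 * (b k * d k) := (summ_mul hb hd hb0 hd0).mul_left 2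
      refine Summable.of_norm_bounded hbd fun k => ?_
      rw [Real.norm_eq_abs, abs_mul, abs_two]
      refine mul_le_mul_of_nonneg_left ?_ (by norm_num)
      refine (Complex.abs_re_le_norm _).trans ?_
      rw [norm_mul, norm_star, norm_mul, norm_mul, Complex.norm_real, Real.norm_of_nonneg (sq_nonneg' k), ← H356R3.NS.nk_sq]
      exact mul_le_mul ((mul_le_mul_of_nonneg_left (norm_le_pi_norm _ i) (by positivity)).trans (hb' k t))
        ((mul_le_mul_of_nonneg_left (norm_le_pi_norm _ i) (by positivity)).trans (hdR k t))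
        (by positivity) (hb0 k)
    refine (hsl.tsum_le_tsum hterm hsr).trans ?_
    rw [((hQs i).mul_left _).tsum_add (hRs.mul_left _), tsum_mul_left, tsum_mul_left]
  -- comparison of the sums
  have hD2Q : D2 ≤ ∑ i, Qi i := by
    have e : ∑ i, Qi i = ∑' k, ∑ i, (nk k ^ 3 * ‖X k t i‖) ^ 2 :=
      (Summable.tsum_finsetSum fun i _ => hQs i).symm
    rw [e]
    refine (summ_sq hAs hA0).tsum_le_tsum (fun k => ?_) (summable_sum fun i _ => hQs i)
    have := sup_le_sum (X k t)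
    simp only [hA, hx, mul_pow, ← Finset.mul_sum]
    exact mul_le_mul_of_nonneg_left this (by positivity)
  have hY2Y : Y2 ≤ YY X t := by
    have e : YY X t = ∑' k, ∑ i, ‖((H356R3.NS.sq k : ℝ) : ℂ) * X k t i‖ ^ 2 :=
      (Summable.tsum_finsetSum fun i _ => hYs i).symm
    rw [e]
    refine (summ_sq hys hy0).tsum_le_tsum (fun k => ?_) (summable_sum fun i _ => hYs i)
    have := sup_le_sum (X k t)
    have e2 : ∑ i, ‖((H356R3.NS.sq k : ℝ) : ℂ) * X k t i‖ ^ 2 = (nk k ^ 2) ^ 2 * ∑ i, ‖X k t i‖ ^ 2 := by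
      rw [Finset.mul_sum]
      refine Finset.sum_congr rfl fun i _ => ?_
      rw [norm_mul, Complex.norm_real, Real.norm_of_nonneg (sq_nonneg' k), ← H356R3.NS.nk_sq, mul_pow]
    rw [e2]
    simp only [hy, hx, mul_pow]
    exact mul_le_mul_of_nonneg_left this (by positivity)
  have hYQ : YY X t ≤ ∑ i, Qi i := by
    unfold YY
    refine Finset.sum_le_sum fun i _ => (hYs i).tsum_le_tsum (fun k => ?_) (hQs i)
    refine pow_le_pow_left₀ (norm_nonneg _) ?_ 2
    rw [norm_mul, Complex.norm_real, Real.norm_of_nonneg (sq_nonneg' k), ← H356R3.NS.nk_sq]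
    refine mul_le_mul_of_nonneg_right ?_ (norm_nonneg _)
    by_cases hk : k = 0
    · subst hk; rw [nk_zero]; norm_num
    · exact pow_le_pow_right₀ (one_le_nk hk) (by norm_num)
  have hYY0 : 0 ≤ YY X t := hY20.trans hY2Y
  have htot : ∑ i, (-(2 * c) * Qi i + 2 * C0 * ∑' k, R k)
      = -(2 * c) * (∑ i, Qi i) + 6 * C0 * ∑' k, R k := by
    rw [Finset.sum_add_distrib, ← Finset.mul_sum]
    simp
    ring
  refine (Finset.sum_le_sum fun i _ => hcomp i).trans ?_
  rw [htot]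
  set Q := ∑ i, Qi i
  set α := Real.sqrt D2
  set g := gX X t
  set γ := Real.sqrt Y2
  have hα : α ^ 2 = D2 := Real.sq_sqrt hD20
  have hγ : γ ^ 2 = Y2 := Real.sq_sqrt hY20
  have k1 : 6 * C0 * ∑' k, R k ≤ (48 * C0) * (α * (γ * g)) := by
    calc 6 * C0 * ∑' k, R k ≤ 6 * C0 * (8 * (α * γ * g)) :=
          mul_le_mul_of_nonneg_left hRsum (by positivity)
      _ = _ := by ring
  have k2 : (48 * C0) * (α * (γ * g)) ≤ c * α ^ 2 + C3c c * (g ^ 2 * γ ^ 2) := by
    unfold C3c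
    have h4c : 0 < 4 * c := by positivity
    have : (48 * C0) * (α * (γ * g)) * (4 * c) ≤ (c * α ^ 2 + (48 * C0) ^ 2 / (4 * c) * (g ^ 2 * γ ^ 2)) * (4 * c) := by
      have e : (c * α ^ 2 + (48 * C0) ^ 2 / (4 * c) * (g ^ 2 * γ ^ 2)) * (4 * c)
          = (2 * c * α) ^ 2 + ((48 * C0) * (γ * g)) ^ 2 := by
        field_simp
        ring
      rw [e]
      nlinarith [sq_nonneg (2 * c * α - (48 * C0) * (γ * g))]
    exact le_of_mul_le_mul_right this h4c
  rw [hα, hγ] at k2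
  have hC3 : 0 ≤ C3c c := by unfold C3c; positivity
  have k3 : C3c c * (g ^ 2 * Y2) ≤ C3c c * g ^ 2 * YY X t := by
    rw [mul_assoc]
    exact mul_le_mul_of_nonneg_left (mul_le_mul_of_nonneg_left hY2Y (sq_nonneg _)) hC3
  have k4 : c * D2 ≤ c * Q := mul_le_mul_of_nonneg_left hD2Q hc.le
  have k5 : c * YY X t ≤ c * Q := mul_le_mul_of_nonneg_left hYQ hc.le
  linarith

end

end Pool.Agent.U162.PL
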