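import Pool.Agent.U162.PL.Alg

/-!
Decay of the solutions in the Banach space
-/

open MeasureTheory Set Filter Topology
open scoped ENNReal NNReal

namespace Pool.Agent.U162.PL

open Pool.Agent.H356R3.NS Pool.Agent.U162.TS Pool.Agent.U162.TS.EL

lemma N_le_nk (k : K) : (H459R3.NS.N k : ℝ) ≤ nk k := by
  have h : H459R3.NS.N k ≤ ⌊nk k⌋₊ := by
    unfold H459R3.NS.N
    refine Finset.sup_le fun j _ => ?_
    rw [Nat.le_floor_iff (nk_nonneg k)]
    have := abs_le_nk k j
    rw [Nat.cast_natAbs]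
    push_cast
    exact this
  calc (H459R3.NS.N k : ℝ) ≤ ⌊nk k⌋₊ := by exact_mod_cast h
    _ ≤ _ := Nat.floor_le (nk_nonneg k)

lemma summable_nk4 : Summable fun k : K => if k = 0 then (0 : ℝ) else 1 / nk k ^ 4 := by
  refine H459R3.NS.summable_N4.of_nonneg_of_le (fun k => by split_ifs; exacts [le_rfl, by positivity]) fun k => ?_
  by_cases hk : k = 0
  · simp [hk]
  · rw [if_neg hk, if_neg hk]
    have hN : 1 ≤ H459R3.NS.N k := Nat.one_le_iff_ne_zero.2 fun h => hk (H459R3.NS.N_eq_zero.1 h)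
    have hN' : (0 : ℝ) < H459R3.NS.N k := by exact_mod_cast hN
    exact one_div_le_one_div_of_le (by positivity) (pow_le_pow_left₀ hN'.le (N_le_nk k) 4)

/-- the sum of `|k|⁻⁴` -/
noncomputable def s4 : ℝ := ∑' k : K, if k = 0 then (0 : ℝ) else 1 / nk k ^ 4

lemma s4_nonneg : 0 ≤ s4 := tsum_nonneg fun k => by split_ifs; exacts [le_rfl, by positivity]

lemma nk_add (k l : K) : nk (k + l) ≤ nk k + nk l := by
  unfold nk
  have h1 : ∀ k : K, Real.sqrt (H356R3.NS.sq k) = ‖(WithLp.toLp 2 (fun i => (k i : ℝ)) : EuclideanSpace ℝ (Fin 3))‖ := by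
    intro k
    rw [EuclideanSpace.norm_eq]
    congr 1
    unfold H356R3.NS.sq
    refine Finset.sum_congr rfl fun i _ => ?_
    simp
  rw [h1, h1, h1]
  have h2 : (WithLp.toLp 2 (fun i => ((k + l) i : ℝ)) : EuclideanSpace ℝ (Fin 3))
      = WithLp.toLp 2 (fun i => (k i : ℝ)) + WithLp.toLp 2 (fun i => (l i : ℝ)) := by
    ext i; simp
  rw [h2]
  exact norm_add_le _ _

lemma nk_pow_le (k l : K) (j : ℕ) : nk k ^ j ≤ 2 ^ j * (nk l ^ j + nk (k - l) ^ j) := by
  have h1 : nk k ≤ nk l + nk (k - l) := by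
    have := nk_add l (k - l)
    rwa [add_sub_cancel] at this
  have a := nk_nonneg l
  have b := nk_nonneg (k - l)
  have h2 : nk l + nk (k - l) ≤ 2 * max (nk l) (nk (k - l)) := by
    have := le_max_left (nk l) (nk (k - l))
    have := le_max_right (nk l) (nk (k - l))
    linarith
  calc nk k ^ j ≤ (2 * max (nk l) (nk (k - l))) ^ j := pow_le_pow_left₀ (nk_nonneg k) (h1.trans h2) j
    _ = 2 ^ j * max (nk l) (nk (k - l)) ^ j := mul_pow _ _ _
    _ ≤ _ := by
        refine mul_le_mul_of_nonneg_left ?_ (by positivity)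
        rcases max_choice (nk l) (nk (k - l)) with h | h <;> rw [h]
        · have := pow_nonneg b j; linarith
        · have := pow_nonneg a j; linarith

lemma z_summ (x : EE) (t : ℝ) : Summable fun k => ‖x k t‖ :=
  (sE x).of_nonneg_of_le (fun _ => norm_nonneg _) fun k => (x k).norm_coe_le_norm t

variable {c : ℝ} (hc : 0 < c)

/-- the constants of the decay estimate -/
noncomputable def Ad (c G : ℝ) (D : ℕ → ℝ) : ℕ → ℝ
  | 0 => G
  | j + 1 => D (j + 1) + 2 * C0 / c * (2 ^ (j + 1) * (Ad c G D j * G))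

lemma conv_bd {x : K → ℝ} (hx0 : ∀ k, 0 ≤ x k) (hxs : Summable x) {G A : ℝ} (hG : ∑' k, x k ≤ G)
    {j : ℕ} (hA : ∀ k, nk k ^ j * x k ≤ A) (k : K) :
    nk k ^ j * ∑' l, x l * x (k - l) ≤ 2 ^ (j + 1) * (A * G) := by
  have hA0 : 0 ≤ A := (mul_nonneg (pow_nonneg (nk_nonneg 0) j) (hx0 0)).trans (hA 0)
  have hG0 : 0 ≤ G := (tsum_nonneg hx0).trans hG
  have hs2 : Summable fun l => x (k - l) := ((Equiv.subLeft k).summable_iff).2 hxs
  have hsum2 : ∑' l, x (k - l) = ∑' l, x l := (Equiv.subLeft k).tsum_eq x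
  rw [← tsum_mul_left]
  have hb : ∀ l, nk k ^ j * (x l * x (k - l)) ≤ 2 ^ j * (A * x (k - l) + A * x l) := by
    intro l
    have h1 := nk_pow_le k l j
    have h2 := hA l
    have h3 := hA (k - l)
    have a1 := hx0 l
    have a2 := hx0 (k - l)
    calc nk k ^ j * (x l * x (k - l)) ≤ 2 ^ j * (nk l ^ j + nk (k - l) ^ j) * (x l * x (k - l)) :=
          mul_le_mul_of_nonneg_right h1 (by positivity)
      _ = 2 ^ j * ((nk l ^ j * x l) * x (k - l) + (nk (k - l) ^ j * x (k - l)) * x l) := by ring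
      _ ≤ _ := by
          refine mul_le_mul_of_nonneg_left ?_ (by positivity)
          exact add_le_add (mul_le_mul_of_nonneg_right h2 a2) (mul_le_mul_of_nonneg_right h3 a1)
  have hsr : Summable fun l => 2 ^ j * (A * x (k - l) + A * x l) :=
    ((hs2.mul_left A).add (hxs.mul_left A)).mul_left _
  have hsl : Summable fun l => nk k ^ j * (x l * x (k - l)) :=
    hsr.of_nonneg_of_le (fun l => mul_nonneg (pow_nonneg (nk_nonneg k) j) (mul_nonneg (hx0 l) (hx0 _))) hb
  refine (hsl.tsum_le_tsum hb hsr).trans ?_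
  rw [tsum_mul_left, (hs2.mul_left A).tsum_add (hxs.mul_left A), tsum_mul_left, tsum_mul_left, hsum2, pow_succ]
  have : A * ∑' l, x l ≤ A * G := mul_le_mul_of_nonneg_left hG hA0
  nlinarith [pow_pos (two_pos : (0 : ℝ) < 2) j]

/-- decay of the solutions, to any order -/
theorem dec {z : EE} {v : K → C3} {hv : Summable fun k => ‖v k‖} (hz : Phi hc z = hE hc v hv)
    {G : ℝ} (hG : ∀ t, ∑' k, ‖z k t‖ ≤ G) {D : ℕ → ℝ} (hD : ∀ j k, nk k ^ j * ‖v k‖ ≤ D j) :
    ∀ j k t, nk k ^ j * ‖z k t‖ ≤ Ad c G D j := by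
  have hC := C0_pos
  intro j
  induction j with
  | zero =>
    intro k t
    rw [pow_zero, one_mul]
    exact ((z_summ z t).le_tsum k fun _ _ => norm_nonneg _).trans (hG t)
  | succ j ih =>
    intro k t
    have hG0 : 0 ≤ G := (tsum_nonneg fun _ => norm_nonneg _).trans (hG 0)
    have hA0 : 0 ≤ Ad c G D j := (mul_nonneg (pow_nonneg (nk_nonneg 0) j) (norm_nonneg _)).trans (ih 0 0)
    have hD0 : 0 ≤ D (j + 1) := (mul_nonneg (pow_nonneg (nk_nonneg 0) _) (norm_nonneg _)).trans (hD (j + 1) 0)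
    have hR0 : 0 ≤ Ad c G D (j + 1) := by unfold Ad; positivity
    by_cases hk : k = 0
    · subst hk
      rw [nk_zero, zero_pow (Nat.succ_ne_zero j), zero_mul]
      exact hR0
    have hkp := nk_pos hk
    have e : z k t = hT hc k (v k) t + BB hc z z k t := by
      have h1 : (Phi hc z) k t = hT hc k (v k) t := by rw [hz, hE_apply]
      unfold Phi at h1
      rw [lp.coeFn_sub, Pi.sub_apply, BoundedContinuousFunction.sub_apply] at h1
      rw [← h1]; abel
    have h1 : ‖hT hc k (v k) t‖ ≤ ‖v k‖ := by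
      rw [hT_apply, norm_smul, Real.norm_of_nonneg (Real.exp_pos _).le]
      have h1 : Real.exp (-(mk c k * max t 0)) ≤ 1 := by
        rw [Real.exp_le_one_iff]
        have := mul_nonneg (mk_pos hc k).le (le_max_right t 0)
        linarith
      exact mul_le_of_le_one_left (norm_nonneg _) h1
    have h2 : nk k ^ j * ‖BB hc z z k t‖ ≤ C0 * nk k * (2 ^ (j + 1) * (Ad c G D j * G)) / mk c k := by
      rw [BB_eval, tsum_tkf1 hc, ← le_div_iff₀' (by positivity)]
      have h3 := duf_norm (mk_pos hc k) (f := fun s => ∑' l, prf c k (z l) (z (k - l)) s)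
        (C := C0 * nk k * (2 ^ (j + 1) * (Ad c G D j * G)) / nk k ^ j) (le_max_right t 0) fun s _ _ => by
          have hs : Summable fun l => ‖z l s‖ * ‖z (k - l) s‖ :=
            cvS1 (z_summ z s) (z_summ z s) (fun _ => norm_nonneg _) (fun _ => norm_nonneg _) k
          have h4 : ‖∑' l, prf c k (z l) (z (k - l)) s‖ ≤ C0 * nk k * ∑' l, ‖z l s‖ * ‖z (k - l) s‖ := by
            have hs2 : Summable fun l => ‖prf c k (z l) (z (k - l)) s‖ :=
              (hs.mul_left (C0 * nk k)).of_nonneg_of_le (fun _ => norm_nonneg _) fun l => prf_norm hc k _ _ s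
            refine (norm_tsum_le_tsum_norm hs2).trans ?_
            rw [← tsum_mul_left]
            exact hs2.tsum_le_tsum (fun l => prf_norm hc k _ _ s) (hs.mul_left _)
          have h5 := conv_bd (fun _ => norm_nonneg _) (z_summ z s) (hG s) (fun k => ih k s) k
          rw [le_div_iff₀' (by positivity)]
          calc nk k ^ j * ‖∑' l, prf c k (z l) (z (k - l)) s‖
              ≤ nk k ^ j * (C0 * nk k * ∑' l, ‖z l s‖ * ‖z (k - l) s‖) :=
                mul_le_mul_of_nonneg_left h4 (by positivity)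
            _ = C0 * nk k * (nk k ^ j * ∑' l, ‖z l s‖ * ‖z (k - l) s‖) := by ring
            _ ≤ _ := mul_le_mul_of_nonneg_left h5 (by positivity)
      refine h3.trans (le_of_eq ?_)
      rw [div_right_comm]
    have h6 : nk k * (C0 * nk k * (2 ^ (j + 1) * (Ad c G D j * G)) / mk c k)
        ≤ 2 * C0 / c * (2 ^ (j + 1) * (Ad c G D j * G)) := by
      have h7 := nk2_mk hc k
      calc _ = (nk k ^ 2 / mk c k) * (C0 * (2 ^ (j + 1) * (Ad c G D j * G))) := by ring
        _ ≤ (2 / c) * (C0 * (2 ^ (j + 1) * (Ad c G D j * G))) := mul_le_mul_of_nonneg_right h7 (by positivity)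
        _ = _ := by ring
    rw [e]
    calc nk k ^ (j + 1) * ‖hT hc k (v k) t + BB hc z z k t‖
        ≤ nk k ^ (j + 1) * (‖v k‖ + ‖BB hc z z k t‖) :=
          mul_le_mul_of_nonneg_left ((norm_add_le _ _).trans (add_le_add h1 le_rfl)) (by positivity)
      _ = nk k ^ (j + 1) * ‖v k‖ + nk k * (nk k ^ j * ‖BB hc z z k t‖) := by ring
      _ ≤ D (j + 1) + 2 * C0 / c * (2 ^ (j + 1) * (Ad c G D j * G)) :=
          add_le_add (hD _ _) ((mul_le_mul_of_nonneg_left h2 hkp.le).trans h6)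
      _ = _ := rfl

lemma z_zero {z : EE} {v : K → C3} {hv : Summable fun k => ‖v k‖} (hz : Phi hc z = hE hc v hv) (h0 : v 0 = 0)
    (t : ℝ) : z 0 t = 0 := by
  have h1 : (Phi hc z) 0 t = hT hc 0 (v 0) t := by rw [hz, hE_apply]
  unfold Phi at h1
  rw [lp.coeFn_sub, Pi.sub_apply, BoundedContinuousFunction.sub_apply, BB_k0, h0, hT_apply, smul_zero,
    sub_zero] at h1
  exact h1

/-- the norm in the Banach space -/
theorem norm_le_of_G {z : EE} {v : K → C3} {hv : Summable fun k => ‖v k‖} (hz : Phi hc z = hE hc v hv)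
    (h0 : v 0 = 0) {G : ℝ} (hG : ∀ t, ∑' k, ‖z k t‖ ≤ G) {D : ℕ → ℝ} (hD : ∀ j k, nk k ^ j * ‖v k‖ ≤ D j) :
    ‖z‖ ≤ Ad c G D 4 * s4 := by
  have h4 := dec hc hz hG hD 4
  have hA0 : 0 ≤ Ad c G D 4 := (mul_nonneg (pow_nonneg (nk_nonneg 0) 4) (norm_nonneg _)).trans (h4 0 0)
  rw [nE]
  unfold s4
  rw [← tsum_mul_left]
  refine (sE z).tsum_le_tsum (fun k => ?_) (summable_nk4.mul_left _)
  by_cases hk : k = 0
  · subst hk
    rw [if_pos rfl, mul_zero]
    have : z 0 = 0 := by ext1 t; exact z_zero hc hz h0 t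
    rw [this, norm_zero]
  · rw [if_neg hk, mul_one_div]
    have hkp := nk_pos hk
    refine (BoundedContinuousFunction.norm_le (by positivity)).2 fun t => ?_
    rw [le_div_iff₀' (by positivity)]
    exact h4 k t

end Pool.Agent.U162.PL
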