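import Pool.Agent.U162.PL.Ex

/-!
The total Reynolds stress is smooth
-/

open MeasureTheory Set Filter Topology
open scoped ENNReal NNReal ContDiff

namespace Pool.Agent.U162.PL

open Pool.Agent.H356R3.NS Pool.Agent.U162.TS Pool.Agent.U162.TS.EL Pool.Agent.U162.TS.VF Pool.Agent.U162.TS.Ph

lemma qs_cont (x y : EE) (j m : Fin 3) : Continuous fun s => qs s j m x y := by
  have e : (fun s => qs s j m x y) = fun s => ∑' k, x k s j * y (-k) s m := funext fun s => rfl
  rw [e]
  refine continuous_tsum (u := fun k => ‖x k‖ * ‖y‖) (fun k => ?_) ((sE x).mul_right _) fun k s => ?_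
  · exact ((continuous_apply j).comp (x k).continuous).mul ((continuous_apply m).comp (y (-k)).continuous)
  · rw [norm_mul]
    have h1 : ‖x k s j‖ ≤ ‖x k‖ := (norm_le_pi_norm (x k s) j).trans ((x k).norm_coe_le_norm s)
    have h2 : ‖y (-k) s m‖ ≤ ‖y‖ :=
      (norm_le_pi_norm (y (-k) s) m).trans (((y (-k)).norm_coe_le_norm s).trans (leE y _))
    exact mul_le_mul h1 h2 (norm_nonneg _) (norm_nonneg _)

lemma exp_int {c : ℝ} (hc : 0 < c) : IntegrableOn (fun s => Real.exp (-(c * s))) (Ioi 0) := by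
  have := exp_neg_integrableOn_Ioi 0 hc
  simpa only [neg_mul] using this

lemma exp_val {c : ℝ} (hc : 0 < c) : ∫ s in Ioi (0 : ℝ), Real.exp (-(c * s)) = 1 / c := by
  have := integral_exp_mul_Ioi (neg_lt_zero.2 hc) 0
  simp only [neg_mul] at this
  rw [this]; simp

lemma qs_int {c : ℝ} (hc : 0 < c) (x y : EE) (j m : Fin 3) :
    IntegrableOn (fun s => (Real.exp (-(c * s)) : ℂ) * qs s j m x y) (Ioi 0) := by
  have h1 : Continuous fun s : ℝ => (Real.exp (-(c * s)) : ℂ) * qs s j m x y := by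
    have h2 : Continuous fun s : ℝ => (Real.exp (-(c * s)) : ℂ) := by fun_prop
    exact h2.mul (qs_cont x y j m)
  refine Integrable.mono' ((exp_int hc).mul_const (‖x‖ * ‖y‖)) h1.aestronglyMeasurable ?_
  refine Filter.Eventually.of_forall fun s => ?_
  rw [norm_mul, Complex.norm_real, Real.norm_of_nonneg (Real.exp_pos _).le]
  exact mul_le_mul_of_nonneg_left (qs_norm x y s j m) (Real.exp_pos _).le

/-- the quadratic form of the total stress -/
noncomputable def QS {c : ℝ} (hc : 0 < c) (j m : Fin 3) : EE →L[ℂ] EE →L[ℂ] ℂ :=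
  LinearMap.mkContinuous₂
    (LinearMap.mk₂ ℂ (fun x y : EE => ∫ s in Ioi (0 : ℝ), (Real.exp (-(c * s)) : ℂ) * qs s j m x y)
      (fun x x' y => by
        rw [← integral_add (qs_int hc x y j m) (qs_int hc x' y j m)]
        refine integral_congr_ae (Filter.Eventually.of_forall fun s => ?_)
        simp only
        rw [map_add, _root_.add_apply, mul_add])
      (fun a x y => by
        rw [smul_eq_mul, ← integral_const_mul]
        refine integral_congr_ae (Filter.Eventually.of_forall fun s => ?_)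
        simp only
        rw [map_smul, _root_.smul_apply, smul_eq_mul]
        ring)
      (fun x y y' => by
        rw [← integral_add (qs_int hc x y j m) (qs_int hc x y' j m)]
        refine integral_congr_ae (Filter.Eventually.of_forall fun s => ?_)
        simp only
        rw [map_add, mul_add])
      (fun a x y => by
        rw [smul_eq_mul, ← integral_const_mul]
        refine integral_congr_ae (Filter.Eventually.of_forall fun s => ?_)
        simp only
        rw [map_smul, smul_eq_mul]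
        ring))
    (1 / c)
    (fun x y => by
      show ‖∫ s in Ioi (0 : ℝ), (Real.exp (-(c * s)) : ℂ) * qs s j m x y‖ ≤ _
      rw [← exp_val hc, mul_assoc, ← integral_mul_const]
      refine norm_integral_le_of_norm_le ((exp_int hc).mul_const _) (Filter.Eventually.of_forall fun s => ?_)
      rw [norm_mul, Complex.norm_real, Real.norm_of_nonneg (Real.exp_pos _).le]
      exact mul_le_mul_of_nonneg_left (qs_norm x y s j m) (Real.exp_pos _).le)

lemma QS_apply {c : ℝ} (hc : 0 < c) (j m : Fin 3) (x y : EE) :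
    QS hc j m x y = ∫ s in Ioi (0 : ℝ), (Real.exp (-(c * s)) : ℂ) * qs s j m x y := rfl

variable {ν : ℝ} {b : K × K → C3} {S : Finset (K × K)} {W : R3 → ℝ → R3 → R3} {Q : R3 → ℝ → R3 → ℝ}

/-- the stress through the quadratic form -/
theorem stress_QS {c : ℝ} (hc : 0 < c) (hb : Prof b S)
    (hW : ∀ x, AdmissiblePeriodic ν (profile b S x) (W x) (Q x)) {z : R3 → EE}
    (hz1 : ∀ x k t, z x k t = Real.exp (c / 2 * max t 0) • XF (W x) k (max t 0)) (j m : Fin 3) (x : R3) :
    ((stress W j m x : ℝ) : ℂ) = QS hc j m (z x) (z x) := by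
  have hG : Glob ν (W x) (Q x) := glob_of_adm (hW x) (profile_mean hb x)
  have h1 : ∀ s ∈ Ioi (0 : ℝ), ((∫ y in Icc (0 : R3) 1, W x s y j * W x s y m : ℝ) : ℂ)
      = (Real.exp (-(c * s)) : ℂ) * qs s j m (z x) (z x) := by
    intro s hs
    have hs0 : (0 : ℝ) ≤ s := le_of_lt hs
    have e1 := Pool.Agent.Q63.Win.fr_mul (hG.sp hs0 j) (hG.sp hs0 m) 0
    have e2 : H459R3.NS.fr (fun y => W x s y j * W x s y m) 0
        = ((∫ y in Icc (0 : R3) 1, W x s y j * W x s y m : ℝ) : ℂ) := by
      unfold H459R3.NS.fr H459R3.NS.fc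
      rw [neg_zero]
      simp_rw [H459R3.NS.ee_zero, one_mul]
      exact integral_ofReal
    rw [e2] at e1
    rw [← e1.tsum_eq, ← (Equiv.neg K).tsum_eq]
    have e3 : ∀ k : K, H459R3.NS.fr (fun y => W x s y j) (0 - (Equiv.neg K) k) *
        H459R3.NS.fr (fun y => W x s y m) ((Equiv.neg K) k)
        = Real.exp (-(c * s)) * (z x k s j * z x (-k) s m) := by
      intro k
      rw [hz1, hz1, max_eq_left hs0, Equiv.neg_apply, zero_sub, neg_neg]
      unfold XF Pool.Agent.Q63.Win.cof
      simp only [Pi.smul_apply, Complex.real_smul]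
      rw [max_eq_left hs0]
      have e4 : (Real.exp (-(c * s)) : ℂ) * (Real.exp (c / 2 * s) * Real.exp (c / 2 * s)) = 1 := by
        rw [← Complex.ofReal_mul, ← Complex.ofReal_mul, ← Real.exp_add, ← Real.exp_add,
          show -(c * s) + (c / 2 * s + c / 2 * s) = 0 by ring, Real.exp_zero, Complex.ofReal_one]
      linear_combination (-(H459R3.NS.fr (fun y => W x s y j) k * H459R3.NS.fr (fun y => W x s y m) (-k))) * e4
    rw [tsum_congr e3, tsum_mul_left, ← qs_apply]
  unfold stress
  rw [← integral_complex_ofReal, setIntegral_congr_fun measurableSet_Ioi h1]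
  rfl

/-- the stress is smooth and periodic -/
theorem stress_sp {c : ℝ} (hc : 0 < c) (hb : Prof b S)
    (hW : ∀ x, AdmissiblePeriodic ν (profile b S x) (W x) (Q x)) {z : R3 → EE} (hsp : SPv z)
    (hz1 : ∀ x k t, z x k t = Real.exp (c / 2 * max t 0) • XF (W x) k (max t 0)) (j m : Fin 3) :
    H459R3.NS.SP (stress W j m) := by
  have h0 : ContDiff ℂ ∞ (fun z : EE => QS hc j m z) := by
    have h := ContinuousLinearMap.contDiff (𝕜 := ℂ) (E := EE) (F := EE →L[ℂ] ℂ) (n := ∞) (QS hc j m)
    exact h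
  have h1 : ContDiff ℂ ∞ (fun z : EE => (QS hc j m z) z) := h0.clm_apply (contDiff_id (E := EE))
  have h2 : ContDiff ℝ ∞ fun x => QS hc j m (z x) (z x) := (h1.restrict_scalars ℝ).comp hsp.smooth
  have h3 : stress W j m = fun x => (QS hc j m (z x) (z x)).re := by
    funext x
    rw [← stress_QS hc hb hW hz1, Complex.ofReal_re]
  refine ⟨?_, fun i x => ?_⟩
  · rw [h3]
    exact Complex.reCLM.contDiff.comp h2
  · rw [h3]
    simp only [hsp.per i x]

/-- the effective force in terms of the Fourier coefficients of the stress -/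
lemma push_fr (W : R3 → ℝ → R3 → R3) (l : K) (i : Fin 3) :
    push W l i = -(2 * Real.pi * Complex.I) * leray l (fun m => ∑ j, (l j : ℂ) * H459R3.NS.fr (stress W j m) l) i := by
  have e : ∀ j m, H459R3.NS.fr (stress W j m) l = ∫ x in Icc (0 : R3) 1, ch (-l) x * (stress W j m x : ℂ) := by
    intro j m
    unfold H459R3.NS.fr H459R3.NS.fc H459R3.NS.cube
    refine integral_congr_ae (Filter.Eventually.of_forall fun x => ?_)
    simp only
    rw [ee_eq_ch]
  unfold push
  simp only [e]

lemma push_zero (W : R3 → ℝ → R3 → R3) (i : Fin 3) : push W 0 i = 0 := by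
  unfold push leray
  simp

lemma nk_le_N (k : K) : nk k ≤ 3 * (H459R3.NS.N k : ℝ) := by
  refine (nk_le_l1 k).trans ?_
  unfold l1
  rw [Fin.sum_univ_three]
  have h : ∀ i : Fin 3, |((k i : ℤ) : ℝ)| ≤ (H459R3.NS.N k : ℝ) := by
    intro i
    have := H459R3.NS.abs_le_N k i
    rwa [Complex.norm_intCast] at this
  have h0 := h 0
  have h1 := h 1
  have h2 := h 2
  linarith

lemma fr_dec {f : R3 → ℝ} (hf : H459R3.NS.SP f) (j : ℕ) :
    ∃ C : ℝ, 0 ≤ C ∧ ∀ k : K, nk k ^ j * ‖H459R3.NS.fr f k‖ ≤ C := by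
  have h := H459R3.NS.rap_fr hf j
  have h0 : ∀ k : K, 0 ≤ (H459R3.NS.N k : ℝ) ^ j * ‖H459R3.NS.fr f k‖ := fun k => by positivity
  refine ⟨3 ^ j * ∑' k, (H459R3.NS.N k : ℝ) ^ j * ‖H459R3.NS.fr f k‖,
    mul_nonneg (by positivity) (tsum_nonneg h0), fun k => ?_⟩
  calc nk k ^ j * ‖H459R3.NS.fr f k‖ ≤ (3 * (H459R3.NS.N k : ℝ)) ^ j * ‖H459R3.NS.fr f k‖ :=
        mul_le_mul_of_nonneg_right (pow_le_pow_left₀ (nk_nonneg k) (nk_le_N k) j) (norm_nonneg _)
    _ = 3 ^ j * ((H459R3.NS.N k : ℝ) ^ j * ‖H459R3.NS.fr f k‖) := by rw [mul_pow]; ring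
    _ ≤ _ := mul_le_mul_of_nonneg_left (h.le_tsum k fun l _ => h0 l) (by positivity)

lemma leray_norm (κ : K) (v : C3) : ‖pr κ v‖ ≤ 4 * ‖v‖ := by
  rw [pi_norm_le_iff_of_nonneg (by positivity)]
  intro i
  unfold pr
  have a1 : ‖v i‖ ≤ ‖v‖ := norm_le_pi_norm v i
  have a2 : ‖(κ i : ℂ) * dt κ v / ((H356R3.NS.sq κ : ℝ) : ℂ)‖ ≤ 3 * ‖v‖ := by
    by_cases hκ : κ = 0
    · subst hκ; simp
    have hkp := nk_pos hκ
    rw [norm_div, norm_mul, Complex.norm_real, Complex.norm_intCast, Real.norm_of_nonneg (sq_nonneg' κ),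
      ← H356R3.NS.nk_sq, div_le_iff₀ (by positivity)]
    calc |((κ i : ℤ) : ℝ)| * ‖dt κ v‖ ≤ nk κ * (3 * nk κ * ‖v‖) :=
          mul_le_mul (abs_le_nk κ i) (dt_norm κ v) (norm_nonneg _) hkp.le
      _ = _ := by ring
  refine (norm_sub_le _ _).trans ?_
  linarith

/-- a bound for summability -/
lemma summ_of_dec {v : K → C3} (h0 : v 0 = 0) (h : ∀ j : ℕ, ∃ D : ℝ, ∀ k, nk k ^ j * ‖v k‖ ≤ D) :
    Summable fun k => ‖v k‖ := by
  obtain ⟨D, hD⟩ := h 4
  refine (summable_nk4.mul_left D).of_nonneg_of_le (fun _ => norm_nonneg _) fun k => ?_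
  by_cases hk : k = 0
  · subst hk; rw [h0]; simp
  · have hkp := nk_pos hk
    rw [if_neg hk, mul_one_div, le_div_iff₀' (by positivity)]
    exact hD k

lemma dt_star (k : K) (v v' : C3) (h : ∀ i, v' i = star (v i)) : dt (-k) v' = -star (dt k v) := by
  rw [dt_eq, dt_eq]
  have hz : ∀ z : ℤ, (starRingEnd ℂ) (z : ℂ) = (z : ℂ) := fun z => by simp
  simp only [h, Complex.star_def, map_add, map_mul, Pi.neg_apply, Int.cast_neg, hz]
  ring

/-- the push is the Fourier transform of a smooth real divergence free field without mean -/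
theorem push_dta {c : ℝ} (hc : 0 < c) (hb : Prof b S)
    (hW : ∀ x, AdmissiblePeriodic ν (profile b S x) (W x) (Q x)) {z : R3 → EE} (hsp : SPv z)
    (hz1 : ∀ x k t, z x k t = Real.exp (c / 2 * max t 0) • XF (W x) k (max t 0))
    {a : K → C3} {A : Finset K} (ha : Slow a A) : Dta fun k i => a k i + push W k i := by
  have hS := stress_sp hc hb hW hsp hz1
  have hcs : ∀ j m, Continuous (stress W j m) := fun j m => (hS j m).smooth.continuous
  -- the coefficients before the projection
  set y : K → C3 := fun l m => ∑ j, (l j : ℂ) * H459R3.NS.fr (stress W j m) l with hy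
  have hpush : ∀ l, push W l = -(2 * Real.pi * Complex.I) • pr l (y l) := by
    intro l
    funext i
    rw [push_fr, Pi.smul_apply, smul_eq_mul, leray_eq]
  have hmean : (fun i => a 0 i + push W 0 i) = 0 := by
    funext i; rw [ha.mean, push_zero]; simp
  have hdec : ∀ j : ℕ, ∃ D : ℝ, ∀ k, nk k ^ j * ‖(fun i => a k i + push W k i : C3)‖ ≤ D := by
    intro j
    choose C hC0 hC using fun p : Fin 3 × Fin 3 => fr_dec (hS p.1 p.2) (j + 1)
    set CC := ∑ p, C p with hCC
    have hCC0 : 0 ≤ CC := Finset.sum_nonneg fun p _ => hC0 p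
    refine ⟨∑ k ∈ A, nk k ^ j * ‖a k‖ + 2 * Real.pi * (4 * (3 * CC)), fun k => ?_⟩
    have hnk := nk_nonneg k
    have h1 : nk k ^ j * ‖a k‖ ≤ ∑ k ∈ A, nk k ^ j * ‖a k‖ := by
      by_cases hk : k ∈ A
      · exact Finset.single_le_sum (f := fun k => nk k ^ j * ‖a k‖)
          (fun k _ => mul_nonneg (pow_nonneg (nk_nonneg k) j) (norm_nonneg _)) hk
      · rw [ha.supp k hk, norm_zero, mul_zero]
        exact Finset.sum_nonneg fun k _ => mul_nonneg (pow_nonneg (nk_nonneg k) j) (norm_nonneg _)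
    have h2 : nk k ^ j * ‖y k‖ ≤ 3 * CC := by
      by_cases hk : nk k ^ j = 0
      · rw [hk, zero_mul]; positivity
      have hp : 0 < nk k ^ j := lt_of_le_of_ne (pow_nonneg hnk j) (Ne.symm hk)
      rw [← le_div_iff₀' hp, pi_norm_le_iff_of_nonneg (by positivity)]
      intro m
      rw [le_div_iff₀' hp]
      have h3 : ∀ j', ‖(k j' : ℂ) * H459R3.NS.fr (stress W j' m) k‖ ≤ nk k * ‖H459R3.NS.fr (stress W j' m) k‖ := by
        intro j'
        rw [norm_mul, Complex.norm_intCast]
        exact mul_le_mul_of_nonneg_right (abs_le_nk k j') (norm_nonneg _)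
      have h4 : ∀ j', nk k ^ j * (nk k * ‖H459R3.NS.fr (stress W j' m) k‖) ≤ CC := by
        intro j'
        have := hC (j', m) k
        rw [pow_succ, mul_assoc] at this
        exact this.trans (Finset.single_le_sum (f := C) (fun p _ => hC0 p) (Finset.mem_univ (j', m)))
      calc nk k ^ j * ‖y k m‖ ≤ nk k ^ j * ∑ j', nk k * ‖H459R3.NS.fr (stress W j' m) k‖ :=
            mul_le_mul_of_nonneg_left ((norm_sum_le _ _).trans (Finset.sum_le_sum fun j' _ => h3 j')) hp.le
        _ = ∑ j', nk k ^ j * (nk k * ‖H459R3.NS.fr (stress W j' m) k‖) := Finset.mul_sum _ _ _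
        _ ≤ ∑ _j' : Fin 3, CC := Finset.sum_le_sum fun j' _ => h4 j'
        _ = 3 * CC := by simp
    have h5 : ‖push W k‖ ≤ 2 * Real.pi * (4 * ‖y k‖) := by
      rw [hpush, norm_smul]
      have e1 : ‖-(2 * (Real.pi : ℂ) * Complex.I)‖ = 2 * Real.pi := by
        rw [norm_neg, norm_mul, norm_mul, Complex.norm_I, Complex.norm_real]
        simp [abs_of_pos Real.pi_pos]
      rw [e1]
      exact mul_le_mul_of_nonneg_left (leray_norm _ _) (by positivity)
    calc nk k ^ j * ‖(fun i => a k i + push W k i : C3)‖ ≤ nk k ^ j * (‖a k‖ + 2 * Real.pi * (4 * ‖y k‖)) := by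
          refine mul_le_mul_of_nonneg_left ?_ (pow_nonneg hnk j)
          exact (norm_add_le (a k) (push W k)).trans (add_le_add le_rfl h5)
      _ = nk k ^ j * ‖a k‖ + 2 * Real.pi * (4 * (nk k ^ j * ‖y k‖)) := by ring
      _ ≤ _ := by gcongr
  refine ⟨summ_of_dec hmean hdec, hmean, fun k i => ?_, fun k => ?_, hdec⟩
  · have hyr : ∀ m, y (-k) m = -star (y k m) := by
      intro m
      simp only [hy]
      rw [star_sum, ← Finset.sum_neg_distrib]
      refine Finset.sum_congr rfl fun j _ => ?_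
      rw [Pool.Agent.Q63.Win.fr_neg (hcs j m) k, star_mul']
      have hz : star ((k j : ℤ) : ℂ) = ((k j : ℤ) : ℂ) := by simp
      rw [hz, Pi.neg_apply]
      push_cast
      simp only [Complex.star_def]
      ring
    have hpr : pr (-k) (y (-k)) = fun i => -star (pr k (y k) i) := by
      funext i
      unfold pr
      have e1 : dt (-k) (y (-k)) = star (dt k (y k)) := by
        have : y (-k) = -(fun m => star (y k m)) := by funext m; rw [hyr]; rfl
        rw [this]
        have e2 := dt_star k (y k) (fun m => star (y k m)) fun _ => rfl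
        have e3 : dt (-k) (-(fun m => star (y k m)) : C3) = -dt (-k) (fun m => star (y k m)) := by
          rw [dt_eq, dt_eq]; simp only [Pi.neg_apply]; ring
        rw [e3, e2, neg_neg]
      rw [hyr, e1, H356R3.NS.sq_neg]
      have hz : star ((k i : ℤ) : ℂ) = ((k i : ℤ) : ℂ) := by simp
      rw [star_sub, star_div₀, star_mul', hz]
      have hq : star ((H356R3.NS.sq k : ℝ) : ℂ) = ((H356R3.NS.sq k : ℝ) : ℂ) := by simp
      rw [hq, Pi.neg_apply]
      push_cast
      ring
    show a (-k) i + push W (-k) i = star (a k i + push W k i)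
    rw [ha.real, hpush, hpush, hpr, star_add]
    congr 1
    simp only [Pi.smul_apply, smul_eq_mul, star_mul', star_neg]
    have h2 : star (2 : ℂ) = 2 := by simp
    have h3 : star (Real.pi : ℂ) = (Real.pi : ℂ) := by simp
    have h4 : star Complex.I = -Complex.I := by simp
    rw [h2, h3, h4]
    ring
  · show dt k (a k + push W k) = 0
    rw [dt_add', show dt k (a k) = 0 from ha.div k, hpush]
    have : dt k (-(2 * Real.pi * Complex.I) • pr k (y k)) = -(2 * Real.pi * Complex.I) * dt k (pr k (y k)) := by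
      rw [dt_eq, dt_eq]; simp only [Pi.smul_apply, smul_eq_mul]; ring
    rw [this, dt_pr]; simp

end Pool.Agent.U162.PL
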