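import Pool.Agent.U162.PL.Mem

/-!
Energy identities on the Fourier side
-/

open MeasureTheory Set Filter Topology
open scoped ENNReal NNReal ContDiff

namespace Pool.Agent.U162.PL

open Pool.Agent.H356R3.NS Pool.Agent.U162.TS Pool.Agent.U162.TS.EL

lemma summ_mul {ι : Type*} {f g : ι → ℝ} (hf : Summable f) (hg : Summable g) (hf0 : ∀ i, 0 ≤ f i) (hg0 : ∀ i, 0 ≤ g i) :
    Summable fun i => f i * g i :=
  (hf.mul_right (∑' i, g i)).of_nonneg_of_le (fun i => mul_nonneg (hf0 i) (hg0 i)) fun i =>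
    mul_le_mul_of_nonneg_left (hg.le_tsum i fun j _ => hg0 j) (hf0 i)

/-- derivative of a sum of squares -/
lemma energy_deriv {ι : Type*} {q q' : ι → ℝ → ℂ} {β γ : ι → ℝ} (hβs : Summable β) (hγs : Summable γ)
    (hβ0 : ∀ i, 0 ≤ β i) (hγ0 : ∀ i, 0 ≤ γ i)
    (hβ : ∀ i t, ‖q i t‖ ≤ β i) (hγ : ∀ i t, 0 < t → ‖q' i t‖ ≤ γ i)
    (h : ∀ i t, 0 < t → HasDerivAt (q i) (q' i t) t) {t : ℝ} (ht : 0 < t) :
    HasDerivAt (fun t => ∑' i, ‖q i t‖ ^ 2) (∑' i, 2 * (star (q i t) * q' i t).re) t := by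
  have hβ2 : Summable fun i => β i * β i := summ_mul hβs hβs hβ0 hβ0
  have hβγ : Summable fun i => 2 * (β i * γ i) := (summ_mul hβs hγs hβ0 hγ0).mul_left 2
  refine hasDerivAt_tsum_of_isPreconnected (𝕜 := ℝ) (F := ℝ) (g := fun i t => ‖q i t‖ ^ 2)
    (g' := fun i t => 2 * (star (q i t) * q' i t).re) (t := Ioi (0 : ℝ)) (u := fun i => 2 * (β i * γ i)) (y₀ := t)
    hβγ isOpen_Ioi isPreconnected_Ioi (fun i s hs => ?_) (fun i s hs => ?_) ht ?_ ht
  · have h1 := (h i s hs).norm_sq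
    refine h1.congr_deriv ?_
    rw [Complex.inner]
    simp
    ring
  · rw [Real.norm_eq_abs, abs_mul, abs_two]
    refine mul_le_mul_of_nonneg_left ?_ (by norm_num)
    refine (Complex.abs_re_le_norm _).trans ?_
    rw [norm_mul, norm_star]
    exact mul_le_mul (hβ i s) (hγ i s hs) (norm_nonneg _) (hβ0 i)
  · refine hβ2.of_nonneg_of_le (fun i => sq_nonneg _) fun i => ?_
    rw [pow_two]
    exact mul_le_mul (hβ i t) (hβ i t) (norm_nonneg _) (hβ0 i)

lemma energy_cont {ι : Type*} {q : ι → ℝ → ℂ} {β : ι → ℝ} (hβs : Summable β) (hβ0 : ∀ i, 0 ≤ β i)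
    (hβ : ∀ i t, ‖q i t‖ ≤ β i) (hq : ∀ i, Continuous (q i)) : Continuous fun t => ∑' i, ‖q i t‖ ^ 2 := by
  have hβ2 : Summable fun i => β i * β i := summ_mul hβs hβs hβ0 hβ0
  refine continuous_tsum (fun i => ((hq i).norm.pow 2)) hβ2 fun i t => ?_
  rw [Real.norm_of_nonneg (sq_nonneg _), pow_two]
  exact mul_le_mul (hβ i t) (hβ i t) (norm_nonneg _) (hβ0 i)

/-- planar flows -/
structure Plf (c : ℝ) (n : K) (X : Fam) : Prop where
  n0 : n ≠ 0
  ode : ∀ k t, 0 < t → HasDerivAt (X k) (-(c * H356R3.NS.sq k) • X k t + Bt X k t) t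
  cf : CF X
  z : ∀ t, X 0 t = 0
  sym : SymF X
  div : ∀ k t, dt k (X k t) = 0
  pl : ∀ k t, dz n k ≠ 0 → X k t = 0
  rd : ∀ i, RD (cf' X i)

/-- the right hand side -/
noncomputable def RH (c : ℝ) (X : Fam) (k : K) (t : ℝ) : C3 := -(c * H356R3.NS.sq k) • X k t + Bt X k t

lemma RH_apply (c : ℝ) (X : Fam) (k : K) (t : ℝ) (i : Fin 3) : RH c X k t i = dU c X i k t := by
  unfold RH dU Bt Bf cvv cv at'
  simp only [Pi.add_apply, Pi.smul_apply, Complex.real_smul]
  push_cast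
  ring

lemma RH_rd {c : ℝ} {X : Fam} (hr : ∀ i, RD (cf' X i)) (hc : CF X) (i : Fin 3) : RD (dU c X i) := by
  have h0 : ∀ i, TT 0 (cf' X i) := fun i => ⟨hr i, fun k => (continuous_apply i).comp (hc k)⟩
  exact (TT_dU h0 i).rd

lemma vec_bd {x : Fam} (h : ∀ i, RD (cf' x i)) (j : ℕ) :
    ∃ b : K → ℝ, Summable b ∧ (∀ k, 0 ≤ b k) ∧ ∀ k t, pw k ^ j * ‖x k t‖ ≤ b k := by
  choose b hb hb' using fun i => h i j
  refine ⟨fun k => ∑ i, b i k, summable_sum fun i _ => hb i, fun k => Finset.sum_nonneg fun i _ =>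
    (mul_nonneg (pow_nonneg (pw_pos k).le j) (norm_nonneg _)).trans (hb' i k 0), fun k t => ?_⟩
  have hp := pow_pos (pw_pos k) j
  rw [← le_div_iff₀' hp]
  have hb0 : ∀ i, 0 ≤ b i k := fun i => (mul_nonneg hp.le (norm_nonneg _)).trans (hb' i k 0)
  rw [pi_norm_le_iff_of_nonneg (div_nonneg (Finset.sum_nonneg fun i _ => hb0 i) hp.le)]
  intro i
  rw [le_div_iff₀' hp]
  exact (hb' i k t).trans (Finset.single_le_sum (fun i _ => hb0 i) (Finset.mem_univ i))

lemma X_bd {c : ℝ} {n : K} {X : Fam} (h : Plf c n X) (j : ℕ) :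
    ∃ b : K → ℝ, Summable b ∧ (∀ k, 0 ≤ b k) ∧ ∀ k t, pw k ^ j * ‖X k t‖ ≤ b k := vec_bd h.rd j

lemma RH_bd {c : ℝ} {n : K} {X : Fam} (h : Plf c n X) (j : ℕ) :
    ∃ b : K → ℝ, Summable b ∧ (∀ k, 0 ≤ b k) ∧ ∀ k t, pw k ^ j * ‖RH c X k t‖ ≤ b k :=
  vec_bd (x := RH c X) (fun i => by
    have : cf' (RH c X) i = dU c X i := by
      funext k t; exact RH_apply c X k t i
    rw [this]; exact RH_rd h.rd h.cf i) j

lemma Plf.dom {c : ℝ} {n : K} {X : Fam} (h : Plf c n X) : Dom X := by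
  obtain ⟨b, hb, -, hb'⟩ := X_bd h 0
  exact ⟨b, hb, fun k t => by simpa using hb' k t⟩

lemma vo_norm (n k : K) (v : C3) : ‖vo n k v‖ ≤ 6 * nk n * nk k * ‖v‖ := by
  unfold vo
  have hn : ∀ i, ‖((n i : ℤ) : ℂ)‖ ≤ nk n := fun i => by rw [Complex.norm_intCast]; exact abs_le_nk n i
  have hk : ∀ i, ‖((k i : ℤ) : ℂ)‖ ≤ nk k := fun i => by rw [Complex.norm_intCast]; exact abs_le_nk k i
  have hv : ∀ i, ‖v i‖ ≤ ‖v‖ := fun i => norm_le_pi_norm v i
  have n0 := nk_nonneg n
  have k0 := nk_nonneg k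
  have h : ∀ a b d : Fin 3, ‖(n a : ℂ) * ((k b : ℂ) * v d - (k d : ℂ) * v b)‖ ≤ nk n * (nk k * ‖v‖ + nk k * ‖v‖) := by
    intro a b d
    rw [norm_mul]
    refine mul_le_mul (hn a) ((norm_sub_le _ _).trans (add_le_add ?_ ?_)) (norm_nonneg _) n0
    · rw [norm_mul]; exact mul_le_mul (hk b) (hv d) (norm_nonneg _) k0
    · rw [norm_mul]; exact mul_le_mul (hk d) (hv b) (norm_nonneg _) k0
  refine (norm_add_le _ _).trans ((add_le_add ((norm_add_le _ _).trans (add_le_add (h 0 1 2) (h 1 2 0))) (h 2 0 1)).trans ?_)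
  apply le_of_eq; ring

lemma dt_norm (k : K) (v : C3) : ‖dt k v‖ ≤ 3 * nk k * ‖v‖ := by
  rw [dt_eq]
  have hk : ∀ i, ‖((k i : ℤ) : ℂ)‖ ≤ nk k := fun i => by rw [Complex.norm_intCast]; exact abs_le_nk k i
  have k0 := nk_nonneg k
  have h : ∀ i, ‖(k i : ℂ) * v i‖ ≤ nk k * ‖v‖ := fun i => by
    rw [norm_mul]; exact mul_le_mul (hk i) (norm_le_pi_norm v i) (norm_nonneg _) k0
  refine (norm_add_le _ _).trans ((add_le_add ((norm_add_le _ _).trans (add_le_add (h 0) (h 1))) (h 2)).trans ?_)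
  apply le_of_eq; ring

/-- vorticity -/
noncomputable def om' (n : K) (X : Fam) (k : K) (t : ℝ) : ℂ := vo n k (X k t)

section

variable {c : ℝ} {n : K} {X : Fam} (h : Plf c n X)

include h

lemma om_bd (j : ℕ) : ∃ b : K → ℝ, Summable b ∧ (∀ k, 0 ≤ b k) ∧ ∀ k t, pw k ^ j * ‖om' n X k t‖ ≤ b k := by
  obtain ⟨b, hb, hb0, hb'⟩ := X_bd h (j + 1)
  have hn := nk_nonneg n
  refine ⟨fun k => 6 * nk n * b k, hb.mul_left _, fun k => by have := hb0 k; positivity, fun k t => ?_⟩
  have hp := pw_pos k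
  have h1 := vo_norm n k (X k t)
  have h2 := nk_le_pw k
  calc pw k ^ j * ‖om' n X k t‖ ≤ pw k ^ j * (6 * nk n * nk k * ‖X k t‖) :=
        mul_le_mul_of_nonneg_left h1 (pow_nonneg hp.le j)
    _ ≤ pw k ^ j * (6 * nk n * pw k * ‖X k t‖) := by gcongr
    _ = 6 * nk n * (pw k ^ (j + 1) * ‖X k t‖) := by ring
    _ ≤ _ := mul_le_mul_of_nonneg_left (hb' k t) (by positivity)

lemma omR_bd (j : ℕ) : ∃ b : K → ℝ, Summable b ∧ (∀ k, 0 ≤ b k) ∧ ∀ k t, pw k ^ j * ‖vo n k (RH c X k t)‖ ≤ b k := by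
  obtain ⟨b, hb, hb0, hb'⟩ := RH_bd h (j + 1)
  have hn := nk_nonneg n
  refine ⟨fun k => 6 * nk n * b k, hb.mul_left _, fun k => by have := hb0 k; positivity, fun k t => ?_⟩
  have hp := pw_pos k
  have h1 := vo_norm n k (RH c X k t)
  have h2 := nk_le_pw k
  calc pw k ^ j * ‖vo n k (RH c X k t)‖ ≤ pw k ^ j * (6 * nk n * nk k * ‖RH c X k t‖) :=
        mul_le_mul_of_nonneg_left h1 (pow_nonneg hp.le j)
    _ ≤ pw k ^ j * (6 * nk n * pw k * ‖RH c X k t‖) := by gcongr
    _ = 6 * nk n * (pw k ^ (j + 1) * ‖RH c X k t‖) := by ring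
    _ ≤ _ := mul_le_mul_of_nonneg_left (hb' k t) (by positivity)

lemma om_deriv (k : K) {t : ℝ} (ht : 0 < t) : HasDerivAt (om' n X k) (vo n k (RH c X k t)) t := by
  have h1 := hasDerivAt_pi.1 (h.ode k t ht)
  unfold om' vo
  exact ((((h1 2).const_mul _).fun_sub ((h1 1).const_mul _)).const_mul _ |>.fun_add
    ((((h1 0).const_mul _).fun_sub ((h1 2).const_mul _)).const_mul _)).fun_add
    ((((h1 1).const_mul _).fun_sub ((h1 0).const_mul _)).const_mul _)

omit h in
lemma om_cont (hX : CF X) (k : K) : Continuous (om' n X k) := by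
  have h1 : ∀ i, Continuous fun t => X k t i := fun i => (continuous_apply i).comp (hX k)
  unfold om' vo
  have h0 := h1 0
  have h1' := h1 1
  have h2 := h1 2
  fun_prop

/-- the nonlinear term is a transport term -/
lemma vo_Bt (k : K) (t : ℝ) :
    vo n k (Bt X k t) = -(2 * Real.pi * Complex.I) * ∑' l, dt k (X l t) * om' n X (k - l) t := by
  have hsn := h.dom.sn t
  obtain ⟨b1, hb1, hb10, hb1'⟩ := X_bd h 1
  obtain ⟨b2, hb2, hb20, hb2'⟩ := om_bd h 1
  -- the sum of the symbols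
  have hlin : vo n k (Bt X k t) = ∑' l, vo n k (bt k (X l t) (X (k - l) t)) := by
    unfold Bt
    rw [Bf_eq_tsum hsn hsn]
    let L : C3 →L[ℝ] ℂ := LinearMap.toContinuousLinearMap
      { toFun := fun v => vo n k v
        map_add' := fun v w => vo_add n k v w
        map_smul' := fun a v => by rw [vo_rsmul]; rfl }
    have hL : ∀ v, L v = vo n k v := fun v => rfl
    have hs : Summable fun l => bt k (at' X t l) (at' X t (k - l)) := by
      refine Summable.of_norm_bounded (g := fun l => C0 * nk k * (‖X l t‖ * ‖X (k - l) t‖)) ?_ fun l => norm_bt_le _ _ _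
      exact (cvS1 hsn hsn (fun _ => norm_nonneg _) (fun _ => norm_nonneg _) k).mul_left _
    rw [← hL, L.map_tsum hs]
    rfl
  rw [hlin]
  have hpw : ∀ k, 1 ≤ pw k := one_le_pw
  have e1 : ∀ l, vo n k (bt k (X l t) (X (k - l) t))
      = -(2 * Real.pi * Complex.I) * (dt k (X l t) * om' n X (k - l) t)
        + -(2 * Real.pi * Complex.I) * (dt (k - l) (X l t) * vo n l (X (k - l) t)) := by
    intro l
    have := vo_bt' (n := n) (l := l) (m := k - l) (u := X l t) (v := X (k - l) t) (h.div l t)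
    rw [add_sub_cancel] at this
    rw [this]
    unfold om'
    ring
  simp only [e1]
  -- summability
  have c1 : Summable fun l => ‖X l t‖ := hsn
  have c1' : Summable fun l => ‖X (k - l) t‖ := ((Equiv.subLeft k).summable_iff).2 c1
  have c2 : Summable fun l => b1 l := hb1
  have hkey1 : ∀ l m : K, nk l * ‖X m t‖ ≤ nk (l + m) * ‖X m t‖ + b1 m := by
    intro l m
    have h1 : nk l ≤ nk (l + m) + nk m := by
      have := nk_add (l + m) (-m)
      rw [add_neg_cancel_right, H356R3.NS.nk_neg] at this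
      exact this
    have h2 := hb1' m t
    rw [pow_one] at h2
    have h3 := mul_le_mul_of_nonneg_right (nk_le_pw m) (norm_nonneg (X m t))
    have h4 := mul_le_mul_of_nonneg_right h1 (norm_nonneg (X m t))
    nlinarith
  have s1 : Summable fun l => dt k (X l t) * om' n X (k - l) t := by
    refine Summable.of_norm_bounded (g := fun l => 3 * nk k * ‖X l t‖ * ∑' m, b2 m) ((c1.mul_left _).mul_right _) fun l => ?_
    rw [norm_mul]
    refine mul_le_mul (dt_norm _ _) ?_ (norm_nonneg _) (by have := nk_nonneg k; positivity)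
    have h1 := hb2' (k - l) t
    rw [pow_one] at h1
    have h2 : ‖om' n X (k - l) t‖ ≤ b2 (k - l) := by
      have := hpw (k - l)
      have := norm_nonneg (om' n X (k - l) t)
      nlinarith
    exact h2.trans (hb2.le_tsum _ fun m _ => hb20 m)
  have s2 : Summable fun l => dt (k - l) (X l t) * vo n l (X (k - l) t) := by
    -- `|k - l| |X_{k-l}| ≤ b1`, `|l| |X_l| ≤ b1`
    refine Summable.of_norm_bounded (g := fun l => 18 * nk n * (∑' m, b1 m) * b1 l) (hb1.mul_left _) fun l => ?_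
    rw [norm_mul]
    have h1 := dt_norm (k - l) (X l t)
    have h2 := vo_norm n l (X (k - l) t)
    have h3 : nk (k - l) * ‖X (k - l) t‖ ≤ ∑' m, b1 m := by
      have a1 := hb1' (k - l) t
      rw [pow_one] at a1
      exact ((mul_le_mul_of_nonneg_right (nk_le_pw _) (norm_nonneg _)).trans a1).trans
        (hb1.le_tsum _ fun m _ => hb10 m)
    have h4 : nk l * ‖X l t‖ ≤ b1 l := by
      have a1 := hb1' l t
      rw [pow_one] at a1
      exact (mul_le_mul_of_nonneg_right (nk_le_pw _) (norm_nonneg _)).trans a1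
    have g1 := nk_nonneg (k - l)
    have g2 := nk_nonneg l
    have g3 := nk_nonneg n
    calc ‖dt (k - l) (X l t)‖ * ‖vo n l (X (k - l) t)‖
        ≤ (3 * nk (k - l) * ‖X l t‖) * (6 * nk n * nk l * ‖X (k - l) t‖) :=
          mul_le_mul h1 h2 (norm_nonneg _) (by positivity)
      _ = 18 * nk n * (nk (k - l) * ‖X (k - l) t‖) * (nk l * ‖X l t‖) := by ring
      _ ≤ _ := by
          refine mul_le_mul (mul_le_mul_of_nonneg_left h3 (by positivity)) h4 (by positivity) ?_
          exact mul_nonneg (by positivity) (tsum_nonneg hb10)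
  -- the second sum vanishes
  have hz : ∑' l, dt (k - l) (X l t) * vo n l (X (k - l) t) = 0 := by
    have h1 : ∑' l, dt (k - l) (X l t) * vo n l (X (k - l) t)
        = ∑' l, -(dt (k - l) (X l t) * vo n l (X (k - l) t)) := by
      conv_lhs => rw [← (Equiv.subLeft k).tsum_eq]
      refine tsum_congr fun l => ?_
      simp only [Equiv.subLeft_apply, sub_sub_cancel]
      by_cases hl : dz n l = 0
      · by_cases hm : dz n (k - l) = 0
        · have := A4 h.n0 hl hm (h.div l t) (h.div (k - l) t)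
          linear_combination this
        · rw [h.pl (k - l) t hm, vo_zero]; simp [dt]
      · rw [h.pl l t hl, vo_zero]; simp [dt]
    rw [tsum_neg] at h1
    linear_combination (1 / 2 : ℂ) * h1
  rw [(s1.mul_left _).tsum_add (s2.mul_left _), tsum_mul_left, tsum_mul_left, hz, mul_zero, add_zero]

/-- the transport term does not contribute to the enstrophy -/
lemma transport_zero (t : ℝ) :
    Summable (fun P : K × K => star (om' n X P.1 t) * (dt P.1 (X P.2 t) * om' n X (P.1 - P.2) t)) ∧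
    ∑' P : K × K, star (om' n X P.1 t) * (dt P.1 (X P.2 t) * om' n X (P.1 - P.2) t) = 0 := by
  obtain ⟨b1, hb1, hb10, hb1'⟩ := X_bd h 0
  obtain ⟨b2, hb2, hb20, hb2'⟩ := om_bd h 1
  have hom : ∀ k, ‖om' n X k t‖ ≤ ∑' m, b2 m := fun k => by
    have h1 := hb2' k t
    rw [pow_one] at h1
    have := one_le_pw k
    have := norm_nonneg (om' n X k t)
    have h2 : ‖om' n X k t‖ ≤ b2 k := by nlinarith
    exact h2.trans (hb2.le_tsum _ fun m _ => hb20 m)
  have hB : 0 ≤ ∑' m, b2 m := tsum_nonneg hb20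
  have hs : Summable (fun P : K × K => star (om' n X P.1 t) * (dt P.1 (X P.2 t) * om' n X (P.1 - P.2) t)) := by
    have h0 : Summable fun P : K × K => b2 P.1 * b1 P.2 := hb2.mul_of_nonneg hb1 hb20 hb10
    refine Summable.of_norm_bounded (h0.mul_left (3 * ∑' m, b2 m)) fun P => ?_
    rw [norm_mul, norm_mul, norm_star]
    have h1 := dt_norm P.1 (X P.2 t)
    have h2 := hb2' P.1 t
    rw [pow_one] at h2
    have h3 := hb1' P.2 t
    rw [pow_zero, one_mul] at h3
    have h4 := mul_le_mul_of_nonneg_right (nk_le_pw P.1) (norm_nonneg (om' n X P.1 t))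
    calc ‖om' n X P.1 t‖ * (‖dt P.1 (X P.2 t)‖ * ‖om' n X (P.1 - P.2) t‖)
        ≤ ‖om' n X P.1 t‖ * ((3 * nk P.1 * ‖X P.2 t‖) * ∑' m, b2 m) := by
          refine mul_le_mul_of_nonneg_left ?_ (norm_nonneg _)
          exact mul_le_mul h1 (hom _) (norm_nonneg _) (by have := nk_nonneg P.1; positivity)
      _ = (3 * ∑' m, b2 m) * ((nk P.1 * ‖om' n X P.1 t‖) * ‖X P.2 t‖) := by ring
      _ ≤ _ := by
          refine mul_le_mul_of_nonneg_left ?_ (by positivity)
          exact mul_le_mul (h4.trans h2) h3 (norm_nonneg _) (hb20 _)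
  refine ⟨hs, ?_⟩
  let σ : K × K ≃ K × K :=
    { toFun := fun P => (P.2 - P.1, P.2)
      invFun := fun P => (P.2 - P.1, P.2)
      left_inv := fun P => by ext <;> simp
      right_inv := fun P => by ext <;> simp }
  have h1 : ∑' P : K × K, star (om' n X P.1 t) * (dt P.1 (X P.2 t) * om' n X (P.1 - P.2) t)
      = ∑' P : K × K, -(star (om' n X P.1 t) * (dt P.1 (X P.2 t) * om' n X (P.1 - P.2) t)) := by
    conv_lhs => rw [← σ.tsum_eq]
    refine tsum_congr fun P => ?_
    obtain ⟨k, l⟩ := P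
    show star (om' n X (l - k) t) * (dt (l - k) (X l t) * om' n X (l - k - l) t)
      = -(star (om' n X k t) * (dt k (X l t) * om' n X (k - l) t))
    have e1 : om' n X (l - k - l) t = -star (om' n X k t) := by
      have : l - k - l = -k := by abel
      rw [this]
      exact vo_neg_star fun i => h.sym t k i
    have e2 : om' n X (l - k) t = -star (om' n X (k - l) t) := by
      have : l - k = -(k - l) := by abel
      rw [this]
      exact vo_neg_star fun i => h.sym t (k - l) i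
    have e3 : dt (l - k) (X l t) = -dt k (X l t) := by
      have := h.div l t
      rw [dt_eq] at this ⊢
      rw [dt_eq]
      simp only [Pi.sub_apply]
      push_cast
      linear_combination this
    rw [e1, e2, e3, star_neg, star_star]
    ring
  rw [tsum_neg] at h1
  linear_combination (1 / 2 : ℂ) * h1

end

end Pool.Agent.U162.PL
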