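import Pool.Agent.U162.PL.Gr3

/-!
Existence of global planar flows by the continuity method
-/

open MeasureTheory Set Filter Topology
open scoped ENNReal NNReal ContDiff

namespace Pool.Agent.U162.PL

open Pool.Agent.H356R3.NS Pool.Agent.U162.TS Pool.Agent.U162.TS.EL

variable {c : ℝ} (hc : 0 < c)

/-- solvability is an open condition -/
theorem near_sol (z : EE) : ∀ᶠ U in 𝓝 (Phi hc z), ∃ z' : EE, Phi hc z' = U := by
  have hf : ContDiffAt ℂ ∞ (Phi hc) z := (Phi_contDiff hc).contDiffAt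
  have hn : (∞ : ℕ∞ω) ≠ 0 := by simp
  have hf' : HasFDerivAt (Phi hc) ((inv' hc z : EE ≃L[ℂ] EE) : EE →L[ℂ] EE) z := by
    rw [inv'_coe]; exact Phi_deriv hc z
  have h2 := (hf.hasStrictFDerivAt' hf' hn).eventually_right_inverse
  filter_upwards [h2] with U hU
  exact ⟨_, hU⟩

lemma LL_contr' {M : ℝ} (hM : 0 ≤ M) : ∃ μ : ℝ, 0 < μ ∧ ∀ x y : EE, ‖x‖ ≤ M → ‖y‖ ≤ M →
    ∀ h, nT hc μ (LL hc x y h) ≤ 1 / 2 * nT hc μ h := by
  have hC := C0_pos
  set D := C0 * (2 / c + 1) * (M + M) with hD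
  have hD0 : 0 ≤ D := by positivity
  refine ⟨D + 1, by positivity, fun x y hx hy h => ?_⟩
  have hμ : 0 < D + 1 := by positivity
  rw [LL_apply]
  refine (nT_add hc _ _ _).trans ?_
  have h1 := nT_BB_r hc hμ x h
  have h2 := nT_BB_l hc hμ h y
  have h3 := nT_nonneg hc (D + 1) h
  have hdl := dl_pos hc hμ
  have h4 : dl c (D + 1) * (‖x‖ + ‖y‖) ≤ 1 / 2 := by
    have e : dl c (D + 1) * (M + M) = D / (4 * (D + 1)) := by
      unfold dl; rw [hD]; ring
    have h5 : dl c (D + 1) * (‖x‖ + ‖y‖) ≤ dl c (D + 1) * (M + M) :=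
      mul_le_mul_of_nonneg_left (add_le_add hx hy) hdl.le
    refine h5.trans ?_
    rw [e, div_le_div_iff₀ (by positivity) (by norm_num)]
    linarith
  calc _ ≤ dl c (D + 1) * (‖x‖ * nT hc (D + 1) h) + dl c (D + 1) * (nT hc (D + 1) h * ‖y‖) := add_le_add h1 h2
    _ = dl c (D + 1) * (‖x‖ + ‖y‖) * nT hc (D + 1) h := by ring
    _ ≤ _ := mul_le_mul_of_nonneg_right h4 h3

/-- stability on bounded sets -/
lemma Phi_lip {M : ℝ} (hM : 0 ≤ M) : ∃ L : ℝ, 0 ≤ L ∧ ∀ z z' : EE, ‖z‖ ≤ M → ‖z'‖ ≤ M →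
    ‖z - z'‖ ≤ L * ‖Phi hc z - Phi hc z'‖ := by
  obtain ⟨μ, hμ, hL⟩ := LL_contr' hc hM
  refine ⟨2 * Real.exp (μ ^ 2 * (2 / c)), by positivity, fun z z' hz hz' => ?_⟩
  have h1 : z - z' = (Phi hc z - Phi hc z') + LL hc z z' (z - z') := by
    rw [LL_apply, map_sub (BB hc z), map_sub (BB hc), sub_apply]
    unfold Phi
    abel
  have h2 : nT hc μ (z - z') ≤ ‖Phi hc z - Phi hc z'‖ + 1 / 2 * nT hc μ (z - z') := by
    calc nT hc μ (z - z') = nT hc μ ((Phi hc z - Phi hc z') + LL hc z z' (z - z')) := by rw [← h1]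
      _ ≤ _ := (nT_add hc _ _ _).trans (add_le_add (nT_le hc μ _) (hL z z' hz hz' _))
  have h3 := nT_ge hc μ (z - z')
  have h4 : Real.exp (-(μ ^ 2 * (2 / c))) * ‖z - z'‖ ≤ 2 * ‖Phi hc z - Phi hc z'‖ := by linarith
  have h5 := mul_le_mul_of_nonneg_left h4 (Real.exp_pos (μ ^ 2 * (2 / c))).le
  rw [← mul_assoc, ← Real.exp_add, add_neg_cancel, Real.exp_zero, one_mul] at h5
  linarith

/-- the continuity method -/
theorem continuity {U : EE} {M : ℝ} (hM : 0 ≤ M)
    (hb : ∀ r : ℝ, 0 ≤ r → r ≤ 1 → ∀ z : EE, Phi hc z = r • U → ‖z‖ ≤ M) : ∃ z : EE, Phi hc z = U := by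
  set S : Set ℝ := {r | ∃ z : EE, Phi hc z = r • U} with hS
  obtain ⟨L, hL0, hL⟩ := Phi_lip hc hM
  have hcont : Continuous (Phi hc) := (Phi_contDiff hc).continuous
  have h0 : (0 : ℝ) ∈ S := ⟨0, by unfold Phi; simp⟩
  have hclosed : IsClosed (S ∩ Icc 0 1) := by
    apply IsSeqClosed.isClosed
    intro r r₀ hr hlim
    have hr₀ : r₀ ∈ Icc (0 : ℝ) 1 := isClosed_Icc.mem_of_tendsto hlim (Eventually.of_forall fun n => (hr n).2)
    choose z hz using fun n => (hr n).1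
    have hzM : ∀ n, ‖z n‖ ≤ M := fun n => hb _ (hr n).2.1 (hr n).2.2 _ (hz n)
    have hcau : CauchySeq z := by
      have hrc := hlim.cauchySeq
      rw [Metric.cauchySeq_iff] at hrc ⊢
      intro ε hε
      obtain ⟨N, hN⟩ := hrc (ε / (L * ‖U‖ + 1)) (by positivity)
      refine ⟨N, fun m hm n hn => ?_⟩
      have h1 := hN m hm n hn
      rw [Real.dist_eq] at h1
      rw [dist_eq_norm]
      have h2 := hL (z m) (z n) (hzM m) (hzM n)
      rw [hz, hz, ← sub_smul, norm_smul, Real.norm_eq_abs] at h2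
      rw [lt_div_iff₀ (by positivity)] at h1
      have h3 := abs_nonneg (r m - r n)
      calc ‖z m - z n‖ ≤ L * (|r m - r n| * ‖U‖) := h2
        _ = |r m - r n| * (L * ‖U‖) := by ring
        _ ≤ |r m - r n| * (L * ‖U‖ + 1) := by nlinarith
        _ < ε := h1
    obtain ⟨z₀, hz₀⟩ := cauchySeq_tendsto_of_complete hcau
    refine ⟨⟨z₀, ?_⟩, hr₀⟩
    have h1 : Tendsto (fun n => Phi hc (z n)) atTop (𝓝 (Phi hc z₀)) := (hcont.tendsto z₀).comp hz₀
    have h2 : Tendsto (fun n => Phi hc (z n)) atTop (𝓝 (r₀ • U)) := by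
      simp only [hz]
      exact hlim.smul_const U
    exact tendsto_nhds_unique h1 h2
  have hopen : ∀ x ∈ S ∩ Ico 0 1, ∀ y ∈ Ioi x, (S ∩ Ioc x y).Nonempty := by
    rintro x ⟨⟨z, hz⟩, -⟩ y hy
    have h1 := near_sol hc z
    rw [hz] at h1
    have h2 : Tendsto (fun r : ℝ => r • U) (𝓝 x) (𝓝 (x • U)) := (continuous_id.smul continuous_const).tendsto x
    have h3 : ∀ᶠ r in 𝓝[>] x, r ∈ S := (h2.eventually h1).filter_mono nhdsWithin_le_nhds
    have h4 : ∀ᶠ r in 𝓝[>] x, r ∈ Ioc x y := Ioc_mem_nhdsGT hy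
    obtain ⟨r, hr⟩ := (h3.and h4).exists
    exact ⟨r, hr⟩
  have h1 := hclosed.Icc_subset_of_forall_exists_gt h0 hopen
  obtain ⟨z, hz⟩ := h1 (right_mem_Icc.2 zero_le_one)
  exact ⟨z, by rw [hz, one_smul]⟩

lemma Dta.smul {v : K → C3} (hv : Dta v) (r : ℝ) : Dta (fun k => r • v k) where
  sum := by
    simp only [norm_smul]
    exact hv.sum.mul_left _
  mean := by rw [hv.mean, smul_zero]
  real := fun k i => by
    simp only [Pi.smul_apply]
    rw [hv.real, star_smul, star_trivial r]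
  div := fun k => by rw [dt_smul', hv.div, mul_zero]
  dec := fun j => by
    obtain ⟨D, hD⟩ := hv.dec j
    refine ⟨‖r‖ * D, fun k => ?_⟩
    rw [norm_smul, mul_left_comm]
    exact mul_le_mul_of_nonneg_left (hD k) (norm_nonneg _)

lemma hE_smul {v : K → C3} (hv : Summable fun k => ‖v k‖) (r : ℝ) (hv' : Summable fun k => ‖r • v k‖) :
    hE hc (fun k => r • v k) hv' = r • hE hc v hv := by
  apply lp.ext
  funext k
  ext1 t
  rw [hE_apply]
  show hT hc k (r • v k) t = r • (hE hc v hv k t)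
  rw [hE_apply, hT_apply, hT_apply, smul_comm]

/-- global existence for planar data -/
theorem exist_planar {n : K} (hn : n ≠ 0) {v : K → C3} (hv : Dta v) (hp : Pld n v) :
    ∃ z : EE, Phi hc z = hE hc v hv.sum := by
  obtain ⟨D, hD⟩ := hv.DD
  have hD0 : ∀ j, 0 ≤ D j := fun j => (mul_nonneg (pow_nonneg (nk_nonneg 0) j) (norm_nonneg _)).trans (hD j 0)
  have hC := C0_pos
  have hG0 : 0 ≤ Gv c n v := by unfold Gv; positivity
  have hA : ∀ j, 0 ≤ Ad c (Gv c n v) D j := by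
    intro j
    induction j with
    | zero => exact hG0
    | succ j ih =>
      have := hD0 (j + 1)
      unfold Ad; positivity
  refine continuity hc (mul_nonneg (hA 4) s4_nonneg) fun r hr0 hr1 z hz => ?_
  have hvr := hv.smul r
  have hpr : Pld n fun k => r • v k := fun k hk => by simp only; rw [hp k hk, smul_zero]
  have hz' : Phi hc z = hE hc (fun k => r • v k) hvr.sum := by rw [hz, hE_smul hc hv.sum]
  have hDr : ∀ j k, nk k ^ j * ‖r • v k‖ ≤ D j := by
    intro j k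
    rw [norm_smul, Real.norm_of_nonneg hr0, mul_left_comm]
    have := hD j k
    have h0 : 0 ≤ nk k ^ j * ‖v k‖ := mul_nonneg (pow_nonneg (nk_nonneg k) j) (norm_nonneg _)
    nlinarith
  refine norm_le_of_G hc hz' hvr.mean (fun t => (z_G_planar hc hn hvr hpr hz' t).trans ?_) hDr
  -- monotonicity of the bound
  have hr2 : r ^ 2 ≤ 1 := pow_le_one₀ hr0 hr1
  have e1 : yv (fun k => r • v k) = r ^ 2 * yv v := by
    unfold yv
    rw [Finset.mul_sum]
    refine Finset.sum_congr rfl fun i _ => ?_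
    rw [← tsum_mul_left]
    refine tsum_congr fun k => ?_
    simp only
    rw [Pi.smul_apply, Complex.real_smul, mul_left_comm, norm_mul, mul_pow, Complex.norm_real,
      Real.norm_of_nonneg hr0]
  have e2 : ev' n (fun k => r • v k) = r ^ 2 * ev' n v := by
    unfold ev'
    rw [← tsum_mul_left]
    refine tsum_congr fun k => ?_
    rw [vo_rsmul, norm_mul, mul_pow, Complex.norm_real, Real.norm_of_nonneg hr0]
  have y0 : 0 ≤ yv v := Finset.sum_nonneg fun _ _ => tsum_nonneg fun _ => sq_nonneg _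
  have v0 : 0 ≤ ev' n v := tsum_nonneg fun _ => sq_nonneg _
  unfold Gv
  refine mul_le_mul_of_nonneg_left (Real.sqrt_le_sqrt ?_) (Real.sqrt_nonneg _)
  rw [e1, e2]
  refine mul_le_mul ?_ (Real.exp_le_exp.2 ?_) (Real.exp_pos _).le y0
  · nlinarith
  · refine mul_le_mul_of_nonneg_left ?_ (div_nonneg (C2_nonneg hc) (by positivity))
    nlinarith

/-- planar data start admissible solutions -/
theorem adm_planar {ν : ℝ} (hν : 0 < ν) {n : K} (hn : n ≠ 0) {v : K → C3} (hv : Dta v) (hp : Pld n v) :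
    ∃ u p, AdmissiblePeriodic ν (fun x i => (∑' k, v k i * ch k x).re) u p := by
  have hc : 0 < 4 * Real.pi ^ 2 * ν := by positivity
  obtain ⟨z, hz⟩ := exist_planar hc hn hv hp
  exact adm_of_sol hc rfl hv hz

end Pool.Agent.U162.PL
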