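import Pool.Agent.U162.PL.En

/-!
A priori bounds for planar flows
-/

open MeasureTheory Set Filter Topology
open scoped ENNReal NNReal ContDiff

namespace Pool.Agent.U162.PL

open Pool.Agent.H356R3.NS Pool.Agent.U162.TS Pool.Agent.U162.TS.EL

/-! ### sums -/

lemma summ_sq {ι : Type*} {f : ι → ℝ} (hf : Summable f) (hf0 : ∀ i, 0 ≤ f i) : Summable fun i => f i ^ 2 :=
  (summ_mul hf hf hf0 hf0).congr fun i => (pow_two (f i)).symm

/-- Cauchy-Schwarz -/
lemma cs {ι : Type*} {f g : ι → ℝ} (hf0 : ∀ i, 0 ≤ f i) (hg0 : ∀ i, 0 ≤ g i) (hf : Summable fun i => f i ^ 2)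
    (hg : Summable fun i => g i ^ 2) : (Summable fun i => f i * g i) ∧
    ∑' i, f i * g i ≤ Real.sqrt (∑' i, f i ^ 2) * Real.sqrt (∑' i, g i ^ 2) := by
  have h := Real.summable_and_inner_le_Lp_mul_Lq_tsum_of_nonneg (p := 2) (q := 2)
    (Real.HolderConjugate.two_two) hf0 hg0 (by simpa using hf) (by simpa using hg)
  refine ⟨h.1, ?_⟩
  have h2 := h.2
  simp only [Real.rpow_ofNat] at h2
  rw [Real.sqrt_eq_rpow, Real.sqrt_eq_rpow]
  exact h2

lemma conv_comm (a y : K → ℝ) (k : K) : ∑' l, a l * y (k - l) = ∑' l, y l * a (k - l) := by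
  rw [← (Equiv.subLeft k).tsum_eq]
  refine tsum_congr fun l => ?_
  simp only [Equiv.subLeft_apply, sub_sub_cancel]
  ring

lemma summ_bd {p : K → ℝ} (hp : Summable p) (hp0 : ∀ k, 0 ≤ p k) (k : K) : p k ≤ ∑' l, p l :=
  hp.le_tsum k fun l _ => hp0 l

lemma conv_le {p x : K → ℝ} (hp : Summable p) (hx : Summable x) (hp0 : ∀ k, 0 ≤ p k) (hx0 : ∀ k, 0 ≤ x k) (k : K) :
    (Summable fun l => p l * x (k - l)) ∧ 0 ≤ ∑' l, p l * x (k - l) ∧ ∑' l, p l * x (k - l) ≤ (∑' l, p l) * ∑' l, x l := by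
  have h1 : ∀ l, p l * x (k - l) ≤ p l * ∑' m, x m := fun l =>
    mul_le_mul_of_nonneg_left (summ_bd hx hx0 _) (hp0 l)
  have hs : Summable fun l => p l * x (k - l) :=
    (hp.mul_right _).of_nonneg_of_le (fun l => mul_nonneg (hp0 l) (hx0 _)) h1
  refine ⟨hs, tsum_nonneg fun l => mul_nonneg (hp0 l) (hx0 _), ?_⟩
  rw [← tsum_mul_right]
  exact hs.tsum_le_tsum h1 (hp.mul_right _)

lemma summ_tri {A p x : K → ℝ} (hA : Summable A) (hp : Summable p) (hx : Summable x) (hA0 : ∀ k, 0 ≤ A k)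
    (hp0 : ∀ k, 0 ≤ p k) (hx0 : ∀ k, 0 ≤ x k) : Summable fun k => A k * ∑' l, p l * x (k - l) :=
  (hA.mul_right ((∑' l, p l) * ∑' l, x l)).of_nonneg_of_le
    (fun k => mul_nonneg (hA0 k) (conv_le hp hx hp0 hx0 k).2.1)
    fun k => mul_le_mul_of_nonneg_left (conv_le hp hx hp0 hx0 k).2.2 (hA0 k)

lemma tri1 {A p x : K → ℝ} (hA : Summable A) (hp : Summable p) (hx : Summable x) (hA0 : ∀ k, 0 ≤ A k)
    (hp0 : ∀ k, 0 ≤ p k) (hx0 : ∀ k, 0 ≤ x k) :
    ∑' k, A k * ∑' l, p l * x (k - l) ≤ Real.sqrt (∑' k, A k ^ 2) * Real.sqrt (∑' k, p k ^ 2) * ∑' k, x k := by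
  have e1 : ∀ k, A k * ∑' l, p l * x (k - l) = ∑' m, A k * (x m * p (k - m)) := fun k => by
    rw [conv_comm, tsum_mul_left]
  simp only [e1]
  have hS : Summable fun P : K × K => A P.1 * (x P.2 * p (P.1 - P.2)) := by
    have h0 : Summable fun P : K × K => A P.1 * x P.2 := hA.mul_of_nonneg hx hA0 hx0
    refine (h0.mul_right (∑' l, p l)).of_nonneg_of_le
      (fun P => mul_nonneg (hA0 _) (mul_nonneg (hx0 _) (hp0 _))) fun P => ?_
    rw [mul_assoc]
    exact mul_le_mul_of_nonneg_left (mul_le_mul_of_nonneg_left (summ_bd hp hp0 _) (hx0 _)) (hA0 _)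
  have hcomm : ∑' k, ∑' m, A k * (x m * p (k - m)) = ∑' m, ∑' k, A k * (x m * p (k - m)) :=
    Summable.tsum_comm (f := fun m k => A k * (x m * p (k - m))) ((Equiv.prodComm K K).summable_iff.2 hS)
  rw [hcomm, ← tsum_mul_left]
  have hp2 := summ_sq hp hp0
  have hA2 := summ_sq hA hA0
  have hb : ∀ m, ∑' k, A k * (x m * p (k - m)) ≤ Real.sqrt (∑' k, A k ^ 2) * Real.sqrt (∑' k, p k ^ 2) * x m := by
    intro m
    have e : ∀ k, A k * (x m * p (k - m)) = x m * (A k * p (k - m)) := fun k => by ring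
    simp only [e]
    rw [tsum_mul_left, mul_comm _ (x m)]
    refine mul_le_mul_of_nonneg_left ?_ (hx0 m)
    have hp2' : Summable fun k => p (k - m) ^ 2 := ((Equiv.subRight m).summable_iff (f := fun k => p k ^ 2)).2 hp2
    have e2 : ∑' k, p (k - m) ^ 2 = ∑' k, p k ^ 2 := (Equiv.subRight m).tsum_eq fun k => p k ^ 2
    rw [← e2]
    exact (cs hA0 (fun k => hp0 _) hA2 hp2').2
  have hS' : Summable fun m => ∑' k, A k * (x m * p (k - m)) :=
    ((Equiv.prodComm K K).summable_iff.2 hS).prod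
  exact hS'.tsum_le_tsum hb (hx.mul_left _)

/-- `∑ x ≤ √s4 (∑ (|k|² x)²)^{1/2}` -/
lemma l1_le_l2 {x : K → ℝ} (hx0 : ∀ k, 0 ≤ x k) (h0 : x 0 = 0) (hs : Summable fun k => (nk k ^ 2 * x k) ^ 2) :
    ∑' k, x k ≤ Real.sqrt s4 * Real.sqrt (∑' k, (nk k ^ 2 * x k) ^ 2) := by
  have e : ∀ k, x k = (if k = 0 then (0 : ℝ) else 1 / nk k ^ 2) * (nk k ^ 2 * x k) := by
    intro k
    by_cases hk : k = 0
    · rw [hk, h0]; simp
    · rw [if_neg hk]
      have := nk_pos hk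
      field_simp
  have e2 : ∀ k : K, (if k = 0 then (0 : ℝ) else 1 / nk k ^ 2) ^ 2 = if k = 0 then (0 : ℝ) else 1 / nk k ^ 4 := by
    intro k
    split_ifs
    · simp
    · rw [div_pow, one_pow, ← pow_mul]
  have h := (cs (f := fun k : K => if k = 0 then (0 : ℝ) else 1 / nk k ^ 2) (g := fun k => nk k ^ 2 * x k)
    (fun k => by show 0 ≤ (if k = 0 then (0 : ℝ) else 1 / nk k ^ 2); split_ifs <;> positivity)
    (fun k => mul_nonneg (by positivity) (hx0 k))
    (by simp only [e2]; exact summable_nk4) hs).2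
  simp only [e2] at h
  calc ∑' k, x k = ∑' k, (if k = 0 then (0 : ℝ) else 1 / nk k ^ 2) * (nk k ^ 2 * x k) := tsum_congr e
    _ ≤ _ := h

section

variable {c : ℝ} {n : K} {X : Fam} (h : Plf c n X)

/-! ### enstrophy -/

/-- the enstrophy -/
noncomputable def E1 (n : K) (X : Fam) (t : ℝ) : ℝ := ∑' k, ‖om' n X k t‖ ^ 2

/-- its dissipation -/
noncomputable def P1 (n : K) (X : Fam) (t : ℝ) : ℝ := ∑' k, (nk k * ‖om' n X k t‖) ^ 2

include h

lemma bd0 (j : ℕ) : ∃ b : K → ℝ, Summable b ∧ (∀ k, 0 ≤ b k) ∧ ∀ k t, nk k ^ j * ‖X k t‖ ≤ b k := by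
  obtain ⟨b, hb, hb0, hb'⟩ := X_bd h j
  exact ⟨b, hb, hb0, fun k t => (mul_le_mul_of_nonneg_right
    (pow_le_pow_left₀ (nk_nonneg k) (nk_le_pw k) j) (norm_nonneg _)).trans (hb' k t)⟩

lemma obd0 (j : ℕ) : ∃ b : K → ℝ, Summable b ∧ (∀ k, 0 ≤ b k) ∧ ∀ k t, nk k ^ j * ‖om' n X k t‖ ≤ b k := by
  obtain ⟨b, hb, hb0, hb'⟩ := om_bd h j
  exact ⟨b, hb, hb0, fun k t => (mul_le_mul_of_nonneg_right
    (pow_le_pow_left₀ (nk_nonneg k) (nk_le_pw k) j) (norm_nonneg _)).trans (hb' k t)⟩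

lemma E1_cont : Continuous (E1 n X) := by
  obtain ⟨b, hb, hb0, hb'⟩ := obd0 h 0
  exact energy_cont hb hb0 (fun k t => by simpa using hb' k t) fun k => om_cont h.cf k

lemma E1_deriv {t : ℝ} (ht : 0 < t) : HasDerivAt (E1 n X) (-(2 * c) * P1 n X t) t := by
  obtain ⟨b, hb, hb0, hb'⟩ := obd0 h 0
  obtain ⟨d, hd, hd0, hd'⟩ := omR_bd h 0
  have h1 := energy_deriv (q := om' n X) (q' := fun k t => vo n k (RH c X k t)) hb hd hb0 hd0
    (fun k t => by simpa using hb' k t) (fun k t _ => by simpa using hd' k t) (fun k t ht => om_deriv h k ht) ht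
  refine h1.congr_deriv ?_
  obtain ⟨s1, s2⟩ := transport_zero h t
  have e1 : ∀ k, 2 * (star (om' n X k t) * vo n k (RH c X k t)).re
      = -(2 * c) * (nk k * ‖om' n X k t‖) ^ 2
        + 2 * (-(2 * Real.pi * Complex.I) * ∑' l, star (om' n X k t) * (dt k (X l t) * om' n X (k - l) t)).re := by
    intro k
    have e2 : vo n k (RH c X k t) = ((-(c * H356R3.NS.sq k) : ℝ) : ℂ) * om' n X k t
        + -(2 * Real.pi * Complex.I) * ∑' l, dt k (X l t) * om' n X (k - l) t := by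
      unfold RH
      rw [vo_add, vo_rsmul, vo_Bt h]; rfl
    rw [e2, mul_add, Complex.add_re, tsum_mul_left]
    have e3 : (star (om' n X k t) * (((-(c * H356R3.NS.sq k) : ℝ) : ℂ) * om' n X k t)).re
        = -(c * H356R3.NS.sq k) * ‖om' n X k t‖ ^ 2 := by
      rw [mul_left_comm, Complex.re_ofReal_mul, Complex.star_def, Complex.conj_mul']
      norm_cast
    rw [e3, mul_pow, H356R3.NS.nk_sq]
    have e4 : star (om' n X k t) * (-(2 * Real.pi * Complex.I) * ∑' l, dt k (X l t) * om' n X (k - l) t)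
        = -(2 * Real.pi * Complex.I) * (star (om' n X k t) * ∑' l, dt k (X l t) * om' n X (k - l) t) := by ring
    rw [e4]
    ring
  have hs3 : Summable fun k => ∑' l, star (om' n X k t) * (dt k (X l t) * om' n X (k - l) t) := s1.prod
  have hs3' := (hs3.mul_left (-(2 * Real.pi * Complex.I)))
  have hs4 : Summable fun k => 2 * (-(2 * Real.pi * Complex.I)
      * ∑' l, star (om' n X k t) * (dt k (X l t) * om' n X (k - l) t)).re :=
    (Complex.reCLM.summable hs3').mul_left 2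
  obtain ⟨g, hg, hg0, hg'⟩ := obd0 h 1
  have hs5 : Summable fun k => (nk k * ‖om' n X k t‖) ^ 2 :=
    (summ_sq hg hg0).of_nonneg_of_le (fun k => sq_nonneg _) fun k => by
      have := hg' k t
      rw [pow_one] at this
      exact pow_le_pow_left₀ (mul_nonneg (nk_nonneg k) (norm_nonneg _)) this 2
  simp only [e1]
  rw [(hs5.mul_left _).tsum_add hs4, tsum_mul_left, tsum_mul_left]
  have e5 : ∑' k, (-(2 * Real.pi * Complex.I) * ∑' l, star (om' n X k t) * (dt k (X l t) * om' n X (k - l) t)).re = 0 := by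
    have := Complex.reCLM.map_tsum hs3'
    simp only [Complex.reCLM_apply] at this
    rw [← this, tsum_mul_left]
    have e6 : ∑' k, ∑' l, star (om' n X k t) * (dt k (X l t) * om' n X (k - l) t) = 0 := by
      rw [← s2]; exact (s1.tsum_prod).symm
    rw [e6]; simp
  rw [e5]
  unfold P1
  ring

end

end Pool.Agent.U162.PL
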