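import Pool.Agent.U162.PL.Gr

/-!
A priori bounds for planar flows: second derivatives
-/

open MeasureTheory Set Filter Topology
open scoped ENNReal NNReal ContDiff

namespace Pool.Agent.U162.PL

open Pool.Agent.H356R3.NS Pool.Agent.U162.TS Pool.Agent.U162.TS.EL

lemma norm_bt_dt {k : K} (hk : k ≠ 0) (u v : C3) : ‖bt k u v‖ ≤ 8 * Real.pi * (‖dt k u‖ * ‖v‖) := by
  have hkp := nk_pos hk
  have hpi := Real.pi_pos
  rw [pi_norm_le_iff_of_nonneg (by positivity)]
  intro i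
  rw [bt_eq, norm_mul, norm_mul]
  have h1 : ‖-(2 * (Real.pi : ℂ) * Complex.I)‖ = 2 * Real.pi := by
    rw [norm_neg, norm_mul, norm_mul, Complex.norm_I, Complex.norm_real]
    simp [abs_of_pos hpi]
  have h2 : ‖v i - (k i : ℂ) * dt k v / ((H356R3.NS.sq k : ℝ) : ℂ)‖ ≤ 4 * ‖v‖ := by
    have a1 : ‖v i‖ ≤ ‖v‖ := norm_le_pi_norm v i
    have a2 : ‖(k i : ℂ) * dt k v / ((H356R3.NS.sq k : ℝ) : ℂ)‖ ≤ 3 * ‖v‖ := by
      rw [norm_div, norm_mul, Complex.norm_real, Complex.norm_intCast, Real.norm_of_nonneg (sq_nonneg' k),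
        ← H356R3.NS.nk_sq, div_le_iff₀ (by positivity)]
      calc |((k i : ℤ) : ℝ)| * ‖dt k v‖ ≤ nk k * (3 * nk k * ‖v‖) :=
            mul_le_mul (abs_le_nk k i) (dt_norm k v) (norm_nonneg _) hkp.le
        _ = _ := by ring
    exact (norm_sub_le _ _).trans (by linarith)
  rw [h1]
  calc 2 * Real.pi * ‖dt k u‖ * ‖v i - (k i : ℂ) * dt k v / ((H356R3.NS.sq k : ℝ) : ℂ)‖
      ≤ 2 * Real.pi * ‖dt k u‖ * (4 * ‖v‖) := mul_le_mul_of_nonneg_left h2 (by positivity)
    _ = _ := by ring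

lemma sup_le_sum (v : C3) : ‖v‖ ^ 2 ≤ ∑ i, ‖v i‖ ^ 2 := by
  have h0 : 0 ≤ ∑ i, ‖v i‖ ^ 2 := Finset.sum_nonneg fun i _ => sq_nonneg _
  have h1 : ‖v‖ ≤ Real.sqrt (∑ i, ‖v i‖ ^ 2) := by
    rw [pi_norm_le_iff_of_nonneg (Real.sqrt_nonneg _)]
    intro i
    apply Real.le_sqrt_of_sq_le
    exact Finset.single_le_sum (f := fun i => ‖v i‖ ^ 2) (fun i _ => sq_nonneg _) (Finset.mem_univ i)
  calc ‖v‖ ^ 2 ≤ Real.sqrt (∑ i, ‖v i‖ ^ 2) ^ 2 := pow_le_pow_left₀ (norm_nonneg _) h1 2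
    _ = _ := Real.sq_sqrt h0

/-- the second order energy -/
noncomputable def YY (X : Fam) (t : ℝ) : ℝ := ∑ i, ∑' k, ‖((H356R3.NS.sq k : ℝ) : ℂ) * X k t i‖ ^ 2

/-- the constant -/
noncomputable def C2 (c : ℝ) : ℝ := (384 * Real.pi * Real.sqrt s4) ^ 2 / (4 * c)

section

variable {c : ℝ} {n : K} {X : Fam} (h : Plf c n X)

include h

lemma Bt_le {k : K} (hk : k ≠ 0) (hkn : dz n k = 0) (t : ℝ) :
    ‖Bt X k t‖ ≤ 8 * Real.pi * nk k * ∑' l, (‖om' n X l t‖ / nk l) * ‖X (k - l) t‖ := by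
  have hsn : Summable fun l => ‖X l t‖ := h.dom.sn t
  obtain ⟨g, hg, hg0, hg'⟩ := obd0 h 0
  have hpi := Real.pi_pos
  have hkp := nk_pos hk
  have ha0 : ∀ l, 0 ≤ ‖om' n X l t‖ / nk l := fun l => div_nonneg (norm_nonneg _) (nk_nonneg l)
  have ha : Summable fun l => ‖om' n X l t‖ / nk l := by
    refine hg.of_nonneg_of_le ha0 fun l => ?_
    have h1 := hg' l t
    rw [pow_zero, one_mul] at h1
    by_cases hl : l = 0
    · subst hl
      rw [nk_zero, div_zero]; exact hg0 0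
    · exact (div_le_self (norm_nonneg _) (one_le_nk hl)).trans h1
  have hconv := (conv_le ha hsn ha0 (fun _ => norm_nonneg _) k).1
  have hb : ∀ l, ‖bt k (X l t) (X (k - l) t)‖ ≤ 8 * Real.pi * nk k * ((‖om' n X l t‖ / nk l) * ‖X (k - l) t‖) := by
    intro l
    refine (norm_bt_dt hk _ _).trans ?_
    have h1 : ‖dt k (X l t)‖ ≤ nk k * (‖om' n X l t‖ / nk l) := by
      by_cases hl : l = 0
      · subst hl
        rw [h.z t, nk_zero, div_zero, mul_zero]
        simp [dt]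
      · by_cases hln : dz n l = 0
        · exact dt_le h.n0 hln hkn (h.div l t) hl
        · rw [h.pl l t hln]
          have := ha0 l
          have e : ‖dt k (0 : C3)‖ = 0 := by simp [dt]
          rw [e]; positivity
    calc 8 * Real.pi * (‖dt k (X l t)‖ * ‖X (k - l) t‖)
        ≤ 8 * Real.pi * ((nk k * (‖om' n X l t‖ / nk l)) * ‖X (k - l) t‖) := by gcongr
      _ = _ := by ring
  have hsn' : SN (at' X t) := hsn
  unfold Bt
  rw [Bf_eq_tsum hsn' hsn', ← tsum_mul_left]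
  have hs2 : Summable fun l => ‖bt k (at' X t l) (at' X t (k - l))‖ :=
    (hconv.mul_left (8 * Real.pi * nk k)).of_nonneg_of_le (fun _ => norm_nonneg _) hb
  exact (norm_tsum_le_tsum_norm hs2).trans (hs2.tsum_le_tsum hb (hconv.mul_left _))

lemma YY_cont : Continuous (YY X) := by
  obtain ⟨b, hb, hb0, hb'⟩ := bd0 h 2
  unfold YY
  refine continuous_finsetSum _ fun i _ => energy_cont hb hb0 (fun k t => ?_) fun k => ?_
  · rw [norm_mul, Complex.norm_real, Real.norm_of_nonneg (sq_nonneg' k), ← H356R3.NS.nk_sq]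
    exact (mul_le_mul_of_nonneg_left (norm_le_pi_norm _ i) (by positivity)).trans (hb' k t)
  · exact continuous_const.mul ((continuous_apply i).comp (h.cf k))

lemma YY_deriv (hc : 0 < c) {t : ℝ} (ht : 0 < t) :
    ∃ Y' : ℝ, HasDerivAt (YY X) Y' t ∧ Y' ≤ -c * YY X t + C2 c * P1 n X t * YY X t := by
  have hpi := Real.pi_pos
  obtain ⟨b, hb, hb0, hb'⟩ := bd0 h 2
  obtain ⟨d, hd, hd0, hd'⟩ := RH_bd h 2
  have hdR : ∀ k t, nk k ^ 2 * ‖RH c X k t‖ ≤ d k := fun k t => (mul_le_mul_of_nonneg_right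
    (pow_le_pow_left₀ (nk_nonneg k) (nk_le_pw k) 2) (norm_nonneg _)).trans (hd' k t)
  have hder : ∀ i : Fin 3, HasDerivAt (fun t => ∑' k, ‖((H356R3.NS.sq k : ℝ) : ℂ) * X k t i‖ ^ 2)
      (∑' k, 2 * (star (((H356R3.NS.sq k : ℝ) : ℂ) * X k t i) * (((H356R3.NS.sq k : ℝ) : ℂ) * RH c X k t i)).re) t := by
    intro i
    refine energy_deriv (q := fun k t => ((H356R3.NS.sq k : ℝ) : ℂ) * X k t i)
      (q' := fun k t => ((H356R3.NS.sq k : ℝ) : ℂ) * RH c X k t i) hb hd hb0 hd0 (fun k t => ?_)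
      (fun k t _ => ?_) (fun k t ht => ?_) ht
    · rw [norm_mul, Complex.norm_real, Real.norm_of_nonneg (sq_nonneg' k), ← H356R3.NS.nk_sq]
      exact (mul_le_mul_of_nonneg_left (norm_le_pi_norm _ i) (by positivity)).trans (hb' k t)
    · rw [norm_mul, Complex.norm_real, Real.norm_of_nonneg (sq_nonneg' k), ← H356R3.NS.nk_sq]
      exact (mul_le_mul_of_nonneg_left (norm_le_pi_norm _ i) (by positivity)).trans (hdR k t)
    · exact (hasDerivAt_pi.1 (h.ode k t ht) i).const_mul _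
  refine ⟨_, HasDerivAt.fun_sum fun i _ => hder i, ?_⟩
  -- notation
  set x : K → ℝ := fun k => ‖X k t‖ with hx
  set a : K → ℝ := fun l => ‖om' n X l t‖ / nk l with ha
  have hx0 : ∀ k, 0 ≤ x k := fun k => norm_nonneg _
  have ha0 : ∀ k, 0 ≤ a k := fun k => div_nonneg (norm_nonneg _) (nk_nonneg k)
  have hxz : x 0 = 0 := by rw [hx]; simp only; rw [h.z t, norm_zero]
  have hxj : ∀ j : ℕ, Summable fun k => nk k ^ j * x k := fun j => by
    obtain ⟨b, hb, hb0, hb'⟩ := bd0 h j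
    exact hb.of_nonneg_of_le (fun k => mul_nonneg (pow_nonneg (nk_nonneg k) j) (hx0 k)) fun k => hb' k t
  have hxs : Summable x := by simpa using hxj 0
  have hwj : ∀ j : ℕ, Summable fun k => nk k ^ j * ‖om' n X k t‖ := fun j => by
    obtain ⟨b, hb, hb0, hb'⟩ := obd0 h j
    exact hb.of_nonneg_of_le (fun k => mul_nonneg (pow_nonneg (nk_nonneg k) j) (norm_nonneg _)) fun k => hb' k t
  have has : Summable a := by
    refine (hwj 0).of_nonneg_of_le ha0 fun l => ?_
    rw [pow_zero, one_mul]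
    by_cases hl : l = 0
    · rw [ha]; simp only; rw [hl, nk_zero, div_zero]; exact norm_nonneg _
    · exact div_le_self (norm_nonneg _) (one_le_nk hl)
  have hom0 : om' n X 0 t = 0 := by unfold om'; rw [h.z t, vo_zero]
  have hpa : ∀ l, nk l ^ 2 * a l = nk l * ‖om' n X l t‖ := by
    intro l
    by_cases hl : l = 0
    · rw [hl, nk_zero]; simp
    · have := nk_pos hl
      rw [ha]; simp only; field_simp
  have haz : a 0 = 0 := by rw [ha]; simp only; rw [nk_zero, div_zero]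
  -- the sums
  set A : K → ℝ := fun k => nk k ^ 3 * x k with hA
  set y : K → ℝ := fun k => nk k ^ 2 * x k with hy
  set p : K → ℝ := fun l => nk l * ‖om' n X l t‖ with hp
  have hA0 : ∀ k, 0 ≤ A k := fun k => mul_nonneg (pow_nonneg (nk_nonneg k) 3) (hx0 k)
  have hy0 : ∀ k, 0 ≤ y k := fun k => mul_nonneg (pow_nonneg (nk_nonneg k) 2) (hx0 k)
  have hp0 : ∀ k, 0 ≤ p k := fun k => mul_nonneg (nk_nonneg k) (norm_nonneg _)
  have hAs : Summable A := hxj 3
  have hys : Summable y := hxj 2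
  have hps : Summable p := by simpa using hwj 1
  set D2 := ∑' k, A k ^ 2 with hD2
  set Y2 := ∑' k, y k ^ 2 with hY2
  have hP1 : P1 n X t = ∑' k, p k ^ 2 := rfl
  have hD20 : 0 ≤ D2 := tsum_nonneg fun _ => sq_nonneg _
  have hY20 : 0 ≤ Y2 := tsum_nonneg fun _ => sq_nonneg _
  have hP0 : 0 ≤ P1 n X t := tsum_nonneg fun _ => sq_nonneg _
  have hx1 : ∑' k, x k ≤ Real.sqrt s4 * Real.sqrt Y2 := l1_le_l2 hx0 hxz (summ_sq hys hy0)
  have ha1 : ∑' k, a k ≤ Real.sqrt s4 * Real.sqrt (P1 n X t) := by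
    have := l1_le_l2 ha0 haz (by simp only [hpa]; exact summ_sq hps hp0)
    simp only [hpa] at this
    exact this
  -- the nonlinear term
  set R : K → ℝ := fun k => nk k ^ 5 * x k * ∑' l, a l * x (k - l) with hR
  have hR0 : ∀ k, 0 ≤ R k := fun k => mul_nonneg (mul_nonneg (pow_nonneg (nk_nonneg k) 5) (hx0 k))
    (conv_le has hxs ha0 hx0 k).2.1
  have hRle : ∀ k, R k ≤ 4 * (A k * ∑' l, p l * x (k - l)) + 4 * (A k * ∑' l, y l * a (k - l)) := by
    intro k
    have c1 := conv_le has hxs ha0 hx0 k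
    have c2 := conv_le hps hxs hp0 hx0 k
    have c3 := conv_le has hys ha0 hy0 k
    have e1 : nk k ^ 2 * ∑' l, a l * x (k - l) ≤ 4 * ∑' l, p l * x (k - l) + 4 * ∑' l, a l * y (k - l) := by
      rw [← tsum_mul_left, ← tsum_mul_left, ← tsum_mul_left, ← (c2.1.mul_left 4).tsum_add (c3.1.mul_left 4)]
      refine (c1.1.mul_left _).tsum_le_tsum (fun l => ?_) ((c2.1.mul_left 4).add (c3.1.mul_left 4))
      have h1 := nk_pow_le k l 2
      have h2 : 0 ≤ a l * x (k - l) := mul_nonneg (ha0 l) (hx0 _)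
      calc nk k ^ 2 * (a l * x (k - l)) ≤ (2 ^ 2 * (nk l ^ 2 + nk (k - l) ^ 2)) * (a l * x (k - l)) :=
            mul_le_mul_of_nonneg_right h1 h2
        _ = 4 * ((nk l ^ 2 * a l) * x (k - l)) + 4 * (a l * (nk (k - l) ^ 2 * x (k - l))) := by ring
        _ = _ := by rw [hpa]
    rw [← conv_comm a y k]
    calc R k = A k * (nk k ^ 2 * ∑' l, a l * x (k - l)) := by simp only [hR, hA]; ring
      _ ≤ A k * (4 * ∑' l, p l * x (k - l) + 4 * ∑' l, a l * y (k - l)) := mul_le_mul_of_nonneg_left e1 (hA0 k)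
      _ = _ := by ring
  have t1 := tri1 hAs hps hxs hA0 hp0 hx0
  have t2 := tri1 hAs hys has hA0 hy0 ha0
  have hs1 := (summ_tri hAs hps hxs hA0 hp0 hx0).mul_left 4
  have hs2 := (summ_tri hAs hys has hA0 hy0 ha0).mul_left 4
  have hRs : Summable R := (hs1.add hs2).of_nonneg_of_le hR0 hRle
  have hRsum : ∑' k, R k ≤ 8 * Real.sqrt s4 * Real.sqrt D2 * Real.sqrt (P1 n X t) * Real.sqrt Y2 := by
    refine (hRs.tsum_le_tsum hRle (hs1.add hs2)).trans ?_
    rw [hs1.tsum_add hs2, tsum_mul_left, tsum_mul_left]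
    have q1 := Real.sqrt_nonneg D2
    have q2 := Real.sqrt_nonneg (P1 n X t)
    have q3 := Real.sqrt_nonneg Y2
    have u1 : ∑' k, A k * ∑' l, p l * x (k - l) ≤ Real.sqrt D2 * Real.sqrt (P1 n X t) * (Real.sqrt s4 * Real.sqrt Y2) :=
      t1.trans (mul_le_mul_of_nonneg_left hx1 (mul_nonneg q1 q2))
    have u2 : ∑' k, A k * ∑' l, y l * a (k - l) ≤ Real.sqrt D2 * Real.sqrt Y2 * (Real.sqrt s4 * Real.sqrt (P1 n X t)) :=
      t2.trans (mul_le_mul_of_nonneg_left ha1 (mul_nonneg q1 q3))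
    nlinarith
  -- each component
  set Qi : Fin 3 → ℝ := fun i => ∑' k, (nk k ^ 3 * ‖X k t i‖) ^ 2 with hQi
  have hQs : ∀ i, Summable fun k => (nk k ^ 3 * ‖X k t i‖) ^ 2 := fun i =>
    (summ_sq hAs hA0).of_nonneg_of_le (fun k => sq_nonneg _) fun k =>
      pow_le_pow_left₀ (mul_nonneg (pow_nonneg (nk_nonneg k) 3) (norm_nonneg _))
        (mul_le_mul_of_nonneg_left (norm_le_pi_norm _ i) (pow_nonneg (nk_nonneg k) 3)) 2
  have hYs : ∀ i, Summable fun k => ‖((H356R3.NS.sq k : ℝ) : ℂ) * X k t i‖ ^ 2 := fun i =>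
    (summ_sq hys hy0).of_nonneg_of_le (fun k => sq_nonneg _) fun k => by
      refine pow_le_pow_left₀ (norm_nonneg _) ?_ 2
      rw [norm_mul, Complex.norm_real, Real.norm_of_nonneg (sq_nonneg' k), ← H356R3.NS.nk_sq]
      exact mul_le_mul_of_nonneg_left (norm_le_pi_norm _ i) (by positivity)
  have hcomp : ∀ i, ∑' k, 2 * (star (((H356R3.NS.sq k : ℝ) : ℂ) * X k t i) * (((H356R3.NS.sq k : ℝ) : ℂ) * RH c X k t i)).re
      ≤ -(2 * c) * Qi i + 16 * Real.pi * ∑' k, R k := by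
    intro i
    have hterm : ∀ k, 2 * (star (((H356R3.NS.sq k : ℝ) : ℂ) * X k t i) * (((H356R3.NS.sq k : ℝ) : ℂ) * RH c X k t i)).re
        ≤ -(2 * c) * (nk k ^ 3 * ‖X k t i‖) ^ 2 + 16 * Real.pi * R k := by
      intro k
      have e1 : star (((H356R3.NS.sq k : ℝ) : ℂ) * X k t i) * (((H356R3.NS.sq k : ℝ) : ℂ) * RH c X k t i)
          = ((-(c * H356R3.NS.sq k ^ 3) : ℝ) : ℂ) * (star (X k t i) * X k t i)
            + ((H356R3.NS.sq k ^ 2 : ℝ) : ℂ) * (star (X k t i) * Bt X k t i) := by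
        unfold RH
        simp only [Pi.add_apply, Pi.smul_apply, Complex.real_smul, star_mul', Complex.star_def, Complex.conj_ofReal]
        push_cast
        ring
      have e2 : (star (X k t i) * X k t i) = ((‖X k t i‖ ^ 2 : ℝ) : ℂ) := by
        rw [Complex.star_def, Complex.conj_mul']; norm_cast
      rw [e1, e2, Complex.add_re, ← Complex.ofReal_mul, Complex.ofReal_re, Complex.re_ofReal_mul]
      have e3 : (star (X k t i) * Bt X k t i).re ≤ x k * ‖Bt X k t‖ := by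
        refine (Complex.re_le_norm _).trans ?_
        rw [norm_mul, norm_star]
        exact mul_le_mul (norm_le_pi_norm _ i) (norm_le_pi_norm _ i) (norm_nonneg _) (hx0 k)
      have e4 : H356R3.NS.sq k ^ 2 * (x k * ‖Bt X k t‖) ≤ 8 * Real.pi * R k := by
        rw [← H356R3.NS.nk_sq]
        by_cases hk : k = 0
        · subst hk
          rw [hxz, zero_mul, mul_zero]
          have := hR0 0
          positivity
        by_cases hkn : dz n k = 0
        · have := Bt_le h hk hkn t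
          have hkp := nk_pos hk
          calc (nk k ^ 2) ^ 2 * (x k * ‖Bt X k t‖)
              ≤ (nk k ^ 2) ^ 2 * (x k * (8 * Real.pi * nk k * ∑' l, a l * x (k - l))) := by
                refine mul_le_mul_of_nonneg_left (mul_le_mul_of_nonneg_left this (hx0 k)) (by positivity)
            _ = _ := by simp only [hR]; ring
        · have : x k = 0 := by simp only [hx]; rw [h.pl k t hkn, norm_zero]
          rw [this, zero_mul, mul_zero]
          have := hR0 k
          positivity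
      have e5 := mul_le_mul_of_nonneg_left e3 (sq_nonneg (H356R3.NS.sq k))
      have e6 : (nk k ^ 3 * ‖X k t i‖) ^ 2 = H356R3.NS.sq k ^ 3 * ‖X k t i‖ ^ 2 := by
        rw [← H356R3.NS.nk_sq]; ring
      rw [e6]
      nlinarith
    have hsr : Summable fun k => -(2 * c) * (nk k ^ 3 * ‖X k t i‖) ^ 2 + 16 * Real.pi * R k :=
      ((hQs i).mul_left _).add (hRs.mul_left _)
    have hsl : Summable fun k => 2 * (star (((H356R3.NS.sq k : ℝ) : ℂ) * X k t i) * (((H356R3.NS.sq k : ℝ) : ℂ) * RH c X k t i)).re := by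
      have hbd : Summable fun k => 2 * (b k * d k) := (summ_mul hb hd hb0 hd0).mul_left 2
      refine Summable.of_norm_bounded hbd fun k => ?_
      rw [Real.norm_eq_abs, abs_mul, abs_two]
      refine mul_le_mul_of_nonneg_left ?_ (by norm_num)
      refine (Complex.abs_re_le_norm _).trans ?_
      rw [norm_mul, norm_star, norm_mul, norm_mul, Complex.norm_real, Real.norm_of_nonneg (sq_nonneg' k), ← H356R3.NS.nk_sq]
      exact mul_le_mul ((mul_le_mul_of_nonneg_left (norm_le_pi_norm _ i) (by positivity)).trans (hb' k t))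
        ((mul_le_mul_of_nonneg_left (norm_le_pi_norm _ i) (by positivity)).trans (hdR k t))
        (by positivity) (hb0 k)
    refine (hsl.tsum_le_tsum hterm hsr).trans ?_
    rw [((hQs i).mul_left _).tsum_add (hRs.mul_left _), tsum_mul_left, tsum_mul_left]
  -- comparison of the sums
  have hD2Q : D2 ≤ ∑ i, Qi i := by
    have e : ∑ i, Qi i = ∑' k, ∑ i, (nk k ^ 3 * ‖X k t i‖) ^ 2 :=
      (Summable.tsum_finsetSum fun i _ => hQs i).symm
    rw [e]
    refine (summ_sq hAs hA0).tsum_le_tsum (fun k => ?_) (summable_sum fun i _ => hQs i)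
    have := sup_le_sum (X k t)
    simp only [hA, hx, mul_pow, ← Finset.mul_sum]
    exact mul_le_mul_of_nonneg_left this (by positivity)
  have hY2Y : Y2 ≤ YY X t := by
    have e : YY X t = ∑' k, ∑ i, ‖((H356R3.NS.sq k : ℝ) : ℂ) * X k t i‖ ^ 2 :=
      (Summable.tsum_finsetSum fun i _ => hYs i).symm
    rw [e]
    refine (summ_sq hys hy0).tsum_le_tsum (fun k => ?_) (summable_sum fun i _ => hYs i)
    have := sup_le_sum (X k t)
    have e2 : ∑ i, ‖((H356R3.NS.sq k : ℝ) : ℂ) * X k t i‖ ^ 2 = (nk k ^ 2) ^ 2 * ∑ i, ‖X k t i‖ ^ 2 := by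
      rw [Finset.mul_sum]
      refine Finset.sum_congr rfl fun i _ => ?_
      rw [norm_mul, Complex.norm_real, Real.norm_of_nonneg (sq_nonneg' k), ← H356R3.NS.nk_sq, mul_pow]
    rw [e2]
    simp only [hy, hx, mul_pow]
    exact mul_le_mul_of_nonneg_left this (by positivity)
  have hYQ : YY X t ≤ ∑ i, Qi i := by
    unfold YY
    refine Finset.sum_le_sum fun i _ => (hYs i).tsum_le_tsum (fun k => ?_) (hQs i)
    refine pow_le_pow_left₀ (norm_nonneg _) ?_ 2
    rw [norm_mul, Complex.norm_real, Real.norm_of_nonneg (sq_nonneg' k), ← H356R3.NS.nk_sq]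
    refine mul_le_mul_of_nonneg_right ?_ (norm_nonneg _)
    by_cases hk : k = 0
    · subst hk; rw [nk_zero]; norm_num
    · exact pow_le_pow_right₀ (one_le_nk hk) (by norm_num)
  have hYY0 : 0 ≤ YY X t := hY20.trans hY2Y
  have htot : ∑ i, (-(2 * c) * Qi i + 16 * Real.pi * ∑' k, R k)
      = -(2 * c) * (∑ i, Qi i) + 48 * Real.pi * ∑' k, R k := by
    rw [Finset.sum_add_distrib, ← Finset.mul_sum]
    simp
    ring
  refine (Finset.sum_le_sum fun i _ => hcomp i).trans ?_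
  rw [htot]
  set Q := ∑ i, Qi i
  set s := Real.sqrt s4
  set α := Real.sqrt D2
  set β := Real.sqrt (P1 n X t)
  set γ := Real.sqrt Y2
  have hα : α ^ 2 = D2 := Real.sq_sqrt hD20
  have hβ : β ^ 2 = P1 n X t := Real.sq_sqrt hP0
  have hγ : γ ^ 2 = Y2 := Real.sq_sqrt hY20
  have k1 : 48 * Real.pi * ∑' k, R k ≤ (384 * Real.pi * s) * (α * (β * γ)) := by
    calc 48 * Real.pi * ∑' k, R k ≤ 48 * Real.pi * (8 * s * α * β * γ) :=
          mul_le_mul_of_nonneg_left hRsum (by positivity)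
      _ = _ := by ring
  have k2 : (384 * Real.pi * s) * (α * (β * γ)) ≤ c * α ^ 2 + C2 c * (β ^ 2 * γ ^ 2) := by
    unfold C2
    have h4c : 0 < 4 * c := by positivity
    have : (384 * Real.pi * s) * (α * (β * γ)) * (4 * c) ≤ (c * α ^ 2 + (384 * Real.pi * s) ^ 2 / (4 * c) * (β ^ 2 * γ ^ 2)) * (4 * c) := by
      have e : (c * α ^ 2 + (384 * Real.pi * s) ^ 2 / (4 * c) * (β ^ 2 * γ ^ 2)) * (4 * c)
          = (2 * c * α) ^ 2 + ((384 * Real.pi * s) * (β * γ)) ^ 2 := by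
        field_simp
        ring
      rw [e]
      nlinarith [sq_nonneg (2 * c * α - (384 * Real.pi * s) * (β * γ))]
    exact le_of_mul_le_mul_right this h4c
  rw [hα, hβ, hγ] at k2
  have hC2 : 0 ≤ C2 c := by unfold C2; positivity
  have k3 : C2 c * (P1 n X t * Y2) ≤ C2 c * P1 n X t * YY X t := by
    rw [mul_assoc]
    exact mul_le_mul_of_nonneg_left (mul_le_mul_of_nonneg_left hY2Y hP0) hC2
  have k4 : c * D2 ≤ c * Q := mul_le_mul_of_nonneg_left hD2Q hc.le
  have k5 : c * YY X t ≤ c * Q := mul_le_mul_of_nonneg_left hYQ hc.le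
  linarith

end

end Pool.Agent.U162.PL
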