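import Pool.Agent.U162.PL.Gr2

/-!
Gronwall estimate and the uniform bound for planar flows
-/

open MeasureTheory Set Filter Topology
open scoped ENNReal NNReal ContDiff

namespace Pool.Agent.U162.PL

open Pool.Agent.H356R3.NS Pool.Agent.U162.TS Pool.Agent.U162.TS.EL

section

variable {c : ℝ} {n : K} {X : Fam} (h : Plf c n X)

lemma YY_nonneg (X : Fam) (t : ℝ) : 0 ≤ YY X t :=
  Finset.sum_nonneg fun _ _ => tsum_nonneg fun _ => sq_nonneg _

lemma E1_nonneg (n : K) (X : Fam) (t : ℝ) : 0 ≤ E1 n X t := tsum_nonneg fun _ => sq_nonneg _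

lemma C2_nonneg (hc : 0 < c) : 0 ≤ C2 c := by unfold C2; positivity

include h

lemma YY_bound (hc : 0 < c) {t : ℝ} (ht : 0 ≤ t) :
    YY X t * Real.exp (c * t) ≤ YY X 0 * Real.exp (C2 c / (2 * c) * E1 n X 0) := by
  have hC2 := C2_nonneg hc
  set V : ℝ → ℝ := fun t => YY X t * Real.exp (c * t + C2 c / (2 * c) * E1 n X t) with hV
  have hcY := YY_cont h
  have hcE := E1_cont h
  have hVc : Continuous V := by
    rw [hV]
    exact hcY.mul (Real.continuous_exp.comp (by fun_prop))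
  have hVd : ∀ s, 0 < s → ∃ V', HasDerivAt V V' s ∧ V' ≤ 0 := by
    intro s hs
    obtain ⟨Y', hY', hle⟩ := YY_deriv h hc hs
    have hE := E1_deriv h hs
    have h1 : HasDerivAt (fun t => c * t + C2 c / (2 * c) * E1 n X t)
        (c * 1 + C2 c / (2 * c) * (-(2 * c) * P1 n X s)) s :=
      ((hasDerivAt_id' s).const_mul c).fun_add (hE.const_mul _)
    have h2 := hY'.fun_mul h1.exp
    refine ⟨_, h2, ?_⟩
    have e : C2 c / (2 * c) * (-(2 * c) * P1 n X s) = -(C2 c * P1 n X s) := by field_simp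
    rw [e]
    have hexp := Real.exp_pos (c * s + C2 c / (2 * c) * E1 n X s)
    have : Y' * Real.exp (c * s + C2 c / (2 * c) * E1 n X s)
        + YY X s * (Real.exp (c * s + C2 c / (2 * c) * E1 n X s) * (c * 1 + -(C2 c * P1 n X s)))
        = Real.exp (c * s + C2 c / (2 * c) * E1 n X s) * (Y' - (-c * YY X s + C2 c * P1 n X s * YY X s)) := by ring
    rw [this]
    exact mul_nonpos_of_nonneg_of_nonpos hexp.le (by linarith)
  have hanti : AntitoneOn V (Ici 0) := by
    refine antitoneOn_of_deriv_nonpos (convex_Ici 0) hVc.continuousOn (fun s hs => ?_) fun s hs => ?_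
    · rw [interior_Ici] at hs
      obtain ⟨V', hV', -⟩ := hVd s hs
      exact hV'.differentiableAt.differentiableWithinAt
    · rw [interior_Ici] at hs
      obtain ⟨V', hV', hle⟩ := hVd s hs
      rw [hV'.deriv]; exact hle
  have h1 := hanti (mem_Ici.2 le_rfl) (mem_Ici.2 ht) ht
  simp only [hV, mul_zero, zero_add] at h1
  refine le_trans ?_ h1
  refine mul_le_mul_of_nonneg_left (Real.exp_le_exp.2 ?_) (YY_nonneg X t)
  have := mul_nonneg (div_nonneg hC2 (by positivity : (0 : ℝ) ≤ 2 * c)) (E1_nonneg n X t)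
  linarith

lemma sumX_le (t : ℝ) : ∑' k, ‖X k t‖ ≤ Real.sqrt s4 * Real.sqrt (YY X t) := by
  obtain ⟨b, hb, hb0, hb'⟩ := bd0 h 2
  have hys : Summable fun k => nk k ^ 2 * ‖X k t‖ :=
    hb.of_nonneg_of_le (fun k => by positivity) fun k => hb' k t
  have hy2 := summ_sq hys fun k => by positivity
  refine (l1_le_l2 (fun k => norm_nonneg _) (by rw [h.z t, norm_zero]) hy2).trans ?_
  refine mul_le_mul_of_nonneg_left (Real.sqrt_le_sqrt ?_) (Real.sqrt_nonneg _)
  have hYs : ∀ i, Summable fun k => ‖((H356R3.NS.sq k : ℝ) : ℂ) * X k t i‖ ^ 2 := fun i =>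
    hy2.of_nonneg_of_le (fun k => sq_nonneg _) fun k => by
      refine pow_le_pow_left₀ (norm_nonneg _) ?_ 2
      rw [norm_mul, Complex.norm_real, Real.norm_of_nonneg (sq_nonneg' k), ← H356R3.NS.nk_sq]
      exact mul_le_mul_of_nonneg_left (norm_le_pi_norm _ i) (by positivity)
  have e : YY X t = ∑' k, ∑ i, ‖((H356R3.NS.sq k : ℝ) : ℂ) * X k t i‖ ^ 2 :=
    (Summable.tsum_finsetSum fun i _ => hYs i).symm
  rw [e]
  refine hy2.tsum_le_tsum (fun k => ?_) (summable_sum fun i _ => hYs i)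
  have := sup_le_sum (X k t)
  have e2 : ∑ i, ‖((H356R3.NS.sq k : ℝ) : ℂ) * X k t i‖ ^ 2 = (nk k ^ 2) ^ 2 * ∑ i, ‖X k t i‖ ^ 2 := by
    rw [Finset.mul_sum]
    refine Finset.sum_congr rfl fun i _ => ?_
    rw [norm_mul, Complex.norm_real, Real.norm_of_nonneg (sq_nonneg' k), ← H356R3.NS.nk_sq, mul_pow]
  rw [e2, mul_pow]
  exact mul_le_mul_of_nonneg_left this (by positivity)

end

/-- the planar property of data -/
def Pld (n : K) (v : K → C3) : Prop := ∀ k, dz n k ≠ 0 → v k = 0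

/-- the second order energy of data -/
noncomputable def yv (v : K → C3) : ℝ := ∑ i, ∑' k, ‖((H356R3.NS.sq k : ℝ) : ℂ) * v k i‖ ^ 2

/-- the enstrophy of data -/
noncomputable def ev' (n : K) (v : K → C3) : ℝ := ∑' k, ‖vo n k (v k)‖ ^ 2

/-- the uniform bound -/
noncomputable def Gv (c : ℝ) (n : K) (v : K → C3) : ℝ :=
  Real.sqrt s4 * Real.sqrt (yv v * Real.exp (C2 c / (2 * c) * ev' n v))

variable {c : ℝ} (hc : 0 < c)

lemma plf_of_sol {n : K} (hn : n ≠ 0) {z : EE} {v : K → C3} (hv : Dta v) (hp : Pld n v)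
    (hz : Phi hc z = hE hc v hv.sum) : Plf c n (XX c z) where
  n0 := hn
  ode := XX_ode hc hz hv.mean
  cf := XX_cf z
  z := XX_zero hc hz hv.mean
  sym := XX_sym hc hv hz
  div := XX_div hc hz hv.mean hv.div
  pl := fun k t hk => by
    unfold XX
    rw [z_plane hc hz hp k hk]
    simp
  rd := XX_rd hc hv hz

lemma z_max {z : EE} {v : K → C3} {hv : Summable fun k => ‖v k‖} (hz : Phi hc z = hE hc v hv) (k : K) (t : ℝ) :
    z k t = z k (max t 0) := by
  have e : ∀ t, z k t = hT hc k (v k) t + BB hc z z k t := by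
    intro t
    have h1 : (Phi hc z) k t = hT hc k (v k) t := by rw [hz, hE_apply]
    unfold Phi at h1
    rw [lp.coeFn_sub, Pi.sub_apply, BoundedContinuousFunction.sub_apply] at h1
    rw [← h1]; abel
  rw [e t, e (max t 0), ← hT_max, ← BB_max]

/-- the uniform bound for planar flows -/
theorem z_G_planar {n : K} (hn : n ≠ 0) {z : EE} {v : K → C3} (hv : Dta v) (hp : Pld n v)
    (hz : Phi hc z = hE hc v hv.sum) (t : ℝ) : ∑' k, ‖z k t‖ ≤ Gv c n v := by
  have hpl := plf_of_sol hc hn hv hp hz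
  have e0 : ∑' k, ‖z k t‖ = Real.exp (c / 2 * max t 0) * ∑' k, ‖XX c z k (max t 0)‖ := by
    rw [← tsum_mul_left]
    refine tsum_congr fun k => ?_
    have hmm : max (max t 0) 0 = max t 0 := max_eq_left (le_max_right _ _)
    unfold XX
    rw [norm_smul, Real.norm_of_nonneg (Real.exp_pos _).le, hmm, ← mul_assoc, ← Real.exp_add, add_neg_cancel,
      Real.exp_zero, one_mul, ← z_max hc hz]
  rw [e0]
  generalize hs : max t 0 = s
  have hs0 : 0 ≤ s := by rw [← hs]; exact le_max_right _ _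
  have h1 := sumX_le hpl s
  have h2 := YY_bound hpl hc hs0
  have e1 : YY (XX c z) 0 = yv v := by
    unfold YY yv
    simp only [XX_init hc hz hv.mean]
  have e2 : E1 n (XX c z) 0 = ev' n v := by
    unfold E1 ev' om'
    simp only [XX_init hc hz hv.mean]
  rw [e1, e2] at h2
  have hY0 := YY_nonneg (XX c z) s
  calc Real.exp (c / 2 * s) * ∑' k, ‖XX c z k s‖
      ≤ Real.exp (c / 2 * s) * (Real.sqrt s4 * Real.sqrt (YY (XX c z) s)) :=
        mul_le_mul_of_nonneg_left h1 (Real.exp_pos _).le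
    _ = Real.sqrt s4 * Real.sqrt (YY (XX c z) s * Real.exp (c * s)) := by
        rw [Real.sqrt_mul hY0]
        have : Real.sqrt (Real.exp (c * s)) = Real.exp (c / 2 * s) := by
          rw [Real.sqrt_eq_iff_mul_self_eq (Real.exp_pos _).le (Real.exp_pos _).le, ← Real.exp_add]
          congr 1; ring
        rw [this]; ring
    _ ≤ Gv c n v := by
        unfold Gv
        exact mul_le_mul_of_nonneg_left (Real.sqrt_le_sqrt h2) (Real.sqrt_nonneg _)

end Pool.Agent.U162.PL
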