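import Pool.Agent.U162.PL.Dec
import Pool.Agent.H356R3.NS.Reg4

/-!
Physical solutions from solutions on the Fourier side with rapid decay
-/

open MeasureTheory Set Filter Topology
open scoped ENNReal NNReal ContDiff

namespace Pool.Agent.U162.PL

open Pool.Agent.H356R3.NS Pool.Agent.U162.TS Pool.Agent.U162.TS.EL

lemma gen_deriv {c : ℝ} {u : Fam} (hder : ∀ k t, 0 < t → HasDerivAt (u k) (-(c * H356R3.NS.sq k) • u k t + Bt u k t) t)
    (i : Fin 3) (k : K) {t : ℝ} (ht : 0 < t) : HasDerivAt (fun t => u k t i) (dU c u i k t) t := by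
  have h5 := (hasDerivAt_pi.1 (hder k t ht)) i
  refine h5.congr_deriv ?_
  unfold dU Bt Bf cvv cv at'
  simp only [Pi.add_apply, Pi.smul_apply, Complex.real_smul]
  push_cast
  ring

lemma gen_TT {c : ℝ} {u : Fam} (hrd : ∀ i, RD (cf' u i)) (hcf : CF u)
    (hder : ∀ k t, 0 < t → HasDerivAt (u k) (-(c * H356R3.NS.sq k) • u k t + Bt u k t) t) (n : ℕ) :
    ∀ i : Fin 3, TT n (cf' u i) := by
  have hc : ∀ i k, Continuous fun t => u k t i := fun i k => (continuous_apply i).comp (hcf k)
  induction n with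
  | zero => intro i; exact ⟨hrd i, hc i⟩
  | succ n ih =>
    intro i
    refine ⟨hrd i, hc i, dU c u i, fun k t ht => gen_deriv hder i k ht, ?_⟩
    unfold dU
    refine TT.add (TT.mul (norm_sq_le c) (ih i)) ?_
    refine TT.sum _ fun j _ => TT.sum _ fun m _ => ?_
    refine TT.mul (C := 4 * Real.pi) (r := 1) (fun k => ?_) ((ih j).conv (ih m))
    refine (norm_coef_le k i j m).trans ?_
    rw [pow_one]
    exact mul_le_mul_of_nonneg_left (nk_le_pw k) (by positivity)

theorem phys_gen {ν : ℝ} {u : Fam} (hrd : ∀ i, RD (cf' u i)) (hcf : CF u) (hsym : SymF u)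
    (hdiv : ∀ k t, dt k (u k t) = 0)
    (hder : ∀ k t, 0 < t → HasDerivAt (u k) (-(4 * Real.pi ^ 2 * ν * H356R3.NS.sq k) • u k t + Bt u k t) t)
    (m : E3) :
    AdmissiblePeriodic ν (fun x i => m i + (∑' k, u k 0 i * ex k x).re)
      (fun t x i => m i + (GS m (cf' u i) t x).re) (fun t x => (GS m (PF u) t x).re) := by
  have hT : ∀ n i, TT n (cf' u i) := fun n i => gen_TT hrd hcf hder n i
  have hP : ∀ n, TT n (PF u) := fun n => TT_PF (hT n)
  have hdT : ∀ n i, TT n (dU (4 * Real.pi ^ 2 * ν) u i) := fun n i => TT_dU (hT n) i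
  have hsym : ∀ i k t, cf' u i (-k) t = star (cf' u i k t) := fun i k t => hsym t k i
  have hre : ∀ i t x, (GS m (cf' u i) t x).im = 0 := fun i t x => SF_real (hsym i) _
  refine ⟨?_, ?_, ?_, ?_, ?_, ?_, ?_⟩
  · rw [contDiffOn_pi]
    intro i
    exact contDiffOn_const.add (GS_smooth_re m fun n => hT n i)
  · exact GS_smooth_re m hP
  · intro t _ x j
    funext i
    simp only [GS_periodic]
  · intro t _ x j
    simp only [GS_periodic]
  · intro t ht x i
    have hd0 : HasDerivWithinAt (fun s => m i + (GS m (cf' u i) s x).re)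
        (GS m (dU (4 * Real.pi ^ 2 * ν) u i) t x
          + ∑ j, GS m (dS j (cf' u i)) t x * (-(m j) : ℝ)).re (Ici 0) t := by
      have h1 := GS_dt m (hT 1 i) (fun k t ht => gen_deriv hder i k ht) (hdT 0 i) ht x
      have h2 := (Complex.reCLM.hasFDerivAt.comp_hasDerivWithinAt t h1).const_add (m i)
      exact h2
    have hd := hd0.derivWithin (uniqueDiffOn_Ici (0 : ℝ) t ht)
    have e1 : ∀ j, pd j (fun y => m i + (GS m (cf' u i) t y).re) = fun x => (GS m (dS j (cf' u i)) t x).re :=
      fun j => funext fun x => pd_GS m (hT 1 i) ht (m i) j x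
    have e2 : ∀ j, pd j (fun x => (GS m (dS j (cf' u i)) t x).re) x = (GS m (dS j (dS j (cf' u i))) t x).re :=
      fun j => pd_GS' m ((hT 1 i).dS j) ht j x
    have e3 : pd i (fun x => (GS m (PF u) t x).re) x = (GS m (dS i (PF u)) t x).re := pd_GS' m (hP 1) ht i x
    rw [hd]
    simp only [e1, e2, e3]
    have key : GS m (dU (4 * Real.pi ^ 2 * ν) u i) t x + ∑ j, GS m (cf' u j) t x * GS m (dS j (cf' u i)) t x
        = (ν : ℂ) * ∑ j, GS m (dS j (dS j (cf' u i))) t x + (-1) * GS m (dS i (PF u)) t x := by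
      have hU : ∀ i, RD (cf' u i) := fun i => (hT 0 i).rd
      have hdS : ∀ j, RD (dS j (cf' u i)) := fun j => ((hT 0 i).dS j).rd
      have hdd : ∀ j, RD (dS j (dS j (cf' u i))) := fun j => (((hT 0 i).dS j).dS j).rd
      have hdP : RD (dS i (PF u)) := ((hP 0).dS i).rd
      have hcv : ∀ j, RD (cvv (cf' u j) (dS j (cf' u i))) := fun j => (hU j).conv (hdS j)
      have hsum1 : RD fun k t => ∑ j, cvv (cf' u j) (dS j (cf' u i)) k t :=
        (TT.sum (n := 0) Finset.univ fun j _ => (hT 0 j).conv ((hT 0 i).dS j)).rd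
      have hsum2 : RD fun k t => ∑ j, dS j (dS j (cf' u i)) k t :=
        (TT.sum (n := 0) Finset.univ fun j _ => ((hT 0 i).dS j).dS j).rd
      have hone : ∀ (z : ℂ) {c : SFam}, RD c → RD fun k t => z * c k t := fun z c hc =>
        hc.mul (C := ‖z‖) (r := 0) (p := fun _ => z) fun k => by simp
      unfold GS
      have m1 : ∀ j, SF (cf' u j) (t, x - t • m) * SF (dS j (cf' u i)) (t, x - t • m)
          = SF (cvv (cf' u j) (dS j (cf' u i))) (t, x - t • m) := fun j => SF_mul (hU j) (hdS j) _
      simp only [m1]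
      rw [← SF_sum hcv, ← SF_sum hdd, ← SF_const_mul, ← SF_const_mul, ← SF_add (hdT 0 i).rd hsum1,
        ← SF_add (hone _ hsum2) (hone _ hdP)]
      congr 1
      funext k t
      exact fourier_eq hU hdiv i k t
    have keyre := congrArg Complex.re key
    simp only [Complex.add_re, Complex.re_sum, Complex.mul_re, hre, Complex.ofReal_re, Complex.ofReal_im,
      Complex.neg_re, Complex.one_re, Complex.neg_im, Complex.one_im] at keyre ⊢
    have e4 : ∑ j, (m j + (GS m (cf' u j) t x).re) * (GS m (dS j (cf' u i)) t x).re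
        = ∑ j, m j * (GS m (dS j (cf' u i)) t x).re
          + ∑ j, (GS m (cf' u j) t x).re * (GS m (dS j (cf' u i)) t x).re := by
      rw [← Finset.sum_add_distrib]; exact Finset.sum_congr rfl fun j _ => by ring
    have e5 : ∑ j, ((GS m (dS j (cf' u i)) t x).re * -m j - (GS m (dS j (cf' u i)) t x).im * 0)
        = -∑ j, m j * (GS m (dS j (cf' u i)) t x).re := by
      rw [← Finset.sum_neg_distrib]; exact Finset.sum_congr rfl fun j _ => by ring
    rw [e4, e5]
    simp only [zero_mul, sub_zero, neg_zero] at keyre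
    linarith
  · intro t ht x
    have e1 : ∀ i, pd i (fun y => m i + (GS m (cf' u i) t y).re) x = (GS m (dS i (cf' u i)) t x).re :=
      fun i => pd_GS m (hT 1 i) ht (m i) i x
    simp only [e1]
    rw [← Complex.re_sum]
    have : ∑ i, GS m (dS i (cf' u i)) t x = 0 := by
      unfold GS
      rw [← SF_sum fun i => ((hT 0 i).dS i).rd]
      have h0 : (fun k t => ∑ j, dS j (cf' u j) k t) = fun _ _ => (0 : ℂ) := by
        funext k t
        have := hdiv k t
        unfold dt at this
        unfold dS fj cf'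
        calc ∑ j, 2 * Real.pi * Complex.I * (k j : ℂ) * u k t j
            = 2 * Real.pi * Complex.I * ∑ j, (k j : ℂ) * u k t j := by
              rw [Finset.mul_sum]; exact Finset.sum_congr rfl fun j _ => by ring
          _ = 0 := by rw [this, mul_zero]
      rw [h0]
      simp [SF]
    rw [this]; rfl
  · funext x i
    show m i + (GS m (cf' u i) 0 x).re = m i + (∑' k, u k 0 i * ex k x).re
    unfold GS SF
    simp only [zero_smul, sub_zero, cf']

end Pool.Agent.U162.PL
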