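import Pool.Agent.U162.PL.PhysG

/-!
From elements of the Banach space to flows on the Fourier side
-/

open MeasureTheory Set Filter Topology
open scoped ENNReal NNReal ContDiff

namespace Pool.Agent.U162.PL

open Pool.Agent.H356R3.NS Pool.Agent.U162.TS Pool.Agent.U162.TS.EL

/-- Fourier coefficients of smooth real divergence free data without mean -/
structure Dta (v : K → C3) : Prop where
  sum : Summable fun k => ‖v k‖
  mean : v 0 = 0
  real : ∀ k i, v (-k) i = star (v k i)
  div : ∀ k, dt k (v k) = 0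
  dec : ∀ j : ℕ, ∃ D : ℝ, ∀ k, nk k ^ j * ‖v k‖ ≤ D

/-- the flow -/
noncomputable def XX (c : ℝ) (z : EE) : Fam := fun k t => Real.exp (-(c / 2 * max t 0)) • z k (max t 0)

variable {c : ℝ} (hc : 0 < c)

lemma XX_cf (z : EE) : CF (XX c z) := by
  intro k
  unfold XX
  have h1 : Continuous fun s : ℝ => Real.exp (-(c / 2 * max s 0)) := by fun_prop
  have h2 : Continuous fun s : ℝ => z k (max s 0) := (z k).continuous.comp (by fun_prop)
  exact h1.smul h2

include hc in
lemma XX_norm (z : EE) (k : K) (t : ℝ) : ‖XX c z k t‖ ≤ ‖z k‖ := by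
  unfold XX
  rw [norm_smul, Real.norm_of_nonneg (Real.exp_pos _).le]
  have h1 : Real.exp (-(c / 2 * max t 0)) ≤ 1 := by
    rw [Real.exp_le_one_iff]
    have := le_max_right t 0
    have : 0 ≤ c / 2 * max t 0 := by positivity
    linarith
  exact (mul_le_of_le_one_left (norm_nonneg _) h1).trans ((z k).norm_coe_le_norm _)

include hc in
lemma XX_dom (z : EE) : Dom (XX c z) := ⟨fun k => ‖z k‖, sE z, fun k t => XX_norm hc z k t⟩

include hc in
lemma XX_Bt (z : EE) (k : K) {s : ℝ} (hs : 0 ≤ s) :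
    ∑' l, prf c k (z l) (z (k - l)) s = Real.exp (c / 2 * s) • Bt (XX c z) k s := by
  unfold Bt
  rw [Bf_eq_tsum ((XX_dom hc z).sn s) ((XX_dom hc z).sn s), ← tsum_const_smul'']
  refine tsum_congr fun l => ?_
  unfold prf at' XX
  rw [bt_smul, smul_smul, max_eq_left hs]
  congr 1
  rw [← Real.exp_add, ← Real.exp_add]
  congr 1
  ring

lemma XX_mild {z : EE} {v : K → C3} {hv : Summable fun k => ‖v k‖} (hz : Phi hc z = hE hc v hv)
    {k : K} (hk : k ≠ 0) {t : ℝ} (ht : 0 ≤ t) :
    XX c z k t = Real.exp (-(c * H356R3.NS.sq k * t)) •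
      (v k + ∫ r in (0 : ℝ)..t, Real.exp (c * H356R3.NS.sq k * r) • Bt (XX c z) k r) := by
  have hm : EL.mk c k = c * H356R3.NS.sq k - c / 2 := by
    unfold EL.mk; rw [max_eq_right (one_le_sq hk)]
  have e : z k t = hT hc k (v k) t + BB hc z z k t := by
    have h1 : (Phi hc z) k t = hT hc k (v k) t := by rw [hz, hE_apply]
    unfold Phi at h1
    rw [lp.coeFn_sub, Pi.sub_apply, BoundedContinuousFunction.sub_apply] at h1
    rw [← h1]; abel
  conv_lhs => unfold XX
  rw [max_eq_left ht, e, BB_eval, tsum_tkf1 hc, max_eq_left ht, hT_apply, max_eq_left ht, duf_eq]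
  have e1 : ∫ s in (0 : ℝ)..t, Real.exp (EL.mk c k * s) • ∑' l, prf c k (z l) (z (k - l)) s
      = ∫ r in (0 : ℝ)..t, Real.exp (c * H356R3.NS.sq k * r) • Bt (XX c z) k r := by
    refine intervalIntegral.integral_congr fun r hr => ?_
    rw [uIcc_of_le ht] at hr
    show Real.exp (EL.mk c k * r) • ∑' l, prf c k (z l) (z (k - l)) r = Real.exp (c * H356R3.NS.sq k * r) • Bt (XX c z) k r
    rw [XX_Bt hc z k hr.1, smul_smul, ← Real.exp_add]
    congr 2
    rw [hm]; ring
  rw [e1, ← smul_add, smul_smul, ← Real.exp_add]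
  congr 2
  rw [hm]; ring

lemma XX_zero {z : EE} {v : K → C3} {hv : Summable fun k => ‖v k‖} (hz : Phi hc z = hE hc v hv) (h0 : v 0 = 0)
    (t : ℝ) : XX c z 0 t = 0 := by
  unfold XX; rw [z_zero hc hz h0, smul_zero]

lemma Bt_0 (u : Fam) (t : ℝ) : Bt u 0 t = 0 := by unfold Bt; exact Bf_zero _ _

lemma XX_ode {z : EE} {v : K → C3} {hv : Summable fun k => ‖v k‖} (hz : Phi hc z = hE hc v hv) (h0 : v 0 = 0)
    (k : K) (t : ℝ) (ht : 0 < t) :
    HasDerivAt (XX c z k) (-(c * H356R3.NS.sq k) • XX c z k t + Bt (XX c z) k t) t := by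
  by_cases hk : k = 0
  · subst hk
    have e : XX c z 0 = fun _ => 0 := funext fun t => XX_zero hc hz h0 t
    rw [e, Bt_0, smul_zero, add_zero]
    exact hasDerivAt_const _ _
  have hB : Continuous (Bt (XX c z) k) := Bt_cont (XX_cf z) (XX_dom hc z) k
  have h1 := duh_deriv (q := c * H356R3.NS.sq k) (v k) hB t
  rw [XX_mild hc hz hk ht.le]
  refine h1.congr_of_eventuallyEq ?_
  filter_upwards [lt_mem_nhds ht] with s hs
  exact XX_mild hc hz hk hs.le

lemma XX_init {z : EE} {v : K → C3} {hv : Summable fun k => ‖v k‖} (hz : Phi hc z = hE hc v hv) (h0 : v 0 = 0)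
    (k : K) : XX c z k 0 = v k := by
  by_cases hk : k = 0
  · subst hk; rw [XX_zero hc hz h0, h0]
  · rw [XX_mild hc hz hk le_rfl]; simp

lemma XX_max (z : EE) (k : K) (t : ℝ) : XX c z k t = XX c z k (max t 0) := by
  unfold XX; simp

lemma XX_div {z : EE} {v : K → C3} {hv : Summable fun k => ‖v k‖} (hz : Phi hc z = hE hc v hv) (h0 : v 0 = 0)
    (hd : ∀ k, dt k (v k) = 0) (k : K) (t : ℝ) : dt k (XX c z k t) = 0 := by
  by_cases hk : k = 0
  · subst hk; rw [XX_zero hc hz h0]; simp [dt]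
  have hB : Continuous (Bt (XX c z) k) := Bt_cont (XX_cf z) (XX_dom hc z) k
  let L : C3 →L[ℝ] ℂ := ∑ j, ((k j : ℝ) • (ContinuousLinearMap.proj (R := ℝ) (φ := fun _ : Fin 3 => ℂ) j))
  have hL : ∀ v, L v = dt k v := by
    intro v
    simp [L, dt]
  rw [XX_max, XX_mild hc hz hk (le_max_right _ _), ← hL, map_smul, map_add,
    ← ContinuousLinearMap.intervalIntegral_comp_comm]
  · have : ∀ s, L (Real.exp (c * H356R3.NS.sq k * s) • Bt (XX c z) k s) = 0 := by
      intro s
      rw [map_smul, hL]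
      have : dt k (Bt (XX c z) k s) = 0 := Bf_div _ _ k
      rw [this, smul_zero]
    simp only [this, intervalIntegral.integral_zero, hL, hd, add_zero, smul_zero]
  · exact (by fun_prop : Continuous fun s => Real.exp (c * H356R3.NS.sq k * s) • Bt (XX c z) k s).intervalIntegrable _ _

/-! ### reality -/

/-- conjugation of values, as a real linear map -/
noncomputable def cj : C3 →L[ℝ] C3 :=
  ContinuousLinearMap.pi fun i => (Complex.conjCLE : ℂ →L[ℝ] ℂ).comp (ContinuousLinearMap.proj (R := ℝ) (φ := fun _ : Fin 3 => ℂ) i)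

lemma cj_apply (v : C3) (i : Fin 3) : cj v i = star (v i) := rfl

lemma cj_norm (v : C3) : ‖cj v‖ = ‖v‖ := by
  refine le_antisymm ?_ ?_
  · rw [pi_norm_le_iff_of_nonneg (norm_nonneg _)]
    intro i
    rw [cj_apply, norm_star]; exact norm_le_pi_norm v i
  · rw [pi_norm_le_iff_of_nonneg (norm_nonneg _)]
    intro i
    rw [← norm_star, ← cj_apply]; exact norm_le_pi_norm _ i

/-- conjugation in time -/
noncomputable def cjB (f : TB) : TB :=
  BoundedContinuousFunction.ofNormedAddCommGroup (fun t => cj (f t)) (cj.continuous.comp f.continuous) ‖f‖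
    fun t => by rw [cj_norm]; exact f.norm_coe_le_norm t

lemma cjB_apply (f : TB) (t : ℝ) : cjB f t = cj (f t) := rfl

lemma cjB_norm (f : TB) : ‖cjB f‖ ≤ ‖f‖ :=
  (BoundedContinuousFunction.norm_le (norm_nonneg _)).2 fun t => by
    rw [cjB_apply, cj_norm]; exact f.norm_coe_le_norm t

/-- reflection and conjugation -/
noncomputable def cjE (z : EE) : EE :=
  mkE (fun k => cjB (z (-k))) (((Equiv.neg K).summable_iff.2 (sE z)).of_nonneg_of_le (fun _ => norm_nonneg _)
    fun k => cjB_norm _)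

lemma cjE_apply (z : EE) (k : K) (t : ℝ) : cjE z k t = cj (z (-k) t) := rfl

lemma bt_cj (k : K) (u v : C3) : bt k (cj u) (cj v) = cj (bt (-k) u v) := by
  funext i
  rw [cj_apply, bt_eq, bt_eq]
  have hd : ∀ w : C3, dt k (cj w) = -star (dt (-k) w) := by
    intro w
    rw [dt_eq, dt_eq]
    have hz : ∀ z : ℤ, (starRingEnd ℂ) (z : ℂ) = (z : ℂ) := fun z => by simp
    simp only [cj_apply, Complex.star_def, map_add, map_mul, Pi.neg_apply, Int.cast_neg, map_neg, hz]
    ring
  have hz : ∀ z : ℤ, (starRingEnd ℂ) (z : ℂ) = (z : ℂ) := fun z => by simp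
  have h2 : (starRingEnd ℂ) 2 = 2 := Complex.conj_ofReal 2
  rw [hd, hd, H356R3.NS.sq_neg, cj_apply]
  simp only [Complex.star_def, map_mul, map_sub, map_neg, map_div₀, Complex.conj_ofReal, Complex.conj_I, h2,
    Pi.neg_apply, Int.cast_neg, hz]
  ring

lemma tkf_cj (k : K) (f g : TB) (t : ℝ) : tkf c k (cjB f) (cjB g) t = cj (tkf c (-k) f g t) := by
  unfold tkf duf
  have hm : EL.mk c (-k) = EL.mk c k := by unfold EL.mk; rw [H356R3.NS.sq_neg]
  rw [hm, ← ContinuousLinearMap.intervalIntegral_comp_comm]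
  · refine intervalIntegral.integral_congr fun s _ => ?_
    show _ • prf c k (cjB f) (cjB g) s = cj (_ • prf c (-k) f g s)
    rw [map_smul]
    congr 1
    unfold prf
    rw [map_smul, cjB_apply, cjB_apply, bt_cj]
  · have h1 : Continuous (prf c (-k) f g) := prf_cont c (-k) f.continuous g.continuous
    exact (by fun_prop : Continuous fun s => Real.exp (-(EL.mk c k * (max t 0 - s))) • prf c (-k) f g s).intervalIntegrable _ _

lemma BB_cj (x y : EE) : BB hc (cjE x) (cjE y) = cjE (BB hc x y) := by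
  apply lp.ext
  funext k
  ext1 t
  rw [cjE_apply, BB_eval, BB_eval]
  have hs : Summable fun l => tkf c (-k) (x l) (y (-k - l)) t := by
    refine Summable.of_norm_bounded ((TKs hc x y (-k))) fun l => ?_
    exact (TK hc (-k) (x l) (y (-k - l))).norm_coe_le_norm t
  rw [cj.map_tsum hs, ← (Equiv.neg K).tsum_eq]
  refine tsum_congr fun l => ?_
  have e1 : (cjE x) (Equiv.neg K l) = cjB (x l) := by
    show cjB (x (- -l)) = _; rw [neg_neg]
  have e2 : (cjE y) (k - Equiv.neg K l) = cjB (y (-k - l)) := by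
    have h : -(k - -l) = -k - l := by abel
    show cjB (y (-(k - -l))) = _
    rw [h]
  rw [e1, e2, tkf_cj]

lemma Phi_cj (z : EE) : Phi hc (cjE z) = cjE (Phi hc z) := by
  unfold Phi
  rw [BB_cj]
  apply lp.ext
  funext k
  ext1 t
  rw [cjE_apply, lp.coeFn_sub, Pi.sub_apply, BoundedContinuousFunction.sub_apply, lp.coeFn_sub, Pi.sub_apply,
    BoundedContinuousFunction.sub_apply, map_sub, cjE_apply, cjE_apply]

lemma z_real {z : EE} {v : K → C3} {hv : Summable fun k => ‖v k‖} (hz : Phi hc z = hE hc v hv)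
    (hr : ∀ k i, v (-k) i = star (v k i)) (k : K) (t : ℝ) (i : Fin 3) : z (-k) t i = star (z k t i) := by
  have h : cjE z = z := by
    apply Phi_inj hc
    rw [Phi_cj, hz]
    apply lp.ext
    funext k
    ext1 t
    rw [cjE_apply, hE_apply, hE_apply, hT_apply, hT_apply, map_smul]
    have hm : EL.mk c (-k) = EL.mk c k := by unfold EL.mk; rw [H356R3.NS.sq_neg]
    rw [hm]
    congr 1
    funext i
    rw [cj_apply, hr, star_star]
  have h1 : z k t i = star (z (-k) t i) := by
    conv_lhs => rw [← h]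
    rw [cjE_apply, cj_apply]
  rw [h1, star_star]

/-! ### modulation -/

/-- modulation -/
noncomputable def Mo (n : K) (θ : ℝ) (k : K) : ℂ := Complex.exp ((2 * Real.pi * θ * ((dz n k : ℤ) : ℝ) : ℝ) * Complex.I)

lemma Mo_norm (n : K) (θ : ℝ) (k : K) : ‖Mo n θ k‖ = 1 := by
  unfold Mo; rw [Complex.norm_exp_ofReal_mul_I]

lemma Mo_add (n : K) (θ : ℝ) (k l : K) : Mo n θ (k + l) = Mo n θ k * Mo n θ l := by
  unfold Mo
  rw [← Complex.exp_add, dz_add]
  congr 1
  push_cast; ring

/-- modulation of a family -/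
noncomputable def MoE (n : K) (θ : ℝ) (z : EE) : EE :=
  mkE (fun k => Mo n θ k • z k) ((sE z).congr fun k => by rw [norm_smul, Mo_norm, one_mul])

lemma MoE_apply (n : K) (θ : ℝ) (z : EE) (k : K) : MoE n θ z k = Mo n θ k • z k := rfl

lemma BB_Mo (n : K) (θ : ℝ) (x y : EE) : BB hc (MoE n θ x) (MoE n θ y) = MoE n θ (BB hc x y) := by
  apply lp.ext
  funext k
  rw [MoE_apply, BB_apply, BB_apply, ← tsum_const_smul'']
  refine tsum_congr fun l => ?_
  rw [MoE_apply, MoE_apply, map_smul, map_smul, _root_.smul_apply, smul_smul]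
  congr 1
  have : Mo n θ k = Mo n θ l * Mo n θ (k - l) := by rw [← Mo_add, add_sub_cancel]
  rw [this]; ring

/-- the support of the solutions is in the plane of the data -/
lemma z_plane {z : EE} {v : K → C3} {hv : Summable fun k => ‖v k‖} (hz : Phi hc z = hE hc v hv)
    {n : K} (hn : ∀ k, dz n k ≠ 0 → v k = 0) (k : K) (hk : dz n k ≠ 0) : z k = 0 := by
  have h : ∀ θ, MoE n θ z = z := by
    intro θ
    apply Phi_inj hc
    have e : Phi hc (MoE n θ z) = MoE n θ (Phi hc z) := by
      unfold Phi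
      rw [BB_Mo]
      apply lp.ext
      funext k
      rw [lp.coeFn_sub, Pi.sub_apply, MoE_apply, MoE_apply, MoE_apply, lp.coeFn_sub, Pi.sub_apply, smul_sub]
    rw [e, hz]
    apply lp.ext
    funext k
    rw [MoE_apply]
    by_cases h0 : dz n k = 0
    · have : Mo n θ k = 1 := by unfold Mo; rw [h0]; simp
      rw [this, one_smul]
    · ext1 t
      show Mo n θ k • (hE hc v hv) k t = (hE hc v hv) k t
      rw [hE_apply, hn k h0, hT_apply, smul_zero, smul_zero]
  have h1 : ∀ t, Mo n (1 / (2 * ((dz n k : ℤ) : ℝ))) k • z k t = z k t := fun t =>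
    congrArg (fun x : EE => x k t) (h (1 / (2 * ((dz n k : ℤ) : ℝ))))
  have h2 : Mo n (1 / (2 * ((dz n k : ℤ) : ℝ))) k = -1 := by
    unfold Mo
    have hk' : ((dz n k : ℤ) : ℝ) ≠ 0 := by exact_mod_cast hk
    have : 2 * Real.pi * (1 / (2 * ((dz n k : ℤ) : ℝ))) * ((dz n k : ℤ) : ℝ) = Real.pi := by
      field_simp
    rw [this, Complex.exp_pi_mul_I]
  ext1 t
  funext i
  have h3 := congrFun (h1 t) i
  rw [h2, Pi.smul_apply, smul_eq_mul] at h3
  show z k t i = 0
  linear_combination (-1 / 2 : ℂ) * h3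

end Pool.Agent.U162.PL
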